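import Pool.Agent.H30.OR.Cd
import Pool.Agent.H88.GX.Nb2

/-!
# MP_78d38b_GN (necessity): the lower bound for the relaxed group over a Galois extension

`card_Y3` over the top field: the primes of `T` are split completely (places `W v` with trivial decomposition group) and
have any number of places of the cubic algebra above them.
-/

set_option autoImplicit false
set_option linter.unusedSectionVars false
open scoped Classical

open WithZero NumberField IsDedekindDomain H38RT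
open H38T1 (SC sc scu rep eo la si Pri OddP tp unif)
open H76PP (Cub LC ev scm dn)
open H76PP H88GX H30ZO

namespace H30OR

open H30GX (nb_gq two_sg fin_ab Lv_iff Lr_iff dne_F)

variable {K F L : Type} [Field K] [NumberField K] [Field F] [NumberField F] [Field L]
  [NumberField L] [Algebra K F] [Algebra F L] {a b : K} {θ : L} {S : Ext K F L a b θ}
  {Sg : Finset (HeightOneSpectrum (𝓞 K))}

/-- A sum over the places above split places. -/
theorem sum_split [IsGalois K F] {T : Finset (HeightOneSpectrum (𝓞 K))}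
    (W : {v // v ∈ T} → HeightOneSpectrum (𝓞 F)) (hW : ∀ v, dn K (W v) = v.1)
    (hfr : ∀ v (g : F ≃ₐ[K] F), gq g • W v = W v → g = 1)
    {T' : Finset (HeightOneSpectrum (𝓞 F))} (hT' : ∀ v, v ∈ T' ↔ dn K v ∈ T)
    (f : HeightOneSpectrum (𝓞 F) → ℕ) (hf : ∀ (g : F ≃ₐ[K] F) v, f (gq g • v) = f v) :
    ∑ v ∈ T', f v = Nat.card (F ≃ₐ[K] F) * ∑ v, f (W v) := by
  have h2 : Function.Injective
      (fun x : (F ≃ₐ[K] F) × {q // q ∈ T} => gq x.1 • W x.2) := by
    rintro ⟨g, q⟩ ⟨g', q'⟩ h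
    have h3 : gq g • W q = gq g' • W q' := h
    have h4 : q = q' := by
      have h5 := congrArg (dn K) h3
      rw [dn_gq, dn_gq, hW q, hW q'] at h5
      exact Subtype.ext h5
    subst h4
    have h6 : gq (g'⁻¹ * g) • W q = W q := by
      have h7 : gq (g'⁻¹ * g) = (gq g')⁻¹ * gq g := by
        apply AlgEquiv.ext
        intro x
        rfl
      rw [h7, mul_smul, h3, inv_smul_smul]
    have h8 := hfr _ _ h6
    have h9 : g = g' := by
      rw [inv_mul_eq_one] at h8
      exact h8.symm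
    rw [h9]
  have h1 : T' = Finset.univ.image (fun x : (F ≃ₐ[K] F) × {q // q ∈ T} => gq x.1 • W x.2) := by
    ext v
    rw [hT' v, Finset.mem_image]
    constructor
    · intro hv
      obtain ⟨g, hg⟩ := Gc_trans (K := K) (v := v) (v' := W ⟨dn K v, hv⟩) (hW ⟨dn K v, hv⟩).symm
      exact ⟨(g, ⟨dn K v, hv⟩), Finset.mem_univ _, hg.symm⟩
    · rintro ⟨⟨g, q⟩, _, rfl⟩
      change dn K (gq g • W q) ∈ T
      rw [dn_gq, hW q]
      exact q.2
  rw [h1, Finset.sum_image (fun x _ y _ h => h2 h), Fintype.sum_prod_type, Finset.sum_comm]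
  have h3 : ∀ y : {q // q ∈ T}, ∑ x : F ≃ₐ[K] F, f (gq x • W y) =
      Nat.card (F ≃ₐ[K] F) * f (W y) := by
    intro y
    rw [Finset.sum_congr rfl fun x _ => hf x (W y), Finset.sum_const, Finset.card_univ,
      smul_eq_mul, Nat.card_eq_fintype_card]
  rw [Finset.sum_congr rfl fun y _ => h3 y, ← Finset.mul_sum]

/-- **The relaxed group over `F`**: it is finite and has at least `2 ^ (|G| ∑ m)` elements. -/
theorem card_YN {D : K} (ok : S.Ok D Sg) {T : Finset (HeightOneSpectrum (𝓞 K))}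
    (hTS : ∀ v ∈ T, v ∉ Sg) (W : {v // v ∈ T} → HeightOneSpectrum (𝓞 F))
    (hW : ∀ v, dn K (W v) = v.1) (hfr : ∀ v (g : F ≃ₐ[K] F), gq g • W v = W v → g = 1)
    {m : {v // v ∈ T} → ℕ} (hm : ∀ v, nb F L (W v) = m v + 1)
    {Y : AddSubgroup (SC L)} (hY : ∀ c, c ∈ Y ↔ S.Y D Sg T c) :
    Finite Y ∧ 2 ^ (Nat.card (F ≃ₐ[K] F) * ∑ v, m v) ≤ Nat.card Y := by
  have hgal : IsGalois K F := S.gal
  have hDE : algebraMap K F D ≠ 0 := (map_ne_zero _).2 ok.ne
  obtain ⟨Sg', hSg'⟩ : ∃ A : Finset (HeightOneSpectrum (𝓞 F)), A = (fin_ab (F := F) Sg).toFinset :=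
    ⟨_, rfl⟩
  obtain ⟨T', hT'⟩ : ∃ A : Finset (HeightOneSpectrum (𝓞 F)), A = (fin_ab (F := F) T).toFinset :=
    ⟨_, rfl⟩
  have m1 : ∀ v, v ∈ Sg' ↔ dn K v ∈ Sg := fun v => by
    rw [hSg', Set.Finite.mem_toFinset]
    rfl
  have m2 : ∀ v, v ∈ T' ↔ dn K v ∈ T := fun v => by
    rw [hT', Set.Finite.mem_toFinset]
    rfl
  have hnb : ∀ v ∈ T', nb F L v = (nb F L v - 1) + 1 := by
    intro v hv
    have hv' := (m2 v).1 hv
    obtain ⟨g, hg⟩ := Gc_trans (K := K) (v := v) (v' := W ⟨dn K v, hv'⟩) (hW ⟨dn K v, hv'⟩).symm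
    have h1 : nb F L v = m ⟨dn K v, hv'⟩ + 1 :=
      (congrArg (nb F L) hg).trans ((nb_gq S g _).trans (hm _))
    omega
  have hsum : ∑ v ∈ T', (nb F L v - 1) = Nat.card (F ≃ₐ[K] F) * ∑ v, m v := by
    rw [sum_split W hW hfr m2 (fun v => nb F L v - 1) (fun g v => by
      rw [nb_gq S])]
    congr 1
    refine Finset.sum_congr rfl fun v _ => ?_
    change nb F L (W v) - 1 = m v
    rw [hm, Nat.add_sub_cancel]
  have hd : Disjoint Sg' T' := by
    rw [Finset.disjoint_left]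
    intro v h1 h2
    rw [m1] at h1
    rw [m2] at h2
    exact hTS _ h2 h1
  obtain ⟨W', hW'⟩ : ∃ W : AddSubgroup (SC L), ∀ c, c ∈ W ↔ c ∈ HH F L ∧
      (∀ v ∈ Sg', Wc (algebraMap F (v.adicCompletion F))
        ((algebraMap K F D) ^ 2 * algebraMap K F a) ((algebraMap K F D) ^ 3 * algebraMap K F b)
        (algebraMap F L (algebraMap K F D) * θ) c) ∧
      ∀ s : F →+* ℝ, Wc s ((algebraMap K F D) ^ 2 * algebraMap K F a)
        ((algebraMap K F D) ^ 3 * algebraMap K F b) (algebraMap F L (algebraMap K F D) * θ) c := by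
    have hD0 := dne_F S
    have hDE' := H76OD.Lt_dne hDE hD0
    have hE2 := Tf_twist S.cub hDE
    have hWv : ∀ v : HeightOneSpectrum (𝓞 F), ∃ W : AddSubgroup (SC L), ∀ c, c ∈ W ↔
        c ∈ HH F L ∧ Wc (algebraMap F (v.adicCompletion F))
          ((algebraMap K F D) ^ 2 * algebraMap K F a) ((algebraMap K F D) ^ 3 * algebraMap K F b)
          (algebraMap F L (algebraMap K F D) * θ) c := by
      intro v
      have _ := H36CY.char_zero v
      refine exists_WW hE2 _ ?_ (H24PD.inf_fin v _ _)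
      intro e
      apply hDE'
      apply (algebraMap F (v.adicCompletion F)).injective
      rw [map_zero, map_add, map_mul, map_mul, map_pow, map_pow, map_ofNat, map_ofNat]
      exact e
    choose Wf hWf using hWv
    have hWs : ∀ s : F →+* ℝ, ∃ W : AddSubgroup (SC L), ∀ c, c ∈ W ↔
        c ∈ HH F L ∧ Wc s ((algebraMap K F D) ^ 2 * algebraMap K F a)
          ((algebraMap K F D) ^ 3 * algebraMap K F b)
          (algebraMap F L (algebraMap K F D) * θ) c := by
      intro s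
      refine exists_WW hE2 s ?_ (H24PD.inf_real _ _)
      intro e
      apply hDE'
      apply s.injective
      rw [map_zero, map_add, map_mul, map_mul, map_pow, map_pow, map_ofNat, map_ofNat]
      exact e
    choose Wr hWr using hWs
    refine ⟨(⨅ j : {v // v ∈ Sg'} ⊕ (F →+* ℝ), Sum.elim (fun v => Wf v.1) Wr j) ⊓ HH F L, ?_⟩
    intro c
    rw [AddSubgroup.mem_inf, AddSubgroup.mem_iInf]
    constructor
    · rintro ⟨c1, c2⟩
      exact ⟨c2, fun v hv => ((hWf v c).1 (c1 (Sum.inl ⟨v, hv⟩))).2,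
        fun s => ((hWr s c).1 (c1 (Sum.inr s))).2⟩
    · rintro ⟨c1, c2, c3⟩
      refine ⟨?_, c1⟩
      rintro (v | s)
      · exact (hWf v.1 c).2 ⟨c1, c2 v.1 v.2⟩
      · exact (hWr s c).2 ⟨c1, c3 s⟩
  have key := card_tw3 S.cub (k := F) (a := algebraMap K F a) (b := algebraMap K F b)
    (fun v => H76PP.val_le (S.ha _)) (fun v => H76PP.val_le (S.hb _)) (dne_F S) hDE hd
    (fun v hv => (m1 v).2 (two_sg ok hv)) (m := fun v => nb F L v - 1) hnb hW'
  rw [hsum] at key
  obtain ⟨k1, k2, k3⟩ := key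
  obtain ⟨X, hX⟩ : ∃ X : AddSubgroup (SC L),
      X = H24TD.US L {w : HeightOneSpectrum (𝓞 L) | dn F w ∈ Sg' ∪ T'} ⊓ HH F L := ⟨_, rfl⟩
  rw [← hX] at k2 k3
  have hXH : X ≤ HH F L := by
    rw [hX]
    exact inf_le_right
  -- `Y` contains the intersection
  have hYX : W' ⊓ X ≤ Y := by
    intro c hc
    obtain ⟨c1, c2⟩ := AddSubgroup.mem_inf.1 hc
    obtain ⟨h1, h2, h3⟩ := (hW' c).1 c1
    refine (hY c).2 ⟨h1, fun v hv => (Lv_iff S D v c).2 (h2 v ((m1 v).2 hv)),
      fun s => (Lr_iff S D s c).2 (h3 s), ?_⟩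
    intro w hw1 hw2
    rw [hX] at c2
    obtain ⟨u, hu, rfl⟩ := (AddSubgroup.mem_inf.1 c2).1
    rw [H24TD.cls_eq, H38T1.eo_sc (Units.ne_zero _)]
    have h4 : w.valuation L ((Additive.toMul u : Lˣ) : L) = 1 := by
      refine hu w ?_
      intro h5
      have h6 : dn F w ∈ Sg' ∪ T' := h5
      rw [Finset.mem_union, m1, m2] at h6
      rcases h6 with h6 | h6
      · exact hw1 h6
      · exact hw2 h6
    rw [ord, h4, log_one, neg_zero, Int.cast_zero]
  have hYf : Finite Y := by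
    have hSL : {w : HeightOneSpectrum (𝓞 L) | dn F w ∈ Sg' ∪ T'}.Finite := by
      have h1 : {w : HeightOneSpectrum (𝓞 L) | dn F w ∈ Sg' ∪ T'} =
          ⋃ v ∈ Sg' ∪ T', {w : HeightOneSpectrum (𝓞 L) | dn F w = v} := by
        ext w
        simp
      rw [h1]
      exact (Sg' ∪ T').finite_toSet.biUnion fun v _ => fin_above v
    have h2 := H24TD.fin_US hSL
    have h3 : (Y : Set (SC L)) ⊆ {c : SC L |
        ∀ w, w ∉ {w : HeightOneSpectrum (𝓞 L) | dn F w ∈ Sg' ∪ T'} → eo w c = 0} := by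
      intro c hc w hw
      have hw' : dn F w ∉ Sg' ∪ T' := hw
      rw [Finset.mem_union, not_or, m1, m2] at hw'
      exact ((hY c).1 hc).ev w hw'.1 hw'.2
    exact (h2.subset h3).to_subtype
  refine ⟨hYf, ?_⟩
  have hcard2 : Nat.card X = Nat.card ↥(W' ⊓ X : AddSubgroup (SC L)) * W'.relIndex X := by
    have h1 := AddSubgroup.relIndex_mul_relIndex (⊥ : AddSubgroup (SC L)) (W' ⊓ X) X bot_le
      inf_le_right
    rw [AddSubgroup.relIndex_bot_left, AddSubgroup.relIndex_bot_left,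
      AddSubgroup.inf_relIndex_right] at h1
    exact h1.symm
  have hle : Nat.card ↥(W' ⊓ X : AddSubgroup (SC L)) ≤ Nat.card Y :=
    Nat.card_le_card_of_injective (AddSubgroup.inclusion hYX) (AddSubgroup.inclusion_injective hYX)
  have h5 : W'.relIndex X ≤ W'.relIndex (HH F L) := AddSubgroup.relIndex_le_of_le_right hXH k1
  have h6 : 2 ^ (Nat.card (F ≃ₐ[K] F) * ∑ v, m v) * W'.relIndex (HH F L) ≤
      Nat.card Y * W'.relIndex (HH F L) := by
    refine k2.trans ?_
    rw [hcard2]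
    exact Nat.mul_le_mul hle h5
  exact Nat.le_of_mul_le_mul_right h6 (Nat.pos_of_ne_zero k1)

end H30OR
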