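import Pool.Agent.H30.OR.Tf
import Pool.Agent.H30.OD.Cs

/-!
# MP_78d38b_OD: the local data at all odd good places (assembly)
-/

set_option autoImplicit false
set_option linter.unusedSectionVars false
open scoped Classical

open WithZero NumberField IsDedekindDomain H38RT
open H38T1 (SC sc scu rep rep_ne sc_rep sc_mul sc_eq_zero sc_surj eo la si Pri OddP tp unif ka)
open H76PP H36MX H76MQ H30ZO H76OD

namespace H30OR

variable {K L : Type} [Field K] [NumberField K] [Field L] [NumberField L] [Algebra K L]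
  {v : HeightOneSpectrum (𝓞 K)} {θ : L}

/-- Places with at most one place above them. -/
theorem loc1 {a b : K} (h : Cub K L a b θ) (hv : OddP v) (ha : v.valuation K a ≤ 1)
    (hb : v.valuation K b ≤ 1) (hD0 : 4 * a ^ 3 + 27 * b ^ 2 ≠ 0) (hnb : nb K L v ≤ 1) {D E : K}
    (hD : D ≠ 0) (hE : E ≠ 0) (r u : Fin 0 → (SC L →+ ZMod 2)) : LocD h v D E r u := by
  refine ⟨fun c hc => ?_, fun c hc => ?_, fun c hc y hy hyc hal hbe => ?_⟩
  · exact iff_of_true (H30OD.Wc_all h v ha hb hD0 hv hnb hD hc) (fun i => i.elim0)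
  · exact iff_of_true (H30OD.Wc_all h v ha hb hD0 hv hnb hE hc) (fun i => i.elim0)
  · rw [Fin.sum_univ_zero]
    exact H30OD.conAt_of_Wc h hD v (H30OD.Wc_all h v ha hb hD0 hv hnb hD hc) y hy hyc hal hbe

theorem dsc_notMem {A B : 𝓞 K} (hd : v.valuation K (4 * (A : K) ^ 3 + 27 * (B : K) ^ 2) = 1) :
    dsc A B ∉ v.asIdeal ^ 2 := by
  intro hm
  have h2 : dsc A B ∈ v.asIdeal := Ideal.pow_le_self two_ne_zero hm
  have h3 := (v.valuation_lt_one_iff_mem (K := K) _).2 h2
  have h4 : ((dsc A B : 𝓞 K) : K) = 4 * (A : K) ^ 3 + 27 * (B : K) ^ 2 := by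
    change algebraMap (𝓞 K) K (dsc A B) = _
    unfold dsc
    simp only [map_add, map_mul, map_pow, map_ofNat]
  have h5 : v.valuation K (4 * (A : K) ^ 3 + 27 * (B : K) ^ 2) < 1 :=
    lt_of_eq_of_lt (congrArg (v.valuation K) h4.symm) h3
  rw [hd] at h5
  exact lt_irrefl _ h5

/-- **The local data at an odd good place.** -/
theorem loc_all {A B : 𝓞 K} (h : Cub K L (A : K) (B : K) θ) (hv : OddP v)
    (h3 : v.valuation K 3 = 1)
    (hd : v.valuation K (4 * (A : K) ^ 3 + 27 * (B : K) ^ 2) = 1) {D E : K}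
    (hD : D ≠ 0) (hDe : Even (ord (v.valuation K) D)) (hE : E ≠ 0)
    (hEo : Odd (ord (v.valuation K) E)) :
    ∃ (m : ℕ) (r u : Fin m → (SC L →+ ZMod 2)), nb K L v = m + 1 ∧ LocD h v D E r u ∧
      (m : ZMod 2) = la v (sc (-(4 * (A : K) ^ 3 + 27 * (B : K) ^ 2))) := by
  have hA : v.valuation K (A : K) ≤ 1 := v.valuation_le_one A
  have hB : v.valuation K (B : K) ≤ 1 := v.valuation_le_one B
  have hD0 : 4 * (A : K) ^ 3 + 27 * (B : K) ^ 2 ≠ 0 := by
    intro h3
    rw [h3, map_zero] at hd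
    exact zero_ne_one hd
  have hco : ∀ x : 𝓞 K, x ∈ v.asIdeal ↔ v.valuation K (x : K) < 1 := fun x =>
    (v.valuation_lt_one_iff_mem (K := K) x).symm
  by_cases H : ∃ t : 𝓞 K, t ^ 3 + A * t + B ∈ v.asIdeal
  · obtain ⟨t, ht⟩ := H
    by_cases H2 : ∃ s : 𝓞 K, -3 * t ^ 2 - 4 * A - s ^ 2 ∈ v.asIdeal
    · obtain ⟨s, hs⟩ := H2
      rw [hco] at ht hs
      have e1 : ((t ^ 3 + A * t + B : 𝓞 K) : K) = (t : K) ^ 3 + (A : K) * (t : K) + (B : K) := by
        change algebraMap (𝓞 K) K _ = _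
        simp only [map_add, map_mul, map_pow]
      have e2 : ((-3 * t ^ 2 - 4 * A - s ^ 2 : 𝓞 K) : K) =
          -3 * (t : K) ^ 2 - 4 * (A : K) - (s : K) ^ 2 := by
        change algebraMap (𝓞 K) K _ = _
        simp only [map_sub, map_mul, map_pow, map_neg, map_ofNat]
      obtain ⟨e, he⟩ := roots_of hv hA hB hd (v.valuation_le_one t)
        (lt_of_eq_of_lt (congrArg (v.valuation K) e1.symm) ht)
        (lt_of_eq_of_lt (congrArg (v.valuation K) e2.symm) hs)
      have hnb := nb_eq3 h hd he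
      obtain ⟨r, u, hru⟩ := loc3 h hv hA hB hd hnb.le he hD hDe hE hEo
      refine ⟨2, r, u, hnb, hru, ?_⟩
      rw [la_three hv hd he]
      decide
    · push Not at H2
      have h6 : (6 : 𝓞 K) ∉ v.asIdeal := by
        rw [hco]
        intro h6
        have e1 : ((6 : 𝓞 K) : K) = 2 * 3 := by
          change algebraMap (𝓞 K) K 6 = _
          rw [map_ofNat]
          norm_num
        have h7 : v.valuation K (2 * 3) < 1 := lt_of_eq_of_lt (congrArg (v.valuation K) e1.symm) h6
        have h8 : v.valuation K 2 = 1 := hv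
        rw [map_mul, h8, h3, one_mul] at h7
        exact lt_irrefl _ h7
      obtain ⟨w₁, w₂, htw⟩ := exists_TwT h (dsc_notMem hd) h6 ⟨t, ht, H2⟩
      obtain ⟨hnb, r, u, hru⟩ := loc2 h hv hd htw hD hDe hE hEo
      refine ⟨1, r, u, hnb, hru, ?_⟩
      rw [la_one hv hd ht H2]
      decide
  · push Not at H
    have hno : H73P2.NoRootAt v (A : K) (B : K) := by
      refine ⟨1, A, B, one_ne_zero, by ring, by ring, hA, hB, fun t ht => ?_⟩
      obtain ⟨t', ht'⟩ := Tf_approx v ht
      have h4 : v.valuation K (((t' ^ 3 + A * t' + B : 𝓞 K) : K)) = 1 :=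
        (v.valuation_eq_one_iff_notMem (K := K)).2 (H t')
      have e1 : ((t' ^ 3 + A * t' + B : 𝓞 K) : K) = (t' : K) ^ 3 + (A : K) * (t' : K) + (B : K) := by
        change algebraMap (𝓞 K) K _ = _
        simp only [map_add, map_mul, map_pow]
      have h5 : v.valuation K ((t' : K) ^ 3 + (A : K) * (t' : K) + (B : K)) = 1 :=
        (congrArg (v.valuation K) e1).symm.trans h4
      have e2 : t ^ 3 + (A : K) * t + (B : K) = ((t' : K) ^ 3 + (A : K) * (t' : K) + (B : K)) +
          (t - (t' : K)) * (t ^ 2 + t * (t' : K) + (t' : K) ^ 2 + (A : K)) := by ring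
      have ht1 : v.valuation K (t' : K) ≤ 1 := v.valuation_le_one t'
      have h6 : v.valuation K
          ((t - (t' : K)) * (t ^ 2 + t * (t' : K) + (t' : K) ^ 2 + (A : K))) < 1 := by
        rw [map_mul]
        refine mul_lt_one_of_lt_of_le ht' (Valuation.map_add_le _ (Valuation.map_add_le _
          (Valuation.map_add_le _ ?_ ?_) ?_) hA)
        · rw [map_pow]
          exact pow_le_one₀ zero_le ht
        · rw [map_mul]
          exact mul_le_one₀ ht zero_le ht1
        · rw [map_pow]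
          exact pow_le_one₀ zero_le ht1
      rw [e2, Valuation.map_add_eq_of_lt_left _ (by rw [h5]; exact h6), h5]
    have hnb := H36O2.Oi_nb h hno
    have hnb1 := nb_ge1 K L v
    refine ⟨0, fun i => i.elim0, fun i => i.elim0, by omega,
      loc1 h hv hA hB hD0 hnb hD hE _ _, ?_⟩
    rw [la_no hv hd H]
    decide

end H30OR
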