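import Pool.Agent.H30.OD.Nb2
import Pool.Agent.H88.OD.Ha

/-!
ROW OR/Cd (project MP_78d38b_OD, about 200 lines): the lower bound for the relaxed group, for primes with any number of places (`F = K`).

card_tw3: modification of `H30OD.card_tw` (Pool/Agent/H30/OD/Card2.lean): there all `v ∈ T` have `nb = 2`; here `nb = m v + 1`. Only hnb changes: `∑ v ∈ Sg ∪ T, nb = ∑ v ∈ Sg, nb + ∑ v ∈ T, m v + T.card`.
card_Y3: modification of `H30OD.card_Yt` (Pool/Agent/H30/OD/Nb2.lean) for `F = K` (`dn K v = v`: H88OD.dn_self, Pool/Agent/H88/OD/Ha.lean), with `m` and without the hypothesis that the primes of `T` are special (instead: `T` is disjoint from `Sg`).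
-/

set_option autoImplicit false
set_option linter.unusedSectionVars false
open scoped Classical

open WithZero NumberField IsDedekindDomain H38RT
open H38T1 (SC sc scu rep eo la si Pri OddP tp unif)
open H76PP (Cub LC ev scm dn)
open H76PP H88OD H30ZO H30OD

namespace H30OR

theorem card_tw3 {k L : Type} [Field k] [NumberField k] [Field L] [NumberField L] [Algebra k L]
    {a b : k} {θ : L} (h : Cub k L a b θ)
    (ha : ∀ v : HeightOneSpectrum (𝓞 k), v.valuation k a ≤ 1)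
    (hb : ∀ v : HeightOneSpectrum (𝓞 k), v.valuation k b ≤ 1)
    (hD : 4 * a ^ 3 + 27 * b ^ 2 ≠ 0) {E : k} (hE : E ≠ 0)
    {Sg T : Finset (HeightOneSpectrum (𝓞 k))} (hd : Disjoint Sg T)
    (h2 : ∀ v : HeightOneSpectrum (𝓞 k), v.valuation k 2 < 1 → v ∈ Sg)
    {m : HeightOneSpectrum (𝓞 k) → ℕ} (hT : ∀ v ∈ T, H30ZO.nb k L v = m v + 1) {W : AddSubgroup (SC L)}
    (hW : ∀ c, c ∈ W ↔ c ∈ HH k L ∧
      (∀ v ∈ Sg, Wc (algebraMap k (v.adicCompletion k)) (E ^ 2 * a) (E ^ 3 * b)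
        (algebraMap k L E * θ) c) ∧
      ∀ s : k →+* ℝ, Wc s (E ^ 2 * a) (E ^ 3 * b) (algebraMap k L E * θ) c) :
    W.relIndex (HH k L) ≠ 0 ∧
      2 ^ (∑ v ∈ T, m v) * W.relIndex (HH k L) ≤
        Nat.card ↥(H24TD.US L {w : HeightOneSpectrum (𝓞 L) | dn k w ∈ Sg ∪ T} ⊓ HH k L) ∧
      Finite ↥(H24TD.US L {w : HeightOneSpectrum (𝓞 L) | dn k w ∈ Sg ∪ T} ⊓ HH k L) := by
  have hDE := H76OD.Lt_dne hE hD
  have hE2 := Tf_twist h hE
  have hWv : ∀ v : HeightOneSpectrum (𝓞 k), ∃ W : AddSubgroup (SC L), ∀ c, c ∈ W ↔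
      c ∈ HH k L ∧ Wc (algebraMap k (v.adicCompletion k)) (E ^ 2 * a) (E ^ 3 * b)
        (algebraMap k L E * θ) c := by
    intro v
    have _ := H36CY.char_zero v
    refine exists_WW hE2 _ ?_ (H24PD.inf_fin v _ _)
    intro e
    apply hDE
    apply (algebraMap k (v.adicCompletion k)).injective
    rw [map_zero, map_add, map_mul, map_mul, map_pow, map_pow, map_ofNat, map_ofNat]
    exact e
  choose Wf hWf using hWv
  have hWs : ∀ s : k →+* ℝ, ∃ W : AddSubgroup (SC L), ∀ c, c ∈ W ↔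
      c ∈ HH k L ∧ Wc s (E ^ 2 * a) (E ^ 3 * b) (algebraMap k L E * θ) c := by
    intro s
    refine exists_WW hE2 s ?_ (H24PD.inf_real _ _)
    intro e
    apply hDE
    apply s.injective
    rw [map_zero, map_add, map_mul, map_mul, map_pow, map_pow, map_ofNat, map_ofNat]
    exact e
  choose Wr hWr using hWs
  obtain ⟨X, hX⟩ : ∃ X : AddSubgroup (SC L),
      X = H24TD.US L {w : HeightOneSpectrum (𝓞 L) | dn k w ∈ Sg ∪ T} ⊓ HH k L := ⟨_, rfl⟩
  have hcX := card_X h (Sg ∪ T)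
  rw [← hX] at hcX ⊢
  have hX0 : Nat.card X ≠ 0 := by
    intro h0
    rw [h0, zero_mul] at hcX
    exact (pow_ne_zero _ two_ne_zero) hcX.symm
  have hXf : Finite X := Nat.finite_of_card_ne_zero hX0
  -- the product of the indices
  obtain ⟨n, hn⟩ : ∃ n, n = Module.finrank ℚ k := ⟨_, rfl⟩
  obtain ⟨t, ht⟩ : ∃ t, t = Nat.card {s : k →+* ℝ // nr k L s = 3} := ⟨_, rfl⟩
  have hplc := places_count h hD
  rw [← hn, ← ht] at hplc
  have hfinI : ∀ v : HeightOneSpectrum (𝓞 k), (Wf v).relIndex (HH k L) ≠ 0 ∧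
      2 * (Wf v).relIndex (HH k L) ≤ 2 ^ nb k L v * qq v :=
    fun v => loc_idx_tw h v (ha v) (hb v) hD hE (hWf v)
  have hreI : ∀ s : k →+* ℝ, (Wr s).relIndex (HH k L) ≠ 0 ∧
      2 * (Wr s).relIndex (HH k L) ≤ nr k L s + 1 :=
    fun s => real_idx hE2 hDE s (hWr s)
  have hqq : ∏ v ∈ Sg, qq v = 2 ^ n := by
    rw [hn]
    exact prod_two Sg h2
  have hP1 : 2 ^ Sg.card * ∏ v ∈ Sg, (Wf v).relIndex (HH k L) ≤
      2 ^ (∑ v ∈ Sg, nb k L v) * 2 ^ n := by
    have h1 : ∏ v ∈ Sg, (2 * (Wf v).relIndex (HH k L)) ≤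
        ∏ v ∈ Sg, (2 ^ nb k L v * qq v) :=
      Finset.prod_le_prod (fun v _ => Nat.zero_le _) (fun v _ => (hfinI v).2)
    rw [Finset.prod_mul_distrib, Finset.prod_mul_distrib, Finset.prod_const,
      Finset.prod_pow_eq_pow_sum, hqq] at h1
    exact h1
  have hP2 : ∏ s : k →+* ℝ, (Wr s).relIndex (HH k L) ≤ 2 ^ t := by
    have h1 : ∏ s : k →+* ℝ, (Wr s).relIndex (HH k L) ≤
        ∏ s : k →+* ℝ, (if nr k L s = 3 then 2 else 1) := by
      refine Finset.prod_le_prod (fun s _ => Nat.zero_le _) (fun s _ => ?_)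
      have h2 := (hreI s).2
      rcases nr_cases h hD s with h3 | h3
      · rw [h3] at h2
        rw [h3]
        simp only [OfNat.one_ne_ofNat, if_false]
        omega
      · rw [h3] at h2
        rw [h3, if_pos rfl]
        omega
    refine h1.trans (le_of_eq ?_)
    rw [Finset.prod_ite, Finset.prod_const_one, mul_one, Finset.prod_const, ht,
      Nat.card_eq_fintype_card, Fintype.card_subtype]
  -- the intersection
  have hZ : W = (⨅ j : {v // v ∈ Sg} ⊕ (k →+* ℝ), Sum.elim (fun v => Wf v.1) Wr j) ⊓ HH k L := by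
    ext c
    rw [hW c, AddSubgroup.mem_inf, AddSubgroup.mem_iInf]
    constructor
    · rintro ⟨c1, c2, c3⟩
      refine ⟨?_, c1⟩
      rintro (v | s)
      · exact (hWf v.1 c).2 ⟨c1, c2 v.1 v.2⟩
      · exact (hWr s c).2 ⟨c1, c3 s⟩
    · rintro ⟨c1, c2⟩
      exact ⟨c2, fun v hv => ((hWf v c).1 (c1 (Sum.inl ⟨v, hv⟩))).2,
        fun s => ((hWr s c).1 (c1 (Sum.inr s))).2⟩
  have hrel : W.relIndex (HH k L) = (⨅ j : {v // v ∈ Sg} ⊕ (k →+* ℝ),
      Sum.elim (fun v => Wf v.1) Wr j).relIndex (HH k L) := by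
    rw [hZ, AddSubgroup.inf_relIndex_right]
  have hidx : W.relIndex (HH k L) ≤ (∏ v ∈ Sg, (Wf v).relIndex (HH k L)) *
      ∏ s : k →+* ℝ, (Wr s).relIndex (HH k L) := by
    rw [hrel]
    refine (AddSubgroup.relIndex_iInf_le _).trans (le_of_eq ?_)
    rw [Fintype.prod_sum_type]
    simp only [Sum.elim_inl, Sum.elim_inr]
    rw [← Finset.prod_coe_sort Sg (fun v => (Wf v).relIndex (HH k L))]
  have hne : W.relIndex (HH k L) ≠ 0 := by
    rw [hrel]
    refine AddSubgroup.relIndex_iInf_ne_zero ?_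
    rintro (v | s)
    · exact (hfinI v.1).1
    · exact (hreI s).1
  refine ⟨hne, ?_, hXf⟩
  -- conclusion
  have hnb : ∑ v ∈ Sg ∪ T, nb k L v = (∑ v ∈ Sg, nb k L v) + ((∑ v ∈ T, m v) + T.card) := by
    rw [Finset.sum_union hd]
    congr 1
    rw [Finset.sum_congr rfl hT, Finset.sum_add_distrib, Finset.sum_const, smul_eq_mul, mul_one]
  have hSc : (Sg ∪ T).card = Sg.card + T.card := Finset.card_union_of_disjoint hd
  have h1 : Nat.card X * 2 ^ (Sg ∪ T).card = 2 ^ (∑ v ∈ Sg ∪ T, nb k L v) * 2 ^ n * 2 ^ t := by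
    have h2 : Nat.card X * 2 ^ (Sg ∪ T).card *
        2 ^ (InfinitePlace.nrRealPlaces k + InfinitePlace.nrComplexPlaces k) =
        2 ^ (∑ v ∈ Sg ∪ T, nb k L v) * 2 ^ n * 2 ^ t *
        2 ^ (InfinitePlace.nrRealPlaces k + InfinitePlace.nrComplexPlaces k) := by
      rw [mul_assoc, ← pow_add, hcX, hplc, ← pow_add, ← pow_add, ← pow_add]
      congr 1
      omega
    exact Nat.eq_of_mul_eq_mul_right (pow_pos two_pos _) h2
  refine Nat.le_of_mul_le_mul_right (c := 2 ^ (Sg ∪ T).card) ?_ (pow_pos two_pos _)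
  rw [h1]
  calc 2 ^ (∑ v ∈ T, m v) * W.relIndex (HH k L) * 2 ^ (Sg ∪ T).card
      ≤ 2 ^ (∑ v ∈ T, m v) * ((∏ v ∈ Sg, (Wf v).relIndex (HH k L)) *
          ∏ s : k →+* ℝ, (Wr s).relIndex (HH k L)) * 2 ^ (Sg ∪ T).card :=
        Nat.mul_le_mul_right _ (Nat.mul_le_mul_left _ hidx)
    _ = 2 ^ ((∑ v ∈ T, m v) + T.card) * ((2 ^ Sg.card * ∏ v ∈ Sg, (Wf v).relIndex (HH k L)) *
          ∏ s : k →+* ℝ, (Wr s).relIndex (HH k L)) := by
        rw [hSc, pow_add, pow_add]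
        ring
    _ ≤ 2 ^ ((∑ v ∈ T, m v) + T.card) * ((2 ^ (∑ v ∈ Sg, nb k L v) * 2 ^ n) * 2 ^ t) :=
        Nat.mul_le_mul_left _ (Nat.mul_le_mul hP1 hP2)
    _ = 2 ^ (∑ v ∈ Sg ∪ T, nb k L v) * 2 ^ n * 2 ^ t := by
        rw [hnb, pow_add]
        ring

theorem card_Y3 {K L : Type} [Field K] [NumberField K] [Field L] [NumberField L] [Algebra K L]
    {a b : K} {θ : L} {S : Ext K K L a b θ} {D : K} {Sg T : Finset (HeightOneSpectrum (𝓞 K))}
    (ok : S.Ok D Sg) (hd : Disjoint Sg T) {m : HeightOneSpectrum (𝓞 K) → ℕ}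
    (hT : ∀ v ∈ T, H30ZO.nb K L v = m v + 1) {Y : AddSubgroup (SC L)}
    (hY : ∀ c, c ∈ Y ↔ S.Y D Sg T c) :
    Finite Y ∧ 2 ^ (∑ v ∈ T, m v) ≤ Nat.card Y := by
  have hDE : algebraMap K K D ≠ 0 := (map_ne_zero _).2 ok.ne
  have m1 : ∀ v : HeightOneSpectrum (𝓞 K), v ∈ Sg ↔ dn K v ∈ Sg := fun v => by
    rw [dn_self]
  have m2 : ∀ v : HeightOneSpectrum (𝓞 K), v ∈ T ↔ dn K v ∈ T := fun v => by
    rw [dn_self]
  obtain ⟨W, hW⟩ : ∃ W : AddSubgroup (SC L), ∀ c, c ∈ W ↔ c ∈ HH K L ∧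
      (∀ v ∈ Sg, Wc (algebraMap K (v.adicCompletion K))
        ((algebraMap K K D) ^ 2 * algebraMap K K a) ((algebraMap K K D) ^ 3 * algebraMap K K b)
        (algebraMap K L (algebraMap K K D) * θ) c) ∧
      ∀ s : K →+* ℝ, Wc s ((algebraMap K K D) ^ 2 * algebraMap K K a)
        ((algebraMap K K D) ^ 3 * algebraMap K K b) (algebraMap K L (algebraMap K K D) * θ) c := by
    have hD0 := dne_F S
    have hDE' := H76OD.Lt_dne hDE hD0
    have hE2 := Tf_twist S.cub hDE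
    have hWv : ∀ v : HeightOneSpectrum (𝓞 K), ∃ W : AddSubgroup (SC L), ∀ c, c ∈ W ↔
        c ∈ HH K L ∧ Wc (algebraMap K (v.adicCompletion K))
          ((algebraMap K K D) ^ 2 * algebraMap K K a) ((algebraMap K K D) ^ 3 * algebraMap K K b)
          (algebraMap K L (algebraMap K K D) * θ) c := by
      intro v
      have _ := H36CY.char_zero v
      refine exists_WW hE2 _ ?_ (H24PD.inf_fin v _ _)
      intro e
      apply hDE'
      apply (algebraMap K (v.adicCompletion K)).injective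
      rw [map_zero, map_add, map_mul, map_mul, map_pow, map_pow, map_ofNat, map_ofNat]
      exact e
    choose Wf hWf using hWv
    have hWs : ∀ s : K →+* ℝ, ∃ W : AddSubgroup (SC L), ∀ c, c ∈ W ↔
        c ∈ HH K L ∧ Wc s ((algebraMap K K D) ^ 2 * algebraMap K K a)
          ((algebraMap K K D) ^ 3 * algebraMap K K b)
          (algebraMap K L (algebraMap K K D) * θ) c := by
      intro s
      refine exists_WW hE2 s ?_ (H24PD.inf_real _ _)
      intro e
      apply hDE'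
      apply s.injective
      rw [map_zero, map_add, map_mul, map_mul, map_pow, map_pow, map_ofNat, map_ofNat]
      exact e
    choose Wr hWr using hWs
    refine ⟨(⨅ j : {v // v ∈ Sg} ⊕ (K →+* ℝ), Sum.elim (fun v => Wf v.1) Wr j) ⊓ HH K L, ?_⟩
    intro c
    rw [AddSubgroup.mem_inf, AddSubgroup.mem_iInf]
    constructor
    · rintro ⟨c1, c2⟩
      exact ⟨c2, fun v hv => ((hWf v c).1 (c1 (Sum.inl ⟨v, hv⟩))).2,
        fun s => ((hWr s c).1 (c1 (Sum.inr s))).2⟩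
    · rintro ⟨c1, c2, c3⟩
      refine ⟨?_, c1⟩
      rintro (v | s)
      · exact (hWf v.1 c).2 ⟨c1, c2 v.1 v.2⟩
      · exact (hWr s c).2 ⟨c1, c3 s⟩
  have key := card_tw3 S.cub (k := K) (a := algebraMap K K a) (b := algebraMap K K b)
    (fun v => H76PP.val_le (S.ha _)) (fun v => H76PP.val_le (S.hb _)) (dne_F S) hDE hd
    (fun v hv => (m1 v).2 (two_sg ok hv))
    hT hW
  obtain ⟨k1, k2, k3⟩ := key
  obtain ⟨X, hX⟩ : ∃ X : AddSubgroup (SC L),
      X = H24TD.US L {w : HeightOneSpectrum (𝓞 L) | dn K w ∈ Sg ∪ T} ⊓ HH K L := ⟨_, rfl⟩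
  rw [← hX] at k2 k3
  have hXH : X ≤ HH K L := by
    rw [hX]
    exact inf_le_right
  -- `Y` contains the intersection
  have hYX : W ⊓ X ≤ Y := by
    intro c hc
    obtain ⟨c1, c2⟩ := AddSubgroup.mem_inf.1 hc
    obtain ⟨h1, h2, h3⟩ := (hW c).1 c1
    refine (hY c).2 ⟨h1, fun v hv => (Lv_iff S D v c).2 (h2 v ((m1 v).2 hv)),
      fun s => (Lr_iff S D s c).2 (h3 s), ?_⟩
    intro w hw1 hw2
    rw [hX] at c2
    obtain ⟨u, hu, rfl⟩ := (AddSubgroup.mem_inf.1 c2).1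
    rw [H24TD.cls_eq, H38T1.eo_sc (Units.ne_zero _)]
    have h4 : w.valuation L ((Additive.toMul u : Lˣ) : L) = 1 := by
      refine hu w ?_
      intro h5
      have h6 : dn K w ∈ Sg ∪ T := h5
      rw [Finset.mem_union, m1, m2] at h6
      rcases h6 with h6 | h6
      · exact hw1 h6
      · exact hw2 h6
    rw [ord, h4, log_one, neg_zero, Int.cast_zero]
  have hYf : Finite Y := by
    have hSL : {w : HeightOneSpectrum (𝓞 L) | dn K w ∈ Sg ∪ T}.Finite := by
      have h1 : {w : HeightOneSpectrum (𝓞 L) | dn K w ∈ Sg ∪ T} =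
          ⋃ v ∈ Sg ∪ T, {w : HeightOneSpectrum (𝓞 L) | dn K w = v} := by
        ext w
        simp
      rw [h1]
      exact (Sg ∪ T).finite_toSet.biUnion fun v _ => fin_above v
    have h2 := H24TD.fin_US hSL
    have h3 : (Y : Set (SC L)) ⊆ {c : SC L |
        ∀ w, w ∉ {w : HeightOneSpectrum (𝓞 L) | dn K w ∈ Sg ∪ T} → eo w c = 0} := by
      intro c hc w hw
      have hw' : dn K w ∉ Sg ∪ T := hw
      rw [Finset.mem_union, not_or, m1, m2] at hw'
      exact ((hY c).1 hc).ev w hw'.1 hw'.2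
    exact (h2.subset h3).to_subtype
  refine ⟨hYf, ?_⟩
  have hcard2 : Nat.card X = Nat.card ↥(W ⊓ X : AddSubgroup (SC L)) * W.relIndex X := by
    have h1 := AddSubgroup.relIndex_mul_relIndex (⊥ : AddSubgroup (SC L)) (W ⊓ X) X bot_le
      inf_le_right
    rw [AddSubgroup.relIndex_bot_left, AddSubgroup.relIndex_bot_left,
      AddSubgroup.inf_relIndex_right] at h1
    exact h1.symm
  have hle : Nat.card ↥(W ⊓ X : AddSubgroup (SC L)) ≤ Nat.card Y :=
    Nat.card_le_card_of_injective (AddSubgroup.inclusion hYX) (AddSubgroup.inclusion_injective hYX)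
  have h5 : W.relIndex X ≤ W.relIndex (HH K L) := AddSubgroup.relIndex_le_of_le_right hXH k1
  have h6 : 2 ^ (∑ v ∈ T, m v) * W.relIndex (HH K L) ≤
      Nat.card Y * W.relIndex (HH K L) := by
    refine k2.trans ?_
    rw [hcard2]
    exact Nat.mul_le_mul hle h5
  exact Nat.le_of_mul_le_mul_right h6 (Nat.pos_of_ne_zero k1)

end H30OR
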