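import Pool.Agent.H30.OR.Tg
import Pool.Agent.H30.OR.Cd
import Pool.Agent.H88.RE.Ia
import Pool.Agent.H88.RE.Ib

/-!
# MP_78d38b_OD: reciprocity for all places and the number of special places
-/

set_option autoImplicit false
set_option linter.unusedSectionVars false
open scoped Classical

open WithZero NumberField IsDedekindDomain H38RT
open H38T1 (SC sc scu rep rep_ne sc_rep sc_mul sc_eq_zero sc_surj eo la si Pri OddP tp unif ka)
open H76PP H36MX H76MQ H76MX H30ZO H76OD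

namespace H30OR

variable {K L : Type} [Field K] [NumberField K] [Field L] [NumberField L] [Algebra K L]
  {a b : K} {θ : L}

/-- Reciprocity with arbitrary values at the places of `T`. -/
theorem rec_all (h : Cub K L a b θ) {T : Finset (HeightOneSpectrum (𝓞 K))}
    {q : HeightOneSpectrum (𝓞 K) → ZMod 2} {c : SC L} (hc : c ∈ HH K L)
    (hT : ∀ v ∈ T, ∀ y : L, y ≠ 0 → sc y = c → al h y ≠ 0 → be h y ≠ 0 →
      hsv v (al h y) (be h y) = q v)
    (hv : ∀ v, v ∉ T → ConAt h v c) (hr : ∀ s : K →+* ℝ, ConR h s c) : ∑ v ∈ T, q v = 0 := by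
  obtain ⟨y, hy, hyc⟩ := sc_surj c
  obtain ⟨Y, hY, ha, hb⟩ := exists_YX h hy
  obtain ⟨y', hy'⟩ : ∃ y', y' = y * Y ^ 2 := ⟨_, rfl⟩
  have hy0 : y' ≠ 0 := by
    rw [hy']
    exact mul_ne_zero hy (pow_ne_zero 2 hY)
  have hsc : sc y' = c := by
    rw [hy', sc_mul hy (pow_ne_zero 2 hY), H54MT.sc_sq hY, add_zero, hyc]
  rw [← hy'] at ha hb
  have hrec := (hilb K).prod (al h y') (be h y') ha hb
  unfold BB at hrec
  have hreal : ∑ w : K →+* ℝ, si w (sc (al h y')) * si w (sc (be h y')) = 0 := by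
    refine Finset.sum_eq_zero fun s _ => ?_
    have h1 := hr s y' hy0 hsc ha hb
    rw [H38T1.si_sc s hb, H38T1.si_sc s ha]
    unfold sw
    by_cases h2 : s (al h y') < 0
    · have h3 : ¬ s (be h y') < 0 := fun h3 => h1 ⟨h2, h3⟩
      rw [if_neg h3, mul_zero]
    · rw [if_neg h2, zero_mul]
  rw [hreal, add_zero] at hrec
  have hsupp : (Function.support fun v => hsv v (al h y') (be h y')) ⊆ ↑T := by
    intro v hv'
    by_contra h1
    exact hv' (hv v (fun h2 => h1 (Finset.mem_coe.2 h2)) y' hy0 hsc ha hb)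
  rw [finsum_eq_sum_of_support_subset _ hsupp] at hrec
  rw [← hrec]
  exact (Finset.sum_congr rfl fun v hvT => hT v hvT y' hy0 hsc ha hb).symm

/-- The sum of the Legendre classes of `Δ` at the primes of odd order of `δ` vanishes. -/
theorem sum_la {Δ δ : K} (hΔ : Δ ≠ 0) (hδ : δ ≠ 0) {Sg T : Finset (HeightOneSpectrum (𝓞 K))}
    (hodd : ∀ v : HeightOneSpectrum (𝓞 K), v ∉ Sg → OddP v)
    (hu : ∀ v : HeightOneSpectrum (𝓞 K), v ∉ Sg → v.valuation K Δ = 1)
    (hsq : ∀ u ∈ Sg, IsSquare (algebraMap K (u.adicCompletion K) δ))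
    (hpos : ∀ s : K →+* ℝ, 0 < s δ)
    (hT : ∀ v, v ∈ T ↔ v ∉ Sg ∧ Odd (ord (v.valuation K) δ)) :
    ∑ v ∈ T, la v (sc Δ) = 0 := by
  have hrec := (hilb K).prod Δ δ hΔ hδ
  unfold BB at hrec
  have hreal : ∑ w : K →+* ℝ, si w (sc Δ) * si w (sc δ) = 0 := by
    refine Finset.sum_eq_zero fun s _ => ?_
    rw [H38T1.si_sc s hδ]
    unfold sw
    rw [if_neg (not_lt.2 (hpos s).le), mul_zero]
  rw [hreal, add_zero] at hrec
  have hval : ∀ v, v ∉ Sg → hsv v Δ δ = eo v (sc δ) * la v (sc Δ) := by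
    intro v hv
    rw [(hilb K).odd v (hodd v hv) _ _ hΔ hδ, Cl_tp (Cl_eo_one (hu v hv))]
  have hsupp : (Function.support fun v => hsv v Δ δ) ⊆ ↑T := by
    intro v hv'
    by_contra h1
    apply hv'
    rw [Finset.mem_coe, hT, not_and] at h1
    by_cases hv : v ∈ Sg
    · change H36MX.hs _ _ = 0
      rw [hs_comm]
      exact hs_of_sq ((map_ne_zero _).2 hδ) (hsq v hv)
    · change hsv v Δ δ = 0
      have h2 := h1 hv
      rw [Int.not_odd_iff_even] at h2
      obtain ⟨m, hm⟩ := h2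
      rw [hval v hv, H38T1.eo_sc hδ, hm]
      push_cast
      have h3 : ∀ t : ZMod 2, t + t = 0 := by decide
      rw [h3, zero_mul]
  rw [finsum_eq_sum_of_support_subset _ hsupp] at hrec
  rw [← hrec]
  refine Finset.sum_congr rfl fun v hvT => ?_
  obtain ⟨hv, hv1⟩ := (hT v).1 hvT
  obtain ⟨m, hm⟩ := hv1
  rw [hval v hv, H38T1.eo_sc hδ, hm]
  push_cast
  have h3 : (2 : ZMod 2) = 0 := by decide
  rw [h3, zero_mul, zero_add, one_mul]

end H30OR
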