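import Pool.Agent.H30.OR.Tk
import Pool.Agent.H88.OD.Fe

/-!
# MP_78d38b_OD: the parity of the Selmer rank, general form, and the twists which are squares at the bad places
-/

set_option autoImplicit false
set_option linter.unusedSectionVars false
open scoped Classical

open WithZero NumberField IsDedekindDomain H38RT
open H38T1 (SC sc scu rep rep_ne sc_rep sc_mul sc_eq_zero sc_surj eo la si Pri OddP tp unif ka)
open H76PP H36MX H76MQ H76MX H30ZO H76OD H88OD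

namespace H30OR

variable {K L : Type} [Field K] [NumberField K] [Field L] [NumberField L] [Algebra K L]
  {a b : K} {θ : L}

/-- **The parity of the Selmer rank, general form.** -/
theorem parity_gen (S : Ext K K L a b θ) {D E : K} (hD : D ≠ 0) (hE : E ≠ 0)
    {Sg T : Finset (HeightOneSpectrum (𝓞 K))} {Q : Finset (K →+* ℝ)} (hdj : Disjoint Sg T)
    (h2 : ∀ v : HeightOneSpectrum (𝓞 K), v ∉ Sg → v.valuation K 2 = 1)
    (hgd : ∀ v : HeightOneSpectrum (𝓞 K), v ∉ Sg → v ∉ T →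
      v.valuation K (4 * a ^ 3 + 27 * b ^ 2) = 1 ∧ Even (ord (v.valuation K) D) ∧
        Even (ord (v.valuation K) E))
    (hbad : ∀ v ∈ Sg, ∀ c ∈ HH K L, (S.Lv D v c ↔ S.Lv E v c))
    (hreal : ∀ s, s ∉ Q → ∀ c ∈ HH K L, (S.Lr D s c ↔ S.Lr E s c))
    (hQ : ∀ s ∈ Q, 0 < s (-(4 * a ^ 3 + 27 * b ^ 2)) ∧ s D * s E < 0)
    {m : HeightOneSpectrum (𝓞 K) → ℕ} (hnb : ∀ v ∈ T, nb K L v = m v + 1)
    (hloc : ∀ v ∈ T, ∃ r u : Fin (m v) → (SC L →+ ZMod 2),
      LocD (show Cub K L a b θ from S.cub) v D E r u) :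
    ∃ p n, Nat.card {c : SC L // S.V D c} = 2 ^ p ∧ Nat.card {c : SC L // S.V E c} = 2 ^ n ∧
      Even (p + n + (∑ v ∈ T, m v + Q.card)) := by
  obtain ⟨A, rfl⟩ := Lt_int S.ha
  obtain ⟨B, rfl⟩ := Lt_int S.hb
  exact Tk_main S hD hE hdj h2 hgd hbad hreal hQ hnb hloc

/-- The sum of the Legendre classes of `Δ` at the primes of odd order of `δ`. -/
theorem sum_laQ {Δ δ : K} (hΔ : Δ ≠ 0) (hδ : δ ≠ 0) {Sg T : Finset (HeightOneSpectrum (𝓞 K))}
    (hodd : ∀ v : HeightOneSpectrum (𝓞 K), v ∉ Sg → OddP v)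
    (hu : ∀ v : HeightOneSpectrum (𝓞 K), v ∉ Sg → v.valuation K Δ = 1)
    (hsq : ∀ u ∈ Sg, IsSquare (algebraMap K (u.adicCompletion K) δ))
    (hT : ∀ v, v ∈ T ↔ v ∉ Sg ∧ Odd (ord (v.valuation K) δ)) :
    ∑ v ∈ T, la v (sc Δ) = ((Finset.univ.filter fun s : K →+* ℝ => s Δ < 0 ∧ s δ < 0).card : ZMod 2) := by
  have hrec := (hilb K).prod Δ δ hΔ hδ
  unfold BB at hrec
  have hreal : ∑ w : K →+* ℝ, si w (sc Δ) * si w (sc δ) =
      ((Finset.univ.filter fun s : K →+* ℝ => s Δ < 0 ∧ s δ < 0).card : ZMod 2) := by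
    rw [← Finset.sum_boole]
    refine Finset.sum_congr rfl fun s _ => ?_
    rw [H38T1.si_sc s hδ, H38T1.si_sc s hΔ]
    unfold sw
    by_cases h1 : s Δ < 0
    · by_cases h2 : s δ < 0
      · rw [if_pos h1, if_pos h2, if_pos ⟨h1, h2⟩, one_mul]
      · rw [if_neg h2, mul_zero, if_neg fun h => h2 h.2]
    · rw [if_neg h1, zero_mul, if_neg fun h => h1 h.1]
  have hval : ∀ v, v ∉ Sg → hsv v Δ δ = eo v (sc δ) * la v (sc Δ) := by
    intro v hv
    rw [(hilb K).odd v (hodd v hv) _ _ hΔ hδ, Cl_tp (Cl_eo_one (hu v hv))]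
  have hsupp : (Function.support fun v => hsv v Δ δ) ⊆ ↑T := by
    intro v hv'
    by_contra h1
    apply hv'
    rw [Finset.mem_coe, hT, not_and] at h1
    by_cases hv : v ∈ Sg
    · change H36MX.hs _ _ = 0
      rw [hs_comm]
      exact hs_of_sq ((map_ne_zero _).2 hδ) (hsq v hv)
    · change hsv v Δ δ = 0
      have h2 := h1 hv
      rw [Int.not_odd_iff_even] at h2
      obtain ⟨m, hm⟩ := h2
      rw [hval v hv, H38T1.eo_sc hδ, hm]
      push_cast
      have h3 : ∀ t : ZMod 2, t + t = 0 := by decide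
      rw [h3, zero_mul]
  rw [hreal, finsum_eq_sum_of_support_subset _ hsupp] at hrec
  have hneg : ∀ x y : ZMod 2, x + y = 0 → x = y := by decide
  refine hneg _ _ ?_
  rw [← hrec]
  congr 1
  refine Finset.sum_congr rfl fun v hvT => ?_
  obtain ⟨hv, hv1⟩ := (hT v).1 hvT
  obtain ⟨m, hm⟩ := hv1
  rw [hval v hv, H38T1.eo_sc hδ, hm]
  push_cast
  have h3 : (2 : ZMod 2) = 0 := by decide
  rw [h3, zero_mul, zero_add, one_mul]

/-- **The parity for twists which are squares at the bad places.** -/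
theorem parity_sgn (S : Ext K K L a b θ) {D0 D : K} {Sg : Finset (HeightOneSpectrum (𝓞 K))}
    (hok : S.Ok D0 Sg) (h3 : ∀ v : HeightOneSpectrum (𝓞 K), v ∉ Sg → v.valuation K 3 = 1)
    (hD : D ≠ 0) (hsq : ∀ v ∈ Sg, IsSquare (algebraMap K (v.adicCompletion K) (D / D0))) :
    ∃ p n, Nat.card {c : SC L // S.V D0 c} = 2 ^ p ∧ Nat.card {c : SC L // S.V D c} = 2 ^ n ∧
      Even (p + n + Nat.card {s : K →+* ℝ // s (D / D0) < 0}) := by
  obtain ⟨A, rfl⟩ := Lt_int S.ha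
  obtain ⟨B, rfl⟩ := Lt_int S.hb
  have h : Cub K L (A : K) (B : K) θ := S.cub
  have hD0 := hok.ne
  obtain ⟨δ, hδ⟩ : ∃ δ, δ = D / D0 := ⟨_, rfl⟩
  have hDδ : D = D0 * δ := by
    rw [hδ]
    field_simp
  have hδ0 : δ ≠ 0 := by
    rw [hδ]
    exact div_ne_zero hD hD0
  rw [← hδ] at hsq ⊢
  have hodd : ∀ v : HeightOneSpectrum (𝓞 K), v ∉ Sg → OddP v := hok.two
  obtain ⟨Δ, hΔ⟩ : ∃ Δ : K, Δ = -(4 * (A : K) ^ 3 + 27 * (B : K) ^ 2) := ⟨_, rfl⟩
  have hΔ0 : Δ ≠ 0 := by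
    rw [hΔ]
    exact neg_ne_zero.2 S.dne
  have hΔv : ∀ v : HeightOneSpectrum (𝓞 K), v ∉ Sg → v.valuation K Δ = 1 := by
    intro v hv
    rw [hΔ, Valuation.map_neg]
    exact hok.dis v hv
  have hord0 : ∀ v : HeightOneSpectrum (𝓞 K), v ∉ Sg → ord (v.valuation K) D0 = 0 := by
    intro v hv
    unfold ord
    rw [hok.val v hv, log_one, neg_zero]
  have hordD : ∀ v : HeightOneSpectrum (𝓞 K), v ∉ Sg →
      ord (v.valuation K) D = ord (v.valuation K) δ := by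
    intro v hv
    rw [hDδ, ord_mul hD0 hδ0, hord0 v hv, zero_add]
  -- the primes of odd order of `δ`
  obtain ⟨Td, hTd⟩ : ∃ T : Finset (HeightOneSpectrum (𝓞 K)), ∀ v, v ∈ T ↔
      v ∉ Sg ∧ Odd (ord (v.valuation K) δ) := by
    have hfin : {v : HeightOneSpectrum (𝓞 K) | v ∉ Sg ∧ Odd (ord (v.valuation K) δ)}.Finite := by
      refine (H88OD.fin_supp (sc δ)).subset ?_
      rintro v ⟨-, m, hm⟩
      change eo v (sc δ) ≠ 0
      rw [H38T1.eo_sc hδ0, hm]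
      push_cast
      have h4 : (2 : ZMod 2) = 0 := by decide
      rw [h4, zero_mul, zero_add]
      exact one_ne_zero
    exact ⟨hfin.toFinset, fun v => by rw [Set.Finite.mem_toFinset]; rfl⟩
  have hex : ∀ v : {v // v ∈ Td}, ∃ (m : ℕ) (r u : Fin m → (SC L →+ ZMod 2)),
      nb K L v.1 = m + 1 ∧ LocD h v.1 D0 D r u ∧ (m : ZMod 2) = la v.1 (sc Δ) := by
    intro v
    obtain ⟨hv, hv1⟩ := (hTd v.1).1 v.2
    rw [hΔ]
    refine loc_all h (hodd _ hv) (h3 _ hv) (hok.dis _ hv) hD0 ?_ hD ?_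
    · rw [hord0 _ hv]
      exact Even.zero
    · rw [hordD _ hv]
      exact hv1
  choose m r u hnb hloc hla using hex
  obtain ⟨m0, hm0⟩ : ∃ m0 : HeightOneSpectrum (𝓞 K) → ℕ, ∀ v : {v // v ∈ Td}, m0 v.1 = m v :=
    ⟨fun v => if hv : v ∈ Td then m ⟨v, hv⟩ else 0, fun v => dif_pos v.2⟩
  obtain ⟨Q, hQ⟩ : ∃ Q : Finset (K →+* ℝ), ∀ s, s ∈ Q ↔ 0 < s Δ ∧ s D0 * s D < 0 :=
    ⟨Finset.univ.filter fun s => 0 < s Δ ∧ s D0 * s D < 0, fun s => by simp⟩
  have hsg : ∀ s : K →+* ℝ, (s D0 * s D < 0 ↔ s δ < 0) := by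
    intro s
    have h4 : s D0 * s D = s D0 ^ 2 * s δ := by
      rw [hDδ, map_mul]
      ring
    have h5 : 0 < s D0 ^ 2 := by
      have h6 := (map_ne_zero s).2 hD0
      positivity
    rw [h4]
    constructor
    · intro h6
      by_contra h7
      exact absurd (mul_nonneg h5.le (not_lt.1 h7)) (not_le.2 h6)
    · exact fun h6 => mul_neg_of_pos_of_neg h5 h6
  obtain ⟨p, n, hp, hn, hev⟩ := parity_gen S (D := D0) (E := D) (Sg := Sg) (T := Td) (Q := Q) hD0 hD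
    (by
      rw [Finset.disjoint_left]
      exact fun v h4 h5 => ((hTd v).1 h5).1 h4)
    hok.two
    (by
      intro v hv hvT
      refine ⟨hok.dis v hv, ?_, ?_⟩
      · rw [hord0 v hv]
        exact Even.zero
      · rw [hordD v hv, ← Int.not_odd_iff_even]
        exact fun h4 => hvT ((hTd v).2 ⟨hv, h4⟩))
    (by
      intro v hv c _
      exact Wc_tw_iff _ hD0 hD (by
        have h4 := hsq v hv
        rw [hδ] at h4
        exact h4))
    (by
      intro s hs c hc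
      rcases lt_trichotomy (s Δ) 0 with h4 | h4 | h4
      · rw [hΔ] at h4
        exact iff_of_true (Lr_one S h4 hD0 hc) (Lr_one S h4 hD hc)
      · exact absurd h4 ((map_ne_zero s).2 hΔ0)
      · refine Wc_tw_real _ hD0 hD ?_
        have h5 : ¬ s δ < 0 := fun h6 => hs ((hQ s).2 ⟨h4, (hsg s).2 h6⟩)
        have h6 : D / D0 = δ := hδ.symm
        change 0 < s (D / D0)
        rw [h6]
        exact lt_of_le_of_ne (not_lt.1 h5) ((map_ne_zero s).2 hδ0).symm)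
    (by
      intro s hs
      obtain ⟨h4, h5⟩ := (hQ s).1 hs
      rw [hΔ] at h4
      exact ⟨h4, h5⟩) (m := m0)
    (by
      intro v hv
      rw [hm0 ⟨v, hv⟩]
      exact hnb ⟨v, hv⟩)
    (by
      intro v hv
      rw [hm0 ⟨v, hv⟩]
      exact ⟨_, _, hloc ⟨v, hv⟩⟩)
  refine ⟨p, n, hp, hn, ?_⟩
  have h4 := sum_laQ hΔ0 hδ0 hodd hΔv hsq hTd
  have h5 : ((∑ v ∈ Td, m0 v : ℕ) : ZMod 2) = ∑ v ∈ Td, la v (sc Δ) := by
    push_cast
    refine Finset.sum_congr rfl fun v hv => ?_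
    rw [hm0 ⟨v, hv⟩]
    exact hla ⟨v, hv⟩
  have h6 : Nat.card {s : K →+* ℝ // s δ < 0} =
      (Finset.univ.filter fun s : K →+* ℝ => s Δ < 0 ∧ s δ < 0).card + Q.card := by
    rw [Nat.card_eq_fintype_card, Fintype.card_subtype]
    have hQe : Q = Finset.univ.filter fun s : K →+* ℝ => 0 < s Δ ∧ s δ < 0 := by
      ext s
      rw [hQ, hsg, Finset.mem_filter]
      simp
    rw [hQe, ← Finset.card_union_of_disjoint]
    · congr 1
      ext s
      simp only [Finset.mem_filter, Finset.mem_univ, true_and, Finset.mem_union]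
      constructor
      · intro h6
        rcases lt_trichotomy (s Δ) 0 with h7 | h7 | h7
        · exact Or.inl ⟨h7, h6⟩
        · exact absurd h7 ((map_ne_zero s).2 hΔ0)
        · exact Or.inr ⟨h7, h6⟩
      · rintro (⟨-, h6⟩ | ⟨-, h6⟩) <;> exact h6
    · rw [Finset.disjoint_left]
      intro s h6 h7
      simp only [Finset.mem_filter, Finset.mem_univ, true_and] at h6 h7
      exact lt_asymm h6.1 h7.1
  have h7 : ((p + n + Nat.card {s : K →+* ℝ // s δ < 0} : ℕ) : ZMod 2) = 0 := by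
    have h8 : ((p + n + (∑ v ∈ Td, m0 v + Q.card) : ℕ) : ZMod 2) = 0 := by
      rw [ZMod.natCast_eq_zero_iff]
      exact even_iff_two_dvd.1 hev
    rw [h6, ← h8]
    have h9 : ((Finset.univ.filter fun s : K →+* ℝ => s Δ < 0 ∧ s δ < 0).card : ZMod 2) =
        ((∑ v ∈ Td, m0 v : ℕ) : ZMod 2) := by
      rw [h5, h4]
    simp only [Nat.cast_add]
    rw [h9]
  rw [ZMod.natCast_eq_zero_iff] at h7
  exact even_iff_two_dvd.2 h7

/-- **(P')** -/
theorem par_sgn (S : Ext K K L a b θ) {D0 D : K} {Sg : Finset (HeightOneSpectrum (𝓞 K))}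
    (hok : S.Ok D0 Sg) (h3 : ∀ v : HeightOneSpectrum (𝓞 K), v ∉ Sg → v.valuation K 3 = 1)
    (hD : D ≠ 0) (hsq : ∀ v ∈ Sg, IsSquare (algebraMap K (v.adicCompletion K) (D / D0))) :
    ((∃ k : ℕ, selCard K (D0 ^ 2 * a) (D0 ^ 3 * b) = 4 ^ k) ↔
      (∃ k : ℕ, selCard K (D ^ 2 * a) (D ^ 3 * b) = 4 ^ k)) ↔
      Even (Nat.card {s : K →+* ℝ // s (D / D0) < 0}) := by
  obtain ⟨p, n, hp, hn, hev⟩ := parity_sgn S hok h3 hD hsq
  rw [card_V S hok.ne] at hp
  rw [card_V S hD] at hn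
  have key : ∀ (x p : ℕ), x = 2 ^ p → ((∃ k : ℕ, x = 4 ^ k) ↔ Even p) := by
    rintro x p rfl
    constructor
    · rintro ⟨k, hk⟩
      have h4 : (4 : ℕ) = 2 ^ 2 := by norm_num
      rw [h4, ← pow_mul] at hk
      have h5 := Nat.pow_right_injective le_rfl hk
      exact ⟨k, by omega⟩
    · rintro ⟨k, hk⟩
      refine ⟨k, ?_⟩
      have h4 : (4 : ℕ) = 2 ^ 2 := by norm_num
      rw [h4, ← pow_mul, hk]
      congr 1
      ring
  rw [key _ _ hp, key _ _ hn]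
  rw [Nat.even_add] at hev
  rw [Nat.even_add] at hev
  exact hev

end H30OR
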