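import Pool.Agent.H30.OR.Tf
import Pool.Agent.H76.PP.Tg

/-!
# MP_78d38b: at a place with three roots the conditions of an unramified and of a ramified twist are independent
-/

set_option autoImplicit false
set_option linter.unusedSectionVars false
open scoped Classical

open WithZero NumberField IsDedekindDomain H38RT
open H38T1 (SC sc scu rep rep_ne sc_rep sc_mul sc_eq_zero sc_surj eo la si Pri OddP tp unif ka)
open H76PP H36MX H76MQ H30ZO

namespace H30OR

variable {k L : Type} [Field k] [NumberField k] [Field L] [NumberField L] [Algebra k L]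
  {A B : k} {θ : L}

/-- A class with three trivial local components is trivial at the places above `w`. -/
theorem la_of_lc3 (h : Cub k L A B θ) {w : HeightOneSpectrum (𝓞 k)} (hv : OddP w)
    (ha : w.valuation k A ≤ 1) (hb : w.valuation k B ≤ 1)
    (hd : w.valuation k (4 * A ^ 3 + 27 * B ^ 2) = 1) {e : Fin 3 → w.adicCompletion k}
    (hs : R3 (algebraMap k (w.adicCompletion k) A) (algebraMap k (w.adicCompletion k) B) e)
    {c : SC L} (hc : ∀ j, lc3 h _ hs j c = 0) {t : HeightOneSpectrum (𝓞 L)} (ht : dn k t = w) :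
    la t c = 0 := by
  have _ := H36CY.char_zero w
  have hcoe : ∀ x : k, Valued.v (algebraMap k (w.adicCompletion k) x) = w.valuation k x :=
    fun x => H36CY.val_coe w x
  obtain ⟨h1, d01, d02, d12⟩ := diff_one hs (by rw [hcoe]; exact ha) (by rw [hcoe]; exact hb) (by
    have e1 : 4 * algebraMap k (w.adicCompletion k) A ^ 3 +
        27 * algebraMap k (w.adicCompletion k) B ^ 2 =
        algebraMap k (w.adicCompletion k) (4 * A ^ 3 + 27 * B ^ 2) := by
      rw [map_add, map_mul, map_mul, map_pow, map_pow, map_ofNat, map_ofNat]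
    rw [e1, hcoe]
    exact hd)
  obtain ⟨y, hy, rfl⟩ := sc_surj c
  have hrh0 : ∀ j, rh h (algebraMap k (w.adicCompletion k)) (hs.root j) y ≠ 0 := fun j =>
    (map_ne_zero _).2 hy
  have hsq : ∀ j, ∃ s : w.adicCompletion k, s ≠ 0 ∧
      rh h (algebraMap k (w.adicCompletion k)) (hs.root j) y = s ^ 2 := by
    intro j
    have h2 := hc j
    rw [lc3_sc h _ hs j hy, sc_eq_zero (hrh0 j)] at h2
    obtain ⟨s, hs'⟩ := h2
    refine ⟨s, ?_, by rw [hs', sq]⟩
    rintro rfl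
    exact hrh0 j (by rw [hs', mul_zero])
  choose s hs0 hs2 using hsq
  have n01 : e 0 - e 1 ≠ 0 := sub_ne_zero.2 hs.ne01
  have n02 : e 0 - e 2 ≠ 0 := sub_ne_zero.2 hs.ne02
  have n12 : e 1 - e 2 ≠ 0 := sub_ne_zero.2 hs.ne12
  obtain ⟨δ, hδ⟩ : ∃ δ : w.adicCompletion k, (e 0 - e 1) * (e 0 - e 2) * (e 1 - e 2) * δ = 1 :=
    ⟨_, mul_inv_cancel₀ (mul_ne_zero (mul_ne_zero n01 n02) n12)⟩
  obtain ⟨y0, y1, y2, w0, w1, w2⟩ := Ta_lag hs.s1 hδ (s 0) (s 1) (s 2)
  have hY : ∀ j, y0 + y1 * e j + y2 * e j ^ 2 = s j := by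
    intro j
    fin_cases j
    · exact w0
    · exact w1
    · exact w2
  obtain ⟨m, hm0, hm⟩ : ∃ m : w.adicCompletion k, m ≠ 0 ∧ ∀ j, Valued.v m ≤ Valued.v (s j) := by
    have h2 : ∃ j, ∀ i, Valued.v (s j) ≤ Valued.v (s i) := by
      obtain ⟨j, -, hj⟩ := Finset.exists_min_image Finset.univ (fun j => Valued.v (s j))
        ⟨(0 : Fin 3), Finset.mem_univ _⟩
      exact ⟨j, fun i => hj i (Finset.mem_univ _)⟩
    obtain ⟨j, hj⟩ := h2
    exact ⟨s j, hs0 j, hj⟩
  obtain ⟨t0, u0⟩ := H36CY.near_coe w y0 hm0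
  obtain ⟨t1, u1⟩ := H36CY.near_coe w y1 hm0
  obtain ⟨t2, u2⟩ := H36CY.near_coe w y2 hm0
  obtain ⟨z, hz⟩ : ∃ z : L, z = algebraMap k L t0 + algebraMap k L t1 * θ +
    algebraMap k L t2 * θ ^ 2 := ⟨_, rfl⟩
  obtain ⟨o0, o1, o2⟩ := h.co_mk' t0 t1 t2
  rw [← hz] at o0 o1 o2
  have hrz : ∀ j, Valued.v (rh h (algebraMap k (w.adicCompletion k)) (hs.root j) z - s j) <
      Valued.v (s j) := by
    intro j
    rw [rh_apply, o0, o1, o2, ← hY j]
    refine lt_of_lt_of_le ?_ (le_of_le_of_eq (hm j) (by rw [hY j]))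
    have e1 : algebraMap k (w.adicCompletion k) t0 + algebraMap k (w.adicCompletion k) t1 * e j +
          algebraMap k (w.adicCompletion k) t2 * e j ^ 2 - (y0 + y1 * e j + y2 * e j ^ 2) =
        (algebraMap k (w.adicCompletion k) t0 - y0) +
          (algebraMap k (w.adicCompletion k) t1 - y1) * e j +
          (algebraMap k (w.adicCompletion k) t2 - y2) * e j ^ 2 := by ring
    rw [e1]
    refine Valuation.map_add_lt _ (Valuation.map_add_lt _ u0 ?_) ?_
    · rw [map_mul]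
      exact mul_lt_of_lt_of_le_one u1 (h1 j)
    · rw [map_mul, map_pow]
      exact mul_lt_of_lt_of_le_one u2 (pow_le_one₀ zero_le (h1 j))
  have hz0 : z ≠ 0 := by
    rintro rfl
    have h2 := hrz 0
    rw [map_zero, zero_sub, Valuation.map_neg] at h2
    exact lt_irrefl _ h2
  -- the quotient
  obtain ⟨x, hx⟩ : ∃ x : L, x = y / z ^ 2 := ⟨_, rfl⟩
  have hx0 : x ≠ 0 := by
    rw [hx]
    exact div_ne_zero hy (pow_ne_zero 2 hz0)
  have hyx : y = x * z ^ 2 := by
    rw [hx]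
    field_simp
  have hsc : (sc y : SC L) = sc x := by
    rw [hyx, sc_mul hx0 (pow_ne_zero 2 hz0), (sc_eq_zero (pow_ne_zero 2 hz0)).2 ⟨z, sq z⟩, add_zero]
  have hr : ∀ j, Valued.v (rh h (algebraMap k (w.adicCompletion k)) (hs.root j) (x - 1)) < 1 := by
    intro j
    obtain ⟨ρ, hρ⟩ : ∃ ρ, ρ = rh h (algebraMap k (w.adicCompletion k)) (hs.root j) z := ⟨_, rfl⟩
    have h2 := hrz j
    rw [← hρ] at h2
    have hρ0 : ρ ≠ 0 := by
      rw [hρ]
      exact (map_ne_zero _).2 hz0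
    have hvρ : Valued.v ρ = Valued.v (s j) := by
      have e1 : ρ = (ρ - s j) + s j := by ring
      rw [e1, Valuation.map_add_eq_of_lt_right _ h2]
    have e2 : rh h (algebraMap k (w.adicCompletion k)) (hs.root j) (x - 1) =
        -((ρ - s j) * (ρ + s j)) / ρ ^ 2 := by
      have e3 : rh h (algebraMap k (w.adicCompletion k)) (hs.root j) x * ρ ^ 2 = s j ^ 2 := by
        rw [hρ, ← map_pow, ← map_mul, ← hyx, hs2]
      rw [map_sub, map_one, eq_div_iff (pow_ne_zero 2 hρ0)]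
      linear_combination e3
    rw [e2, map_div₀, Valuation.map_neg, map_mul, map_pow]
    have h3 : Valued.v (ρ + s j) ≤ Valued.v ρ := Valuation.map_add_le _ le_rfl hvρ.symm.le
    have h4 : Valued.v ρ ≠ 0 := (Valuation.ne_zero_iff _).2 hρ0
    rw [← hvρ] at h2
    rw [div_lt_one₀ (pow_pos (zero_lt_iff.2 h4) 2), sq, mul_comm]
    calc Valued.v (ρ + s j) * Valued.v (ρ - s j) ≤ Valued.v ρ * Valued.v (ρ - s j) :=
          mul_le_mul' h3 le_rfl
      _ < Valued.v ρ * Valued.v ρ := (mul_lt_mul_iff_right₀ (zero_lt_iff.2 h4)).2 h2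
  -- the coordinates
  obtain ⟨c0, hc0⟩ : ∃ c0, c0 = algebraMap k (w.adicCompletion k) (h.co 0 (x - 1)) := ⟨_, rfl⟩
  obtain ⟨c1, hc1⟩ : ∃ c1, c1 = algebraMap k (w.adicCompletion k) (h.co 1 (x - 1)) := ⟨_, rfl⟩
  obtain ⟨c2, hc2⟩ : ∃ c2, c2 = algebraMap k (w.adicCompletion k) (h.co 2 (x - 1)) := ⟨_, rfl⟩
  have hr' : ∀ j, Valued.v (c0 + c1 * e j + c2 * e j ^ 2) < 1 := by
    intro j
    have h2 := hr j
    rw [rh_apply, ← hc0, ← hc1, ← hc2] at h2
    exact h2
  have g1 : Valued.v (c1 + c2 * (e 0 + e 1)) < 1 := by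
    have e1 : (c1 + c2 * (e 0 + e 1)) * (e 0 - e 1) =
        (c0 + c1 * e 0 + c2 * e 0 ^ 2) - (c0 + c1 * e 1 + c2 * e 1 ^ 2) := by ring
    have h2 := congrArg Valued.v e1
    rw [map_mul, d01, mul_one] at h2
    rw [h2]
    exact Valuation.map_sub_lt _ (hr' 0) (hr' 1)
  have g2 : Valued.v (c1 + c2 * (e 0 + e 2)) < 1 := by
    have e1 : (c1 + c2 * (e 0 + e 2)) * (e 0 - e 2) =
        (c0 + c1 * e 0 + c2 * e 0 ^ 2) - (c0 + c1 * e 2 + c2 * e 2 ^ 2) := by ring
    have h2 := congrArg Valued.v e1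
    rw [map_mul, d02, mul_one] at h2
    rw [h2]
    exact Valuation.map_sub_lt _ (hr' 0) (hr' 2)
  have g3 : Valued.v c2 < 1 := by
    have e1 : c2 * (e 1 - e 2) = (c1 + c2 * (e 0 + e 1)) - (c1 + c2 * (e 0 + e 2)) := by ring
    have h2 := congrArg Valued.v e1
    rw [map_mul, d12, mul_one] at h2
    rw [h2]
    exact Valuation.map_sub_lt _ g1 g2
  have g4 : Valued.v c1 < 1 := by
    have e1 : c1 = (c1 + c2 * (e 0 + e 1)) - c2 * (e 0 + e 1) := by ring
    rw [e1]
    refine Valuation.map_sub_lt _ g1 ?_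
    rw [map_mul]
    exact mul_lt_of_lt_of_le_one g3 (Valuation.map_add_le _ (h1 0) (h1 1))
  have g5 : Valued.v c0 < 1 := by
    have e1 : c0 = (c0 + c1 * e 0 + c2 * e 0 ^ 2) - (c1 * e 0 + c2 * e 0 ^ 2) := by ring
    rw [e1]
    refine Valuation.map_sub_lt _ (hr' 0) (Valuation.map_add_lt _ ?_ ?_)
    · rw [map_mul]
      exact mul_lt_of_lt_of_le_one g4 (h1 0)
    · rw [map_mul, map_pow]
      exact mul_lt_of_lt_of_le_one g3 (pow_le_one₀ zero_le (h1 0))
  have hθ : t.valuation L θ ≤ 1 := by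
    by_contra hlt
    rw [not_le] at hlt
    have h0 : 0 < t.valuation L θ := lt_trans zero_lt_one hlt
    have e1 : θ ^ 3 = -(algebraMap k L A * θ + algebraMap k L B) := by
      linear_combination h.root
    have e2 : t.valuation L θ ^ 3 ≤ t.valuation L θ := by
      rw [← map_pow, e1, Valuation.map_neg]
      refine Valuation.map_add_le _ ?_ ((val_le (by rw [ht]; exact hb)).trans hlt.le)
      rw [map_mul]
      exact mul_le_of_le_one_left' (val_le (by rw [ht]; exact ha))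
    have e3 : t.valuation L θ < t.valuation L θ ^ 3 := by
      calc t.valuation L θ = t.valuation L θ ^ 1 := (pow_one _).symm
        _ < t.valuation L θ ^ 3 := pow_lt_pow_right₀ hlt (by norm_num)
    exact absurd e2 (not_le.2 e3)
  have hcl : ∀ {y : k}, Valued.v (algebraMap k (w.adicCompletion k) y) < 1 →
      t.valuation L (algebraMap k L y) < 1 := by
    intro y hy
    rw [hcoe, ← ht] at hy
    exact val_lt hy
  rw [hc0] at g5
  rw [hc1] at g4
  rw [hc2] at g3
  rw [hsc]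
  refine Tg_la (oddP_dn.2 (by rw [ht]; exact hv)) ?_
  rw [h.eq_co (x - 1)]
  refine Valuation.map_add_lt _ (Valuation.map_add_lt _ (hcl g5) ?_) ?_
  · rw [map_mul]
    exact mul_lt_of_lt_of_le_one (hcl g4) hθ
  · rw [map_mul, map_pow]
    exact mul_lt_of_lt_of_le_one (hcl g3) (pow_le_one₀ zero_le hθ)

/-- **Independence of the conditions of an unramified and a ramified twist.** -/
theorem inj3 (h : Cub k L A B θ) {w : HeightOneSpectrum (𝓞 k)} (hv : OddP w)
    (ha : w.valuation k A ≤ 1) (hb : w.valuation k B ≤ 1)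
    (hd : w.valuation k (4 * A ^ 3 + 27 * B ^ 2) = 1) {e : Fin 3 → w.adicCompletion k}
    (hs : R3 (algebraMap k (w.adicCompletion k) A) (algebraMap k (w.adicCompletion k) B) e)
    {D E : k} (hD : D ≠ 0) (hDe : Even (ord (w.valuation k) D)) (hE : E ≠ 0)
    (hEo : Odd (ord (w.valuation k) E)) {c : SC L} (hc : c ∈ HH k L)
    (h1 : Wc (algebraMap k (w.adicCompletion k)) (D ^ 2 * A) (D ^ 3 * B) (algebraMap k L D * θ) c)
    (h2 : Wc (algebraMap k (w.adicCompletion k)) (E ^ 2 * A) (E ^ 3 * B) (algebraMap k L E * θ) c)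
    {t : HeightOneSpectrum (𝓞 L)} (ht : dn k t = w) : la t c = 0 := by
  refine la_of_lc3 h hv ha hb hd hs ?_ ht
  have hcoe : ∀ x : k, Valued.v (algebraMap k (w.adicCompletion k) x) = w.valuation k x :=
    fun x => H36CY.val_coe w x
  obtain ⟨he1, d01, d02, d12⟩ := diff_one hs (by rw [hcoe]; exact ha) (by rw [hcoe]; exact hb) (by
    have e1 : 4 * algebraMap k (w.adicCompletion k) A ^ 3 +
        27 * algebraMap k (w.adicCompletion k) B ^ 2 =
        algebraMap k (w.adicCompletion k) (4 * A ^ 3 + 27 * B ^ 2) := by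
      rw [map_add, map_mul, map_mul, map_pow, map_pow, map_ofNat, map_ofNat]
    rw [e1, hcoe]
    exact hd)
  have he2 : ∀ i j, i ≠ j → Valued.v (e i - e j) = 1 := by
    have hsw : ∀ i j, Valued.v (e i - e j) = 1 → Valued.v (e j - e i) = 1 := fun i j hij => by
      rw [Valuation.map_sub_swap]
      exact hij
    intro i j hij
    fin_cases i <;> fin_cases j
    · exact absurd rfl hij
    · exact d01
    · exact d02
    · exact hsw _ _ d01
    · exact absurd rfl hij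
    · exact d12
    · exact hsw _ _ d02
    · exact hsw _ _ d12
    · exact absurd rfl hij
  have hord : ∀ x : k, x ≠ 0 → Valued.v (algebraMap k (w.adicCompletion k) x) =
      exp (-(ord (w.valuation k) x)) := by
    intro x hx
    rw [hcoe]
    unfold ord
    rw [neg_neg, exp_log ((Valuation.ne_zero_iff _).2 hx)]
  have hD' : algebraMap k (w.adicCompletion k) D ≠ 0 := (map_ne_zero _).2 hD
  have hE' : algebraMap k (w.adicCompletion k) E ≠ 0 := (map_ne_zero _).2 hE
  obtain ⟨D', hDe'⟩ : ∃ D', D' = algebraMap k (w.adicCompletion k) D := ⟨_, rfl⟩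
  obtain ⟨E', hEe'⟩ : ∃ E', E' = algebraMap k (w.adicCompletion k) E := ⟨_, rfl⟩
  have hDv : ∃ m : ℤ, Valued.v D' = exp (2 * m) := by
    obtain ⟨m, hm⟩ := hDe
    exact ⟨-m, by rw [hDe', hord D hD, hm]; congr 1; ring⟩
  have hEv : ∃ m : ℤ, Valued.v E' = exp (2 * m + 1) := by
    obtain ⟨m, hm⟩ := hEo
    exact ⟨-m - 1, by rw [hEe', hord E hE, hm]; congr 1; ring⟩
  -- the classes are even
  have hev : ∀ j, ∃ y : w.adicCompletion k, y ≠ 0 ∧ (∃ m : ℤ, Valued.v y = exp (2 * m)) ∧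
      lc3 h _ hs j c = sc y := by
    obtain ⟨x, hx, hsq, hcl⟩ := kum3 h _ hs hD h1
    rw [← hDe'] at hsq hcl hD'
    have hone : ∀ y : w.adicCompletion k, Valued.v y = 1 → D' * y ≠ 0 ∧
        ∃ m : ℤ, Valued.v (D' * y) = exp (2 * m) := by
      intro y hy
      obtain ⟨m, hm⟩ := hDv
      refine ⟨mul_ne_zero hD' ?_, m, by rw [map_mul, hy, mul_one, hm]⟩
      rintro rfl
      rw [map_zero] at hy
      exact zero_ne_one hy
    have hsum := lc3_sum h _ hs hc
    have hadd : ∀ {p q r : Fin 3}, lc3 h _ hs p c = lc3 h _ hs q c + lc3 h _ hs r c →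
        (∃ y : w.adicCompletion k, y ≠ 0 ∧ (∃ m : ℤ, Valued.v y = exp (2 * m)) ∧
          lc3 h _ hs q c = sc y) →
        (∃ y : w.adicCompletion k, y ≠ 0 ∧ (∃ m : ℤ, Valued.v y = exp (2 * m)) ∧
          lc3 h _ hs r c = sc y) →
        ∃ y : w.adicCompletion k, y ≠ 0 ∧ (∃ m : ℤ, Valued.v y = exp (2 * m)) ∧
          lc3 h _ hs p c = sc y := by
      rintro p q r hpqr ⟨y, y1, ⟨m, y2⟩, y3⟩ ⟨z, z1, ⟨l, z2⟩, z3⟩
      refine ⟨y * z, mul_ne_zero y1 z1, ⟨m + l, ?_⟩, ?_⟩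
      · rw [map_mul, y2, z2, ← exp_add]
        congr 1
        ring
      · rw [hpqr, y3, z3, sc_mul y1 z1]
    rcases cls3 hv he1 he2 hD' hx hsq with h3 | ⟨-, h3⟩ | ⟨j, h3⟩
    · intro j
      refine ⟨1, one_ne_zero, ⟨0, by rw [map_one, mul_zero, exp_zero]⟩, ?_⟩
      rw [hcl, h3, (sc_eq_zero one_ne_zero).2 ⟨1, by rw [mul_one]⟩]
    · intro j
      obtain ⟨y1, y2⟩ := hone _ (h3 j)
      exact ⟨_, y1, y2, hcl j⟩
    · have h4 : ∀ i, i ≠ j → ∃ y : w.adicCompletion k, y ≠ 0 ∧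
          (∃ m : ℤ, Valued.v y = exp (2 * m)) ∧ lc3 h _ hs i c = sc y := by
        intro i hi
        obtain ⟨y1, y2⟩ := hone _ (he2 j i (Ne.symm hi))
        exact ⟨_, y1, y2, by rw [hcl, h3 i hi]⟩
      have k1 : lc3 h _ hs 0 c = lc3 h _ hs 1 c + lc3 h _ hs 2 c := by
        rw [hsum, add_assoc, add_self_SC, add_zero]
      have k2 : lc3 h _ hs 2 c = lc3 h _ hs 0 c + lc3 h _ hs 1 c := by
        rw [hsum, ← add_assoc, add_self_SC, zero_add]
      intro i
      by_cases hi : i = j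
      · subst hi
        fin_cases i
        · exact hadd k1 (h4 1 (by decide)) (h4 2 (by decide))
        · exact hadd hsum (h4 0 (by decide)) (h4 2 (by decide))
        · exact hadd k2 (h4 0 (by decide)) (h4 1 (by decide))
      · exact h4 i hi
  obtain ⟨x, hx, hsq, hcl⟩ := kum3 h _ hs hE h2
  rw [← hEe'] at hsq hcl hE'
  rcases cls3 hv he1 he2 hE' hx hsq with h3 | ⟨⟨m, hm⟩, -⟩ | ⟨j, h3⟩
  · intro j
    rw [hcl, h3]
  · exfalso
    obtain ⟨l, hl⟩ := hEv
    rw [hm, exp_inj] at hl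
    omega
  · exfalso
    obtain ⟨i, hi⟩ : ∃ i : Fin 3, i ≠ j := by
      fin_cases j
      · exact ⟨1, by decide⟩
      · exact ⟨0, by decide⟩
      · exact ⟨0, by decide⟩
    obtain ⟨y, hy0, ⟨m, hm⟩, hy⟩ := hev i
    obtain ⟨l, hl⟩ := hEv
    have hji := he2 j i (Ne.symm hi)
    have hz0 : E' * (e j - e i) ≠ 0 := by
      refine mul_ne_zero hE' ?_
      intro h4
      rw [h4, map_zero] at hji
      exact zero_ne_one hji
    have h4 : (sc (y * (E' * (e j - e i))) : SC (w.adicCompletion k)) = 0 := by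
      rw [sc_mul hy0 hz0, ← hy, hcl, h3 i hi, add_self_SC]
    rw [sc_eq_zero (mul_ne_zero hy0 hz0)] at h4
    obtain ⟨s, hs'⟩ := h4
    have h5 := congrArg Valued.v hs'
    rw [map_mul, map_mul, map_mul, hji, mul_one, hm, hl, ← exp_add] at h5
    have hs0 : Valued.v s ≠ 0 := by
      intro h6
      rw [h6, mul_zero] at h5
      exact exp_ne_zero h5
    rw [← exp_log hs0, ← exp_add, exp_inj] at h5
    omega

end H30OR
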