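import Pool.Agent.H30.OR.Te

/-!
ROW OR/Fq (project MP_78d38b_OD, about 200 lines): the discriminant at a good odd place.

sq_fin: `k` a finite field of odd characteristic, `f = X^3 + a X + b` without a root in `k`, nonzero discriminant. `f` is irreducible (degree 3, no root: `Polynomial.Monic.irreducible_iff_roots_eq_zero_of_degree_le_three`),
`E := AdjoinRoot f`, `θ` the root, `E / k` finite of degree 3. `θ' := θ^q`, `q = card k`, is a root (Frobenius; `a^q = a`, `b^q = b`), `θ' ≠ θ` (otherwise `θ^q = θ` and `θ` is in `k`: the `q` elements of `k` are all the roots of `X^q - X`; or: `E / k` is Galois, as `k` is finite: normal).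
`d := (θ - θ') (θ - θ'') (θ' - θ'')`, `θ'' = -θ - θ'`, satisfies `d^2 = -(4 a^3 + 27 b^2)` (the identity in `R3`/`diff_one` of Tb.lean; `θ^2 + θ θ' + θ'^2 + a = 0`). So `Δ = -(4 a^3 + 27 b^2)` is a square in `E`. If it were not a square in `k` then `k(d)/k` has degree 2, which does not divide 3 (compare `H88OD.nosquare` in Pool/Agent/H88/OD/*.lean or: `x = minpoly`, `IntermediateField.finrank_...`, `Irreducible (X^2 - C Δ)`). Contradiction.

la_no: with `k = 𝓞 K ⧸ v.asIdeal` (finite field, `H36/MX/Bf.lean` Bf_res has such a field with a surjective `f : 𝓞 K →+* k`, `f x = 0 ↔ v.valuation K x < 1`, `ringChar k ≠ 2`; it is private: copy it), `Δ = -(4 A^3 + 27 B^2) ≡ s^2` modulo `v`; `H38T1.la_sc hv`, `H38RT.lam_unit` (`lam = if Sq .. then 0 else 1` for units), as in `Ct_la_near` of Pool/Agent/H76/MQ/Ct.lean.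
la_one: `-(4 A^3 + 27 B^2) = (3 t^2 + A)^2 (-3 t^2 - 4 A) + (t^3 + A t + B) (..)` (identity hid in roots_of, Te.lean), so modulo squares and modulo `v` it is `-3 t^2 - 4 A`, which is not a square modulo `v`.
la_three: the discriminant is the square of the product of the differences of the roots in the completion (h3 in diff_one, Tb.lean); `nsq_of_la` of Pool/Agent/H36/MX/Bf.lean (`la = 1`, `eo = 0` imply: not a square in the completion).
-/

set_option autoImplicit false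
set_option linter.unusedSectionVars false
open scoped Classical

open WithZero NumberField IsDedekindDomain H38RT
open H38T1 (SC sc scu rep rep_ne sc_rep sc_mul sc_eq_zero sc_surj eo la si Pri OddP tp unif ka)
open H76PP H36MX H76MQ

namespace H30OR

theorem sq_fin {k : Type} [Field k] [Finite k] (h2 : ringChar k ≠ 2) {a b : k}
    (hd : 4 * a ^ 3 + 27 * b ^ 2 ≠ 0) (hno : ∀ t : k, t ^ 3 + a * t + b ≠ 0) :
    IsSquare (-(4 * a ^ 3 + 27 * b ^ 2)) := by
  have _ := Fintype.ofFinite k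
  obtain ⟨f, hf⟩ : ∃ f : Polynomial k,
      f = Polynomial.X ^ 3 + Polynomial.C a * Polynomial.X + Polynomial.C b := ⟨_, rfl⟩
  have hdeg : f.natDegree = 3 := by rw [hf]; compute_degree!
  have hmon : f.Monic := by rw [hf]; monicity!
  have hev : ∀ t : k, f.eval t = t ^ 3 + a * t + b := by intro t; rw [hf]; simp
  have hirr : Irreducible f := by
    rw [hmon.irreducible_iff_roots_eq_zero_of_degree_le_three (by omega) (by omega)]
    refine Multiset.eq_zero_of_forall_notMem fun t ht => ?_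
    rw [Polynomial.mem_roots hmon.ne_zero, Polynomial.IsRoot.def, hev] at ht
    exact hno t ht
  have hfact : Fact (Irreducible f) := ⟨hirr⟩
  have hfin : Module.Finite k (AdjoinRoot f) := hmon.finite_adjoinRoot
  have hFin : Finite (AdjoinRoot f) := Module.finite_of_finite k
  have _ := Fintype.ofFinite (AdjoinRoot f)
  have hrk : Module.finrank k (AdjoinRoot f) = 3 := by
    rw [(AdjoinRoot.powerBasis' hmon).finrank, AdjoinRoot.powerBasis'_dim, hdeg]
  obtain ⟨φ, hφ⟩ : ∃ φ, φ = FiniteField.frobeniusAlgHom k (AdjoinRoot f) := ⟨_, rfl⟩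
  have hord : orderOf φ = 3 := by rw [hφ, FiniteField.orderOf_frobeniusAlgHom, hrk]
  have hφq : ∀ x, φ x = x ^ Fintype.card k := by
    intro x
    rw [hφ]
    exact FiniteField.frobeniusAlgHom_apply ..
  obtain ⟨θ, hθ⟩ : ∃ θ, θ = AdjoinRoot.root f := ⟨_, rfl⟩
  have hroot : θ ^ 3 + algebraMap k (AdjoinRoot f) a * θ + algebraMap k (AdjoinRoot f) b = 0 := by
    have h1 : Polynomial.aeval (AdjoinRoot.root f) f = 0 := by
      rw [AdjoinRoot.aeval_eq, AdjoinRoot.mk_self]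
    rw [← hθ] at h1
    have h2 : ∀ g : Polynomial k,
        g = Polynomial.X ^ 3 + Polynomial.C a * Polynomial.X + Polynomial.C b →
        Polynomial.aeval θ g = θ ^ 3 + algebraMap k (AdjoinRoot f) a * θ +
          algebraMap k (AdjoinRoot f) b := by
      intro g hg
      rw [hg, map_add, map_add, map_mul, map_pow, Polynomial.aeval_X, Polynomial.aeval_C,
        Polynomial.aeval_C]
    rw [h2 f hf] at h1
    exact h1
  have hr : ∀ ψ : AdjoinRoot f →ₐ[k] AdjoinRoot f,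
      (ψ θ) ^ 3 + algebraMap k (AdjoinRoot f) a * ψ θ + algebraMap k (AdjoinRoot f) b = 0 := by
    intro ψ
    have h1 := congrArg ψ hroot
    rwa [map_add, map_add, map_mul, map_pow, ψ.commutes, ψ.commutes, map_zero] at h1
  have hfix : ∀ n : ℕ, (φ ^ n) θ = θ → 3 ∣ n := by
    intro n hn
    rw [← hord]
    refine orderOf_dvd_of_pow_eq_one (AdjoinRoot.algHom_ext ?_)
    rw [← hθ]
    exact hn
  have hinj : Function.Injective φ := φ.toRingHom.injective
  have n01 : θ ≠ φ θ := by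
    intro h
    have := hfix 1 (by rw [pow_one]; exact h.symm)
    omega
  have n02 : θ ≠ φ (φ θ) := by
    intro h
    have := hfix 2 (by rw [pow_two]; exact h.symm)
    omega
  have n12 : φ θ ≠ φ (φ θ) := fun h => n01 (hinj h)
  have h3 : φ (φ (φ θ)) = θ := by
    have h1 : φ ^ 3 = 1 := by rw [← hord]; exact pow_orderOf_eq_one φ
    have h4 : (φ ^ 3) θ = θ := by rw [h1]; rfl
    rw [pow_succ, pow_two] at h4
    exact h4
  have hR : R3 (algebraMap k (AdjoinRoot f) a) (algebraMap k (AdjoinRoot f) b)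
      (![θ, φ θ, φ (φ θ)]) := by
    refine R3.of_roots ?_ ?_ ?_ ?_
    · intro i
      fin_cases i
      · exact hroot
      · exact hr φ
      · exact hr (φ * φ)
    · exact n01
    · exact n02
    · exact n12
  obtain ⟨d, hdd⟩ : ∃ d, d = (θ - φ θ) * (θ - φ (φ θ)) * (φ θ - φ (φ θ)) := ⟨_, rfl⟩
  have s1 : θ + φ θ + φ (φ θ) = 0 := hR.s1
  have s2 : θ * φ θ + θ * φ (φ θ) + φ θ * φ (φ θ) = algebraMap k (AdjoinRoot f) a := hR.s2
  have s3 : θ * φ θ * φ (φ θ) = -algebraMap k (AdjoinRoot f) b := hR.s3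
  have hd2 : algebraMap k (AdjoinRoot f) (-(4 * a ^ 3 + 27 * b ^ 2)) = d ^ 2 := by
    rw [map_neg, map_add, map_mul, map_mul, map_pow, map_pow, map_ofNat, map_ofNat, ← s2]
    have h4 : algebraMap k (AdjoinRoot f) b = -(θ * φ θ * φ (φ θ)) := by rw [s3, neg_neg]
    have h5 : φ (φ θ) = -θ - φ θ := by linear_combination s1
    rw [h4, hdd, h5]
    ring
  have hφd : φ d = d := by
    rw [hdd, map_mul, map_mul, map_sub, map_sub, map_sub, h3]
    ring
  have hd0 : d ≠ 0 := by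
    rw [hdd]
    exact mul_ne_zero (mul_ne_zero (sub_ne_zero.2 n01) (sub_ne_zero.2 n02)) (sub_ne_zero.2 n12)
  have hne : -(4 * a ^ 3 + 27 * b ^ 2) ≠ 0 := neg_ne_zero.2 hd
  rw [FiniteField.isSquare_iff h2 hne]
  apply (algebraMap k (AdjoinRoot f)).injective
  rw [map_pow, hd2, map_one, ← pow_mul]
  have hodd := FiniteField.odd_card_of_char_ne_two h2
  have hc : Fintype.card k = 2 * (Fintype.card k / 2) + 1 := by omega
  rw [hφq, hc, pow_succ] at hφd
  exact mul_right_cancel₀ hd0 (by rw [hφd, one_mul])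

private theorem Fq_res {K : Type} [Field K] [NumberField K] {v : HeightOneSpectrum (𝓞 K)}
    (hv : OddP v) :
    ∃ (k : Type) (_ : Field k) (_ : Finite k) (f : 𝓞 K →+* k), Function.Surjective f ∧
      ringChar k ≠ 2 ∧ ∀ x : 𝓞 K, f x = 0 ↔ v.valuation K (x : K) < 1 := by
  have hmax : v.asIdeal.IsMaximal := v.isMaximal
  have hfin : Finite (𝓞 K ⧸ v.asIdeal) := Ideal.finiteQuotientOfFreeOfNeBot v.asIdeal v.ne_bot
  refine ⟨𝓞 K ⧸ v.asIdeal, Ideal.Quotient.field v.asIdeal, hfin,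
    Ideal.Quotient.mk v.asIdeal, Ideal.Quotient.mk_surjective, ?_, ?_⟩
  · intro h
    have h1 : ((2 : ℕ) : 𝓞 K ⧸ v.asIdeal) = 0 := by
      have := ringChar.Nat.cast_ringChar (R := 𝓞 K ⧸ v.asIdeal)
      rwa [h] at this
    have h2 : Ideal.Quotient.mk v.asIdeal (2 : 𝓞 K) = 0 := by
      rw [map_ofNat]
      exact_mod_cast h1
    rw [Ideal.Quotient.eq_zero_iff_mem] at h2
    have h3 := (v.valuation_lt_one_iff_mem (K := K) _).2 h2
    have h4 : ((2 : 𝓞 K) : K) = 2 := map_ofNat (algebraMap (𝓞 K) K) 2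
    have h5 : v.valuation K 2 < 1 := lt_of_eq_of_lt (congrArg (v.valuation K) h4.symm) h3
    exact absurd hv h5.ne
  · intro x
    rw [Ideal.Quotient.eq_zero_iff_mem]
    exact (v.valuation_lt_one_iff_mem (K := K) x).symm

variable {K : Type} [Field K] [NumberField K] {v : HeightOneSpectrum (𝓞 K)}

theorem la_no (hv : OddP v) {A B : 𝓞 K}
    (hd : v.valuation K (4 * (A : K) ^ 3 + 27 * (B : K) ^ 2) = 1)
    (hno : ∀ t : 𝓞 K, t ^ 3 + A * t + B ∉ v.asIdeal) :
    la v (sc (-(4 * (A : K) ^ 3 + 27 * (B : K) ^ 2))) = 0 := by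
  obtain ⟨k, _, _, f, hf, hchar, hz⟩ := Fq_res hv
  have hcast : ((4 * A ^ 3 + 27 * B ^ 2 : 𝓞 K) : K) = 4 * (A : K) ^ 3 + 27 * (B : K) ^ 2 := by
    push_cast
    rfl
  have h1 : 4 * f A ^ 3 + 27 * f B ^ 2 ≠ 0 := by
    intro h
    have h2 : f (4 * A ^ 3 + 27 * B ^ 2) = 0 := by
      rw [map_add, map_mul, map_mul, map_pow, map_pow, map_ofNat, map_ofNat]
      exact h
    rw [hz, hcast, hd] at h2
    exact lt_irrefl _ h2
  have h2 : ∀ t : k, t ^ 3 + f A * t + f B ≠ 0 := by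
    intro t' h
    obtain ⟨t, rfl⟩ := hf t'
    have h3 : f (t ^ 3 + A * t + B) = 0 := by
      rw [map_add, map_add, map_mul, map_pow]
      exact h
    rw [hz, v.valuation_lt_one_iff_mem] at h3
    exact hno t h3
  obtain ⟨s', hs'⟩ := sq_fin hchar h1 h2
  obtain ⟨s, rfl⟩ := hf s'
  have h3 : f (-(4 * A ^ 3 + 27 * B ^ 2) - s ^ 2) = 0 := by
    rw [map_sub, map_neg, map_add, map_mul, map_mul, map_pow, map_pow, map_pow, map_ofNat,
      map_ofNat, hs']
    ring
  have hne : -(4 * (A : K) ^ 3 + 27 * (B : K) ^ 2) ≠ 0 := by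
    intro h
    rw [neg_eq_zero] at h
    rw [h, map_zero] at hd
    exact zero_ne_one hd
  rw [H38T1.la_sc hv hne, lam_unit (by rw [Valuation.map_neg]; exact hd)]
  refine if_pos ⟨(s : K), ?_⟩
  rw [hz] at h3
  refine lt_of_eq_of_lt (congrArg (v.valuation K) ?_) h3
  push_cast
  rfl

theorem la_one (hv : OddP v) {A B : 𝓞 K}
    (hd : v.valuation K (4 * (A : K) ^ 3 + 27 * (B : K) ^ 2) = 1) {t : 𝓞 K}
    (ht : t ^ 3 + A * t + B ∈ v.asIdeal)
    (hs : ∀ s : 𝓞 K, -3 * t ^ 2 - 4 * A - s ^ 2 ∉ v.asIdeal) :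
    la v (sc (-(4 * (A : K) ^ 3 + 27 * (B : K) ^ 2))) = 1 := by
  obtain ⟨k, _, _, f, hf, hchar, hz⟩ := Fq_res hv
  have hcast : ((4 * A ^ 3 + 27 * B ^ 2 : 𝓞 K) : K) = 4 * (A : K) ^ 3 + 27 * (B : K) ^ 2 := by
    push_cast
    rfl
  have hne : -(4 * (A : K) ^ 3 + 27 * (B : K) ^ 2) ≠ 0 := by
    intro h
    rw [neg_eq_zero] at h
    rw [h, map_zero] at hd
    exact zero_ne_one hd
  have h1 : 4 * f A ^ 3 + 27 * f B ^ 2 ≠ 0 := by
    intro h
    have h2 : f (4 * A ^ 3 + 27 * B ^ 2) = 0 := by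
      rw [map_add, map_mul, map_mul, map_pow, map_pow, map_ofNat, map_ofNat]
      exact h
    rw [hz, hcast, hd] at h2
    exact lt_irrefl _ h2
  have ht' : f t ^ 3 + f A * f t + f B = 0 := by
    have h2 : f (t ^ 3 + A * t + B) = 0 := by
      rw [hz, v.valuation_lt_one_iff_mem]
      exact ht
    rwa [map_add, map_add, map_mul, map_pow] at h2
  have hid : -(4 * f A ^ 3 + 27 * f B ^ 2) =
      (3 * f t ^ 2 + f A) ^ 2 * (-3 * f t ^ 2 - 4 * f A) := by
    linear_combination (-27 * (f t ^ 3 + f A * f t + f B) + 54 * (f t ^ 3 + f A * f t)) * ht'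
  have hc0 : 3 * f t ^ 2 + f A ≠ 0 := by
    intro h
    rw [h] at hid
    apply h1
    rw [← neg_eq_zero, hid]
    ring
  rw [H38T1.la_sc hv hne, lam_unit (by rw [Valuation.map_neg]; exact hd)]
  refine if_neg ?_
  rintro ⟨y, hy⟩
  have hy2 : v.valuation K (y ^ 2) = 1 := by
    have e : y ^ 2 = -(4 * (A : K) ^ 3 + 27 * (B : K) ^ 2) -
        (-(4 * (A : K) ^ 3 + 27 * (B : K) ^ 2) - y ^ 2) := by ring
    rw [e, Valuation.map_sub_eq_of_lt_left _ (by rw [Valuation.map_neg, hd]; exact hy),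
      Valuation.map_neg, hd]
  have hy1 : v.valuation K y = 1 := by
    rw [map_pow] at hy2
    exact (pow_eq_one_iff.1 hy2).resolve_right two_ne_zero
  obtain ⟨τ, hτ⟩ := Tf_approx v hy1.le
  have h5 : f (-(4 * A ^ 3 + 27 * B ^ 2) - τ ^ 2) = 0 := by
    rw [hz]
    have e : ((-(4 * A ^ 3 + 27 * B ^ 2) - τ ^ 2 : 𝓞 K) : K) =
        (-(4 * (A : K) ^ 3 + 27 * (B : K) ^ 2) - y ^ 2) + (y - τ) * (y + τ) := by
      have e0 : ((-(4 * A ^ 3 + 27 * B ^ 2) - τ ^ 2 : 𝓞 K) : K) =
          -(4 * (A : K) ^ 3 + 27 * (B : K) ^ 2) - (τ : K) ^ 2 := by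
        push_cast
        rfl
      rw [e0]
      ring
    rw [e]
    refine Valuation.map_add_lt _ hy ?_
    rw [map_mul]
    exact (mul_le_of_le_one_right' ((Valuation.map_add _ _ _).trans
      (max_le hy1.le (v.valuation_le_one τ)))).trans_lt hτ
  have h6 : -(4 * f A ^ 3 + 27 * f B ^ 2) = f τ ^ 2 := by
    rw [map_sub, map_neg, map_add, map_mul, map_mul, map_pow, map_pow, map_pow, map_ofNat,
      map_ofNat, sub_eq_zero] at h5
    exact h5
  obtain ⟨s, hs'⟩ := hf (f τ / (3 * f t ^ 2 + f A))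
  apply hs s
  rw [← v.valuation_lt_one_iff_mem (K := K), ← hz]
  rw [map_sub, map_sub, map_mul, map_mul, map_neg, map_pow, map_pow, map_ofNat, map_ofNat, hs']
  have h7 : f τ ^ 2 = (3 * f t ^ 2 + f A) ^ 2 * (-3 * f t ^ 2 - 4 * f A) := by rw [← h6, hid]
  rw [div_pow, h7, mul_div_cancel_left₀ _ (pow_ne_zero 2 hc0), sub_self]

theorem la_three (hv : OddP v) {A B : 𝓞 K}
    (hd : v.valuation K (4 * (A : K) ^ 3 + 27 * (B : K) ^ 2) = 1) {e : Fin 3 → v.adicCompletion K}
    (hs : R3 (algebraMap K (v.adicCompletion K) (A : K))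
      (algebraMap K (v.adicCompletion K) (B : K)) e) :
    la v (sc (-(4 * (A : K) ^ 3 + 27 * (B : K) ^ 2))) = 0 := by
  have hne : -(4 * (A : K) ^ 3 + 27 * (B : K) ^ 2) ≠ 0 := by
    intro h
    rw [neg_eq_zero] at h
    rw [h, map_zero] at hd
    exact zero_ne_one hd
  have hsq : IsSquare (algebraMap K (v.adicCompletion K)
      (-(4 * (A : K) ^ 3 + 27 * (B : K) ^ 2))) := by
    refine ⟨(e 0 - e 1) * (e 0 - e 2) * (e 1 - e 2), ?_⟩
    rw [map_neg, map_add, map_mul, map_mul, map_pow, map_pow, map_ofNat, map_ofNat, ← hs.s2]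
    have h4 : algebraMap K (v.adicCompletion K) (B : K) = -(e 0 * e 1 * e 2) := by
      rw [hs.s3, neg_neg]
    have h5 : e 2 = -e 0 - e 1 := by linear_combination hs.s1
    rw [h4, h5]
    ring
  have heo : eo v (sc (-(4 * (A : K) ^ 3 + 27 * (B : K) ^ 2))) = 0 := by
    rw [H38T1.eo_sc hne]
    have : ord (v.valuation K) (-(4 * (A : K) ^ 3 + 27 * (B : K) ^ 2)) = 0 := by
      unfold ord
      rw [Valuation.map_neg, hd, log_one, neg_zero]
    rw [this, Int.cast_zero]
  have hz2 : ∀ z : ZMod 2, z = 0 ∨ z = 1 := by decide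
  rcases hz2 (la v (sc (-(4 * (A : K) ^ 3 + 27 * (B : K) ^ 2)))) with h | h
  · exact h
  · exact absurd hsq (nsq_of_la hv hne h heo)

end H30OR
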