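import Pool.Agent.H36.MX.Bs
import Pool.Agent.H36.MX.Bk
import Pool.Agent.H30.ZO.Df

/-!
# MP_78d38b_OD: places at which the cubic has three roots (algebra)

The computations of `Pool/Agent/H36/MX/Bs.lean` and `Bk.lean` without the assumption that the derivatives are squares.
-/

set_option autoImplicit false
set_option linter.unusedSectionVars false
open scoped Classical

open WithZero NumberField IsDedekindDomain H38RT
open H38T1 (SC sc scu rep rep_ne sc_rep sc_mul sc_eq_zero sc_surj eo la si Pri OddP tp unif ka)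
open H76PP H36MX

namespace H30OR

/-- `x^3 + a x + b` is the product of the `x - e i`, which are different. -/
structure R3 {F : Type} [Field F] (a b : F) (e : Fin 3 → F) : Prop where
  s1 : e 0 + e 1 + e 2 = 0
  s2 : e 0 * e 1 + e 0 * e 2 + e 1 * e 2 = a
  s3 : e 0 * e 1 * e 2 = -b
  ne01 : e 0 ≠ e 1
  ne02 : e 0 ≠ e 2
  ne12 : e 1 ≠ e 2

lemma R3.fact {F : Type} [Field F] {a b : F} {e : Fin 3 → F} (h : R3 a b e) (x : F) :
    x ^ 3 + a * x + b = (x - e 0) * (x - e 1) * (x - e 2) := by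
  have h1 := h.s1
  have h2 := h.s2
  have h3 := h.s3
  linear_combination (-x) * h2 + h3 + x ^ 2 * h1

lemma R3.root {F : Type} [Field F] {a b : F} {e : Fin 3 → F} (h : R3 a b e) (i : Fin 3) :
    e i ^ 3 + a * e i + b = 0 := by
  rw [h.fact]
  fin_cases i <;> simp

/-- Three different roots. -/
lemma R3.of_roots {F : Type} [Field F] {a b : F} {e : Fin 3 → F} (h0 : ∀ i, e i ^ 3 + a * e i + b = 0)
    (h01 : e 0 ≠ e 1) (h02 : e 0 ≠ e 2) (h12 : e 1 ≠ e 2) : R3 a b e := by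
  have n01 : e 0 - e 1 ≠ 0 := sub_ne_zero.2 h01
  have n02 : e 0 - e 2 ≠ 0 := sub_ne_zero.2 h02
  have n12 : e 1 - e 2 ≠ 0 := sub_ne_zero.2 h12
  have r0 := h0 0
  have r1 := h0 1
  have r2 := h0 2
  have a1 : e 0 ^ 2 + e 0 * e 1 + e 1 ^ 2 + a = 0 :=
    (mul_eq_zero.1 (show (e 0 - e 1) * (e 0 ^ 2 + e 0 * e 1 + e 1 ^ 2 + a) = 0 by
      linear_combination r0 - r1)).resolve_left n01
  have a2 : e 0 ^ 2 + e 0 * e 2 + e 2 ^ 2 + a = 0 :=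
    (mul_eq_zero.1 (show (e 0 - e 2) * (e 0 ^ 2 + e 0 * e 2 + e 2 ^ 2 + a) = 0 by
      linear_combination r0 - r2)).resolve_left n02
  have hs : e 0 + e 1 + e 2 = 0 :=
    (mul_eq_zero.1 (show (e 1 - e 2) * (e 0 + e 1 + e 2) = 0 by
      linear_combination a1 - a2)).resolve_left n12
  have ha : e 0 * e 1 + e 0 * e 2 + e 1 * e 2 = a := by
    linear_combination -a1 + (e 0 + e 1) * hs
  refine ⟨hs, ha, ?_, h01, h02, h12⟩
  linear_combination r0 + e 0 * ha - e 0 ^ 2 * hs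

lemma Ta_hs {F : Type} [Field F] {a b c d : F} (h : Sol a b ↔ Sol c d) :
    hs a b = hs c d := by
  by_cases h1 : Sol a b
  · rw [hs_eq_zero.2 h1, hs_eq_zero.2 (h.1 h1)]
  · rw [hs_eq_one.2 h1, hs_eq_one.2 (fun h2 => h1 (h.2 h2))]

/-- The polynomial identities. -/
lemma Ta_hankel {F : Type} [Field F] {a b e0 e1 e2 y0 y1 y2 c0 c1 c2 : F}
    (h1 : e0 + e1 + e2 = 0) (h2 : e0 * e1 + e0 * e2 + e1 * e2 = a) (h3 : e0 * e1 * e2 = -b)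
    (hc0 : c0 = y0 + y1 * e0 + y2 * e0 ^ 2) (hc1 : c1 = y0 + y1 * e1 + y2 * e1 ^ 2)
    (hc2 : c2 = y0 + y1 * e2 + y2 * e2 ^ 2) (s0 s1 s2 s3 s4 : F) (hs0 : s0 = y2) (hs1 : s1 = y1)
    (hs2 : s2 = y0 - a * y2) (hs3 : s3 = -a * y1 - b * y2)
    (hs4 : s4 = -a * y0 + a ^ 2 * y2 - b * y1) :
    c0 * c1 * c2 = -(s0 * s2 * s4 + 2 * s1 * s2 * s3 - s2 ^ 3 - s0 * s3 ^ 2 - s1 ^ 2 * s4) := by
  obtain rfl : e2 = -e0 - e1 := by linear_combination h1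
  obtain rfl : b = -(e0 * e1 * (-e0 - e1)) := by linear_combination h3
  rw [hs0, hs1, hs2, hs3, hs4, hc0, hc1, hc2, ← h2]
  ring

lemma Ta_sum {F : Type} [Field F] {a b e0 e1 e2 y0 y1 y2 c0 c1 c2 δ : F}
    (h1 : e0 + e1 + e2 = 0) (h2 : e0 * e1 + e0 * e2 + e1 * e2 = a) (h3 : e0 * e1 * e2 = -b)
    (hc0 : c0 = y0 + y1 * e0 + y2 * e0 ^ 2) (hc1 : c1 = y0 + y1 * e1 + y2 * e1 ^ 2)
    (hc2 : c2 = y0 + y1 * e2 + y2 * e2 ^ 2)
    (hδ : (e0 - e1) * (e0 - e2) * (e1 - e2) * δ = 1) (a0 a1 a2 : F)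
    (ha0 : a0 = c0 * (e1 - e2) * δ) (ha1 : a1 = -(c1 * (e0 - e2) * δ))
    (ha2 : a2 = c2 * (e0 - e1) * δ) :
    a0 + a1 + a2 = y2 ∧ a0 * e0 + a1 * e1 + a2 * e2 = y1 ∧
    a0 * e0 ^ 2 + a1 * e1 ^ 2 + a2 * e2 ^ 2 = y0 - a * y2 ∧
    a0 * e0 ^ 3 + a1 * e1 ^ 3 + a2 * e2 ^ 3 = -a * y1 - b * y2 ∧
    a0 * e0 ^ 4 + a1 * e1 ^ 4 + a2 * e2 ^ 4 = -a * y0 + a ^ 2 * y2 - b * y1 := by
  obtain rfl : e2 = -e0 - e1 := by linear_combination h1
  obtain rfl : b = -(e0 * e1 * (-e0 - e1)) := by linear_combination h3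
  subst h2 ha0 ha1 ha2 hc0 hc1 hc2
  refine ⟨?_, ?_, ?_, ?_, ?_⟩
  · linear_combination y2 * hδ
  · linear_combination y1 * hδ
  · linear_combination (y0 - (e0 * e1 + e0 * (-e0 - e1) + e1 * (-e0 - e1)) * y2) * hδ
  · linear_combination (-(e0 * e1 + e0 * (-e0 - e1) + e1 * (-e0 - e1)) * y1 -
      (-(e0 * e1 * (-e0 - e1))) * y2) * hδ
  · linear_combination (-(e0 * e1 + e0 * (-e0 - e1) + e1 * (-e0 - e1)) * y0 +
      (e0 * e1 + e0 * (-e0 - e1) + e1 * (-e0 - e1)) ^ 2 * y2 -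
      (-(e0 * e1 * (-e0 - e1))) * y1) * hδ

/-- Lagrange interpolation. -/
lemma Ta_lag {F : Type} [Field F] {e0 e1 e2 δ : F}
    (h1 : e0 + e1 + e2 = 0)
    (hδ : (e0 - e1) * (e0 - e2) * (e1 - e2) * δ = 1) (Z0 Z1 Z2 : F) :
    ∃ z0 z1 z2 : F, z0 + z1 * e0 + z2 * e0 ^ 2 = Z0 ∧ z0 + z1 * e1 + z2 * e1 ^ 2 = Z1 ∧
      z0 + z1 * e2 + z2 * e2 ^ 2 = Z2 := by
  obtain rfl : e2 = -e0 - e1 := by linear_combination h1
  refine ⟨δ * ((e1 - (-e0 - e1)) * (e1 * (-e0 - e1)) * Z0 -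
      (e0 - (-e0 - e1)) * (e0 * (-e0 - e1)) * Z1 + (e0 - e1) * (e0 * e1) * Z2),
    δ * ((e1 - (-e0 - e1)) * e0 * Z0 - (e0 - (-e0 - e1)) * e1 * Z1 +
      (e0 - e1) * (-e0 - e1) * Z2),
    δ * ((e1 - (-e0 - e1)) * Z0 - (e0 - (-e0 - e1)) * Z1 + (e0 - e1) * Z2), ?_, ?_, ?_⟩
  · linear_combination Z0 * hδ
  · linear_combination Z1 * hδ
  · linear_combination Z2 * hδ

lemma Ta_zero {F : Type} [Field F] {e0 e1 e2 δ : F}
    (hδ : (e0 - e1) * (e0 - e2) * (e1 - e2) * δ = 1) {z0 z1 z2 : F}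
    (h0 : z0 + z1 * e0 + z2 * e0 ^ 2 = 0) (h1 : z0 + z1 * e1 + z2 * e1 ^ 2 = 0)
    (h2 : z0 + z1 * e2 + z2 * e2 ^ 2 = 0) : z1 = 0 ∧ z2 = 0 := by
  have e : z2 = 0 := by
    linear_combination (-z2) * hδ + δ * ((e1 - e2) * h0 - (e0 - e2) * h1 + (e0 - e1) * h2)
  refine ⟨?_, e⟩
  subst e
  linear_combination (-z1) * hδ + δ * ((e0 - e2) * (e1 - e2)) * (h0 - h1)

/-- The main computation. -/
lemma Ta_core {F : Type} [Field F] (hF2 : (2 : F) ≠ 0)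
    {a b e0 e1 e2 y0 y1 y2 c0 c1 c2 : F}
    (h1 : e0 + e1 + e2 = 0) (h2 : e0 * e1 + e0 * e2 + e1 * e2 = a) (h3 : e0 * e1 * e2 = -b)
    (n01 : e0 ≠ e1) (n02 : e0 ≠ e2) (n12 : e1 ≠ e2)
    (hc0 : c0 = y0 + y1 * e0 + y2 * e0 ^ 2) (hc1 : c1 = y0 + y1 * e1 + y2 * e1 ^ 2)
    (hc2 : c2 = y0 + y1 * e2 + y2 * e2 ^ 2) (k0 : c0 ≠ 0) (k1 : c1 ≠ 0) (k2 : c2 ≠ 0)
    {ν : F} (hν : c0 * c1 * c2 = ν * ν) {α β : F} (hα' : α = y2) (hα : α ≠ 0)
    (hβ' : β = y1 ^ 2 - y0 * y2 + a * y2 ^ 2) (hβ : β ≠ 0)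
    {δ : F} (hδ : (e0 - e1) * (e0 - e2) * (e1 - e2) * δ = 1) {a0 a2 : F}
    (ha0 : a0 = c0 * (e1 - e2) * δ) (ha2 : a2 = c2 * (e0 - e1) * δ) :
    Sol α β ↔ Sol a2 a0 := by
  have hδ0 : δ ≠ 0 := by
    rintro rfl
    rw [mul_zero] at hδ
    exact zero_ne_one hδ
  have hν0 : ν ≠ 0 := by
    rintro rfl
    rw [mul_zero] at hν
    exact mul_ne_zero (mul_ne_zero k0 k1) k2 hν
  have hνi : ν * ν⁻¹ = 1 := mul_inv_cancel₀ hν0
  have hαi : α * α⁻¹ = 1 := mul_inv_cancel₀ hα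
  have hβi : β * β⁻¹ = 1 := mul_inv_cancel₀ hβ
  have z0' : a0 ≠ 0 := by
    rw [ha0]
    exact mul_ne_zero (mul_ne_zero k0 (sub_ne_zero.2 n12)) hδ0
  have z2' : a2 ≠ 0 := by
    rw [ha2]
    exact mul_ne_zero (mul_ne_zero k2 (sub_ne_zero.2 n01)) hδ0
  have h0i : a0 * a0⁻¹ = 1 := mul_inv_cancel₀ z0'
  have h2i : a2 * a2⁻¹ = 1 := mul_inv_cancel₀ z2'
  obtain ⟨a1, ha1⟩ : ∃ a1 : F, a1 = -(c1 * (e0 - e2) * δ) := ⟨_, rfl⟩
  obtain ⟨t0, t1, t2, t3, t4⟩ := Ta_sum h1 h2 h3 hc0 hc1 hc2 hδ a0 a1 a2 ha0 ha1 ha2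
  obtain ⟨s2, hs2⟩ : ∃ s2 : F, s2 = y0 - a * y2 := ⟨_, rfl⟩
  obtain ⟨s3, hs3⟩ : ∃ s3 : F, s3 = -a * y1 - b * y2 := ⟨_, rfl⟩
  obtain ⟨s4, hs4⟩ : ∃ s4 : F, s4 = -a * y0 + a ^ 2 * y2 - b * y1 := ⟨_, rfl⟩
  have hH := Ta_hankel h1 h2 h3 hc0 hc1 hc2 y2 y1 s2 s3 s4 rfl rfl hs2 hs3 hs4
  rw [← hs2] at t2
  rw [← hs3] at t3
  rw [← hs4] at t4
  have hβ2 : β = y1 ^ 2 - y2 * s2 := by
    rw [hβ', hs2]
    ring
  obtain ⟨γ, hγ⟩ : ∃ γ : F, γ = y2 * s3 - y1 * s2 := ⟨_, rfl⟩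
  have hprod : a0 * a1 * a2 = -(ν * δ) ^ 2 := by
    rw [ha0, ha1, ha2]
    linear_combination (-((e1 - e2) * (e0 - e2) * (e0 - e1) * δ ^ 3)) * hν -
      (ν * ν * δ ^ 2) * hδ
  -- the two forms of `T`
  have hT1 : ∀ z0 z1 z2 : F, a0 * (z0 + z1 * e0 + z2 * e0 ^ 2) ^ 2 +
      a1 * (z0 + z1 * e1 + z2 * e1 ^ 2) ^ 2 + a2 * (z0 + z1 * e2 + z2 * e2 ^ 2) ^ 2 =
      y2 * z0 ^ 2 + 2 * y1 * z0 * z1 + s2 * (2 * z0 * z2 + z1 ^ 2) + 2 * s3 * z1 * z2 +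
        s4 * z2 ^ 2 := by
    intro z0 z1 z2
    linear_combination z0 ^ 2 * t0 + 2 * z0 * z1 * t1 + (2 * z0 * z2 + z1 ^ 2) * t2 +
      2 * z1 * z2 * t3 + z2 ^ 2 * t4
  have hT2 : ∀ z0 z1 z2 : F, α * β * (y2 * z0 ^ 2 + 2 * y1 * z0 * z1 +
      s2 * (2 * z0 * z2 + z1 ^ 2) + 2 * s3 * z1 * z2 + s4 * z2 ^ 2) =
      β * (y2 * z0 + y1 * z1 + s2 * z2) ^ 2 + α * (ν * z2) ^ 2 - (β * z1 - γ * z2) ^ 2 := by
    intro z0 z1 z2
    rw [hγ, hβ2, hα']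
    have e : ν * ν = -(y2 * s2 * s4 + 2 * y1 * s2 * s3 - s2 ^ 3 - y2 * s3 ^ 2 - y1 ^ 2 * s4) := by
      rw [← hν, hH]
    linear_combination (-(y2 * z2 ^ 2)) * e
  have hT3 : ∀ Z0 Z1 Z2 : F, a0 * a2 * (a0 * Z0 ^ 2 + a1 * Z1 ^ 2 + a2 * Z2 ^ 2) =
      a2 * (a0 * Z0) ^ 2 + a0 * (a2 * Z2) ^ 2 - (ν * δ * Z1) ^ 2 := by
    intro Z0 Z1 Z2
    linear_combination Z1 ^ 2 * hprod
  constructor
  · rintro ⟨x, y, hxy⟩
    obtain ⟨z2, hz2⟩ : ∃ z2 : F, z2 = x * ν⁻¹ := ⟨_, rfl⟩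
    obtain ⟨z1, hz1⟩ : ∃ z1 : F, z1 = (1 + γ * z2) * β⁻¹ := ⟨_, rfl⟩
    obtain ⟨z0, hz0⟩ : ∃ z0 : F, z0 = (y - y1 * z1 - s2 * z2) * α⁻¹ := ⟨_, rfl⟩
    have hp : y2 * z0 + y1 * z1 + s2 * z2 = y := by
      rw [← hα', hz0]
      linear_combination (y - y1 * z1 - s2 * z2) * hαi
    have hq : β * z1 - γ * z2 = 1 := by
      rw [hz1]
      linear_combination (1 + γ * z2) * hβi
    have hx : ν * z2 = x := by
      rw [hz2]
      linear_combination x * hνi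
    have hT := hT2 z0 z1 z2
    rw [hp, hq, hx, ← hT1] at hT
    have hT0 : a0 * (z0 + z1 * e0 + z2 * e0 ^ 2) ^ 2 +
      a1 * (z0 + z1 * e1 + z2 * e1 ^ 2) ^ 2 + a2 * (z0 + z1 * e2 + z2 * e2 ^ 2) ^ 2 = 0 := by
      have h5 : α * β * (a0 * (z0 + z1 * e0 + z2 * e0 ^ 2) ^ 2 +
        a1 * (z0 + z1 * e1 + z2 * e1 ^ 2) ^ 2 + a2 * (z0 + z1 * e2 + z2 * e2 ^ 2) ^ 2) = 0 := by
        rw [hT]
        linear_combination hxy
      rcases mul_eq_zero.1 h5 with h6 | h6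
      · exact absurd h6 (mul_ne_zero hα hβ)
      · exact h6
    have h7 := hT3 (z0 + z1 * e0 + z2 * e0 ^ 2) (z0 + z1 * e1 + z2 * e1 ^ 2)
      (z0 + z1 * e2 + z2 * e2 ^ 2)
    rw [hT0, mul_zero] at h7
    apply sol_of_iso hF2 z2' z0' (X := a0 * (z0 + z1 * e0 + z2 * e0 ^ 2))
      (Y := a2 * (z0 + z1 * e2 + z2 * e2 ^ 2)) (Z := ν * δ * (z0 + z1 * e1 + z2 * e1 ^ 2))
    · linear_combination -h7
    · by_contra hne
      push Not at hne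
      obtain ⟨m0, m2, m1⟩ := hne
      have m0' := (mul_eq_zero.1 m0).resolve_left z0'
      have m2' := (mul_eq_zero.1 m2).resolve_left z2'
      have m1' := (mul_eq_zero.1 m1).resolve_left (mul_ne_zero hν0 hδ0)
      obtain ⟨w1, w2⟩ := Ta_zero hδ m0' m1' m2'
      rw [w1, w2, mul_zero, mul_zero, sub_zero] at hq
      exact zero_ne_one hq
  · rintro ⟨X, Y, hXY⟩
    obtain ⟨z0, z1, z2, w0, w1, w2⟩ := Ta_lag h1 hδ (X * a0⁻¹) (δ⁻¹ * ν⁻¹) (Y * a2⁻¹)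
    have hδi : δ * δ⁻¹ = 1 := mul_inv_cancel₀ hδ0
    have h7 := hT3 (z0 + z1 * e0 + z2 * e0 ^ 2) (z0 + z1 * e1 + z2 * e1 ^ 2)
      (z0 + z1 * e2 + z2 * e2 ^ 2)
    rw [hT1] at h7
    have h8 : a2 * (a0 * (z0 + z1 * e0 + z2 * e0 ^ 2)) ^ 2 +
        a0 * (a2 * (z0 + z1 * e2 + z2 * e2 ^ 2)) ^ 2 -
        (ν * δ * (z0 + z1 * e1 + z2 * e1 ^ 2)) ^ 2 = 0 := by
      have m0 : a0 * (z0 + z1 * e0 + z2 * e0 ^ 2) = X := by
        rw [w0]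
        linear_combination X * h0i
      have m2 : a2 * (z0 + z1 * e2 + z2 * e2 ^ 2) = Y := by
        rw [w2]
        linear_combination Y * h2i
      have m1 : ν * δ * (z0 + z1 * e1 + z2 * e1 ^ 2) = 1 := by
        rw [w1]
        linear_combination (δ * δ⁻¹) * hνi + hδi
      rw [m0, m2, m1]
      linear_combination hXY
    rw [h8] at h7
    have h9 := (mul_eq_zero.1 h7).resolve_left (mul_ne_zero z0' z2')
    have h10 := hT2 z0 z1 z2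
    rw [h9, mul_zero] at h10
    apply sol_of_iso hF2 hα hβ (X := ν * z2) (Y := y2 * z0 + y1 * z1 + s2 * z2)
      (Z := β * z1 - γ * z2)
    · linear_combination -h10
    · by_contra hne
      push Not at hne
      obtain ⟨m0, m1, m2⟩ := hne
      have m0' := (mul_eq_zero.1 m0).resolve_left hν0
      rw [m0', mul_zero, sub_zero] at m2
      have m2' := (mul_eq_zero.1 m2).resolve_left hβ
      rw [m0', m2', mul_zero, mul_zero, add_zero, add_zero] at m1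
      have m1' := (mul_eq_zero.1 m1).resolve_left (hα' ▸ hα)
      rw [m0', m2', m1', zero_mul, zero_mul, add_zero, add_zero] at w1
      exact mul_ne_zero (inv_ne_zero hδ0) (inv_ne_zero hν0) w1.symm


/-- The symbol of the conic at a place with three roots. -/
theorem conic3 {F : Type} [Field F] (h2 : (2 : F) ≠ 0) {a b : F} {e : Fin 3 → F}
    (h : R3 a b e) {y0 y1 y2 : F} (h0 : ∀ i, y0 + y1 * e i + y2 * e i ^ 2 ≠ 0)
    (hsq : IsSquare ((y0 + y1 * e 0 + y2 * e 0 ^ 2) * (y0 + y1 * e 1 + y2 * e 1 ^ 2) *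
      (y0 + y1 * e 2 + y2 * e 2 ^ 2)))
    (hα : y2 ≠ 0) (hβ : y1 ^ 2 - y0 * y2 + a * y2 ^ 2 ≠ 0) :
    hs y2 (y1 ^ 2 - y0 * y2 + a * y2 ^ 2) =
      hs ((y0 + y1 * e 0 + y2 * e 0 ^ 2) * ((e 0 - e 1) * (e 0 - e 2)))
        ((y0 + y1 * e 2 + y2 * e 2 ^ 2) * ((e 2 - e 0) * (e 2 - e 1))) := by
  obtain ⟨h1, h3, h4, n01, n02, n12⟩ := h
  have k0 := h0 0
  have k1 := h0 1
  have k2 := h0 2
  obtain ⟨ν, hν⟩ := hsq
  have d01 : e 0 - e 1 ≠ 0 := sub_ne_zero.2 n01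
  have d02 : e 0 - e 2 ≠ 0 := sub_ne_zero.2 n02
  have d12 : e 1 - e 2 ≠ 0 := sub_ne_zero.2 n12
  have hD : (e 0 - e 1) * (e 0 - e 2) * (e 1 - e 2) ≠ 0 :=
    mul_ne_zero (mul_ne_zero d01 d02) d12
  obtain ⟨δ, hδ⟩ : ∃ δ : F, (e 0 - e 1) * (e 0 - e 2) * (e 1 - e 2) * δ = 1 :=
    ⟨_, mul_inv_cancel₀ hD⟩
  have hδ0 : δ ≠ 0 := by
    rintro rfl
    rw [mul_zero] at hδ
    exact zero_ne_one hδ
  have hcore := Ta_core h2 h1 h3 h4 n01 n02 n12 rfl rfl rfl k0 k1 k2 hν rfl hα rfl hβ hδ rfl rfl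
  rw [Ta_hs hcore, hs_comm]
  have g0 : (y0 + y1 * e 0 + y2 * e 0 ^ 2) * ((e 0 - e 1) * (e 0 - e 2)) =
      (y0 + y1 * e 0 + y2 * e 0 ^ 2) * (e 1 - e 2) * δ * ((e 0 - e 1) * (e 0 - e 2)) ^ 2 := by
    linear_combination (-((y0 + y1 * e 0 + y2 * e 0 ^ 2) * ((e 0 - e 1) * (e 0 - e 2)))) * hδ
  have g2 : (y0 + y1 * e 2 + y2 * e 2 ^ 2) * ((e 2 - e 0) * (e 2 - e 1)) =
      (y0 + y1 * e 2 + y2 * e 2 ^ 2) * (e 0 - e 1) * δ * ((e 2 - e 0) * (e 2 - e 1)) ^ 2 := by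
    linear_combination (-((y0 + y1 * e 2 + y2 * e 2 ^ 2) * ((e 2 - e 0) * (e 2 - e 1)))) * hδ
  rw [hs_congr (mul_ne_zero d01 d02) g0,
    hs_congr_right (mul_ne_zero (sub_ne_zero.2 n02.symm) (sub_ne_zero.2 n12.symm)) g2]

section Loc

variable {K L F : Type} [Field K] [Field L] [Algebra K L] [Field F] {A B : K} {θ : L}

theorem norm_prod3 (h : Cub K L A B θ) (i : K →+* F) {e : Fin 3 → F} (hs : R3 (i A) (i B) e) (y : L) :
    rh h i (hs.root 0) y * rh h i (hs.root 1) y * rh h i (hs.root 2) y = i (Algebra.norm K y) := by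
  rw [h.norm, Matrix.det_fin_three, rh_apply, rh_apply, rh_apply]
  simp only [Matrix.of_apply, Matrix.cons_val', Matrix.cons_val_zero,
    Matrix.cons_val_one, Matrix.cons_val_two, Matrix.head_cons, Matrix.tail_cons,
    Matrix.head_fin_const, Matrix.empty_val', Matrix.cons_val_fin_one]
  simp only [map_add, map_sub, map_mul, map_neg]
  have h1 := hs.s1
  have h2 := hs.s2
  have h3 := hs.s3
  generalize i (h.co 0 y) = a0
  generalize i (h.co 1 y) = a1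
  generalize i (h.co 2 y) = a2
  generalize i A = a at *
  generalize i B = b at *
  generalize e 0 = e0 at *
  generalize e 1 = e1 at *
  generalize e 2 = e2 at *
  obtain rfl : e2 = -e0 - e1 := by linear_combination h1
  obtain rfl : b = -(e0 * e1 * (-e0 - e1)) := by linear_combination h3
  rw [← h2]
  ring

/-- The local class at the root `e j`. -/
noncomputable def lc3 (h : Cub K L A B θ) (i : K →+* F) {e : Fin 3 → F} (hs : R3 (i A) (i B) e)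
    (j : Fin 3) : SC L →+ SC F := scm ((rh h i (hs.root j) : L →+* F) : L →* F)

lemma lc3_sc (h : Cub K L A B θ) (i : K →+* F) {e : Fin 3 → F} (hs : R3 (i A) (i B) e)
    (j : Fin 3) {y : L} (hy : y ≠ 0) : lc3 h i hs j (sc y) = sc (rh h i (hs.root j) y) :=
  scm_sc _ hy

/-- The local classes of the points of the twist by `E`. -/
theorem kum3 (h : Cub K L A B θ) (i : K →+* F) {e : Fin 3 → F} (hs : R3 (i A) (i B) e) {E : K}
    (hE : E ≠ 0) {c : SC L} (hW : H30ZO.Wc i (E ^ 2 * A) (E ^ 3 * B) (algebraMap K L E * θ) c) :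
    ∃ x : F, (∀ j, x ≠ e j) ∧ IsSquare (i E * ((x - e 0) * (x - e 1) * (x - e 2))) ∧
      ∀ j, lc3 h i hs j c = sc (i E * (x - e j)) := by
  obtain ⟨d, hd, rfl, hLC⟩ := hW
  obtain ⟨X, y, z, hy0, hy, hm⟩ := hLC
  have hE' : i E ≠ 0 := fun h0 => hE ((map_eq_zero i).1 h0)
  have hEi : i E * (i E)⁻¹ = 1 := mul_inv_cancel₀ hE'
  obtain ⟨x, hx⟩ : ∃ x, x = X * (i E)⁻¹ := ⟨_, rfl⟩
  have hXx : X = i E * x := by
    rw [hx]
    linear_combination (-X) * hEi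
  have h1 := hs.s1
  have h2 := hs.s2
  have h3 := hs.s3
  have hprod : y ^ 2 = (i E) ^ 3 * ((x - e 0) * (x - e 1) * (x - e 2)) := by
    rw [hy, hXx]
    simp only [map_mul, map_pow]
    linear_combination (-(i E) ^ 3 * x) * h2 + (i E) ^ 3 * h3 + (i E) ^ 3 * x ^ 2 * h1
  have hxj : ∀ j, x ≠ e j := by
    intro j hj
    have h4 : (x - e 0) * (x - e 1) * (x - e 2) = 0 := by
      fin_cases j
      · have h5 : x = e 0 := hj
        rw [h5]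
        ring
      · have h5 : x = e 1 := hj
        rw [h5]
        ring
      · have h5 : x = e 2 := hj
        rw [h5]
        ring
    rw [h4, mul_zero] at hprod
    exact hy0 (pow_eq_zero_iff (two_ne_zero) |>.1 hprod)
  refine ⟨x, hxj, ⟨y * (i E)⁻¹, ?_⟩, ?_⟩
  · have h4 : (i E) ^ 2 * (i E * ((x - e 0) * (x - e 1) * (x - e 2))) =
        (i E) ^ 2 * (y * (i E)⁻¹ * (y * (i E)⁻¹)) := by
      linear_combination (-1 : F) * hprod - y ^ 2 * (i E * (i E)⁻¹ + 1) * hEi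
    exact mul_left_cancel₀ (pow_ne_zero 2 hE') h4
  · intro j
    rw [lc3_sc h i hs j hd]
    set u := rh h i (hs.root j) (ev (algebraMap K L E * θ) d) with hu
    have hu0 : u ≠ 0 := fun h0 => hd ((map_eq_zero _).1 h0)
    have hw0 : i E * (x - e j) ≠ 0 := mul_ne_zero hE' (sub_ne_zero.2 (hxj j))
    have hroot : (i E * e j) ^ 3 + i (E ^ 2 * A) * (i E * e j) + i (E ^ 3 * B) = 0 := by
      simp only [map_mul, map_pow]
      linear_combination ((i E) ^ 3) * hs.root j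
    have hue : u = H36CY.e1 (i E * e j) (fun k => i (d k)) := by
      rw [hu]
      unfold ev H36CY.e1
      simp only [map_add, map_mul, map_pow, rh_algebraMap, rh_theta]
    have hmul : u * (i E * (x - e j)) =
        H36CY.e1 (i E * e j) z * H36CY.e1 (i E * e j) z := by
      rw [← H36CY.e1_m3 hroot z z, ← hm, H36CY.e1_m3 hroot, ← hue]
      have h5 : H36CY.e1 (i E * e j) ![X, -1, 0] = X - i E * e j := by
        unfold H36CY.e1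
        simp only [Matrix.cons_val_zero, Matrix.cons_val_one, Matrix.cons_val_two,
          Matrix.head_cons, Matrix.tail_cons, Matrix.cons_val]
        ring
      rw [h5, hXx]
      ring
    have h6 : sc (u * (i E * (x - e j))) = 0 :=
      (sc_eq_zero (mul_ne_zero hu0 hw0)).2 ⟨_, hmul⟩
    rw [sc_mul hu0 hw0] at h6
    have h7 := H38T1.SC.two_smul (sc (i E * (x - e j)))
    rw [two_nsmul] at h7
    exact add_right_cancel (h6.trans h7.symm)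

/-- The product of the three local classes of a class of square norm. -/
theorem lc3_sum [NumberField K] [NumberField L] (h : Cub K L A B θ) (i : K →+* F) {e : Fin 3 → F}
    (hs : R3 (i A) (i B) e) {c : SC L} (hc : c ∈ H30ZO.HH K L) :
    lc3 h i hs 1 c = lc3 h i hs 0 c + lc3 h i hs 2 c := by
  obtain ⟨y, hy, rfl⟩ := sc_surj c
  rw [H30ZO.mem_HH hy] at hc
  have hN := hc.map i
  rw [← norm_prod3 h i hs y] at hN
  have hi : ∀ j, rh h i (hs.root j) y ≠ 0 := fun j => (map_ne_zero _).2 hy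
  rw [lc3_sc _ _ _ _ hy, lc3_sc _ _ _ _ hy, lc3_sc _ _ _ _ hy]
  have h1 := (sc_eq_zero (mul_ne_zero (mul_ne_zero (hi 0) (hi 1)) (hi 2))).2 hN
  rw [sc_mul (mul_ne_zero (hi 0) (hi 1)) (hi 2), sc_mul (hi 0) (hi 1)] at h1
  have h7 : ∀ z : SC F, z + z = 0 := fun z => by
    have := H38T1.SC.two_smul z
    rwa [two_nsmul] at this
  generalize (sc (rh h i (hs.root 0) y) : SC F) = p at *
  generalize (sc (rh h i (hs.root 1) y) : SC F) = q at *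
  generalize (sc (rh h i (hs.root 2) y) : SC F) = r at *
  have h8 : q = (p + q + r) + (p + r) := by
    have e1 : (p + q + r) + (p + r) = q + (p + p) + (r + r) := by abel
    rw [e1, h7, h7, add_zero, add_zero]
  rw [h8, h1, zero_add]

end Loc

end H30OR
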