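import Pool.Agent.H30.OR.Ta
import Pool.Agent.H30.OD.Card2
import Pool.Agent.H36.MX.Fi
import Pool.Agent.H36.MX.Bo
import Pool.Agent.H36.MX.Bf

/-!
# MP_78d38b_OD: the local data at the places (abstract lemmas, the definition, three roots)
-/

set_option autoImplicit false
set_option linter.unusedSectionVars false
open scoped Classical

open WithZero NumberField IsDedekindDomain H38RT
open H38T1 (SC sc scu rep rep_ne sc_rep sc_mul sc_eq_zero sc_surj eo la si Pri OddP tp unif ka)
open H76PP H36MX H76MQ H30ZO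

namespace H30OR

section Abs

/-- The bilinear identity. -/
theorem bil3 {V : Type} [AddCommGroup V] (B : V → V → ZMod 2)
    (hl : ∀ x y z, B (x + y) z = B x z + B y z) (hs : ∀ x y, B x y = B y x) {n g g' f0 f2 : V}
    (h0 : ∀ x y, B x n = 0 → B y n = 0 → B x y = 0) (hg : B g n = 1) (hg' : B g' n = 1)
    (hgg : B g g' = 0) (hf0 : B f0 n = 0) (hf2 : B f2 n = 0) (x z : V) :
    B (x + f0) (z + f2) = B x n * (B z g' + B f2 g' * B x n) + B z n * (B x g + B f0 g * B z n) := by
  have hr : ∀ x y z, B x (y + z) = B x y + B x z := fun x y z => by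
    rw [hs, hl, hs y, hs z]
  have hc : ∀ t : ZMod 2, t = 0 ∨ t = 1 := by decide
  have h2 : ∀ s t : ZMod 2, s + t = 0 → s = t := by decide
  have k' : ∀ x y, B y n = 0 → B x y = B x n * B g' y := by
    intro x y hy
    rcases hc (B x n) with h | h
    · rw [h0 x y h hy, h, zero_mul]
    · have h3 : B (x + g') n = 0 := by
        rw [hl, h, hg']
        decide
      have h4 := h0 _ y h3 hy
      rw [hl] at h4
      rw [h, one_mul]
      exact h2 _ _ h4
  have k : ∀ x y, B y n = 0 → B x y = B x n * B g y := by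
    intro x y hy
    rcases hc (B x n) with h | h
    · rw [h0 x y h hy, h, zero_mul]
    · have h3 : B (x + g) n = 0 := by
        rw [hl, h, hg]
        decide
      have h4 := h0 _ y h3 hy
      rw [hl] at h4
      rw [h, one_mul]
      exact h2 _ _ h4
  have e1 : B x f2 = B x n * B f2 g' := by rw [k' x f2 hf2, hs f2]
  have e2 : B f0 z = B z n * B f0 g := by rw [hs f0 z, k z f0 hf0, hs f0]
  have e3 : B f0 f2 = 0 := h0 _ _ hf0 hf2
  have e4 : B x z = B x n * B z g' + B z n * B x g := by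
    rcases hc (B z n) with h | h
    · rw [k' x z h, h, zero_mul, add_zero, hs z]
    · have h3 : B (z + g) n = 0 := by
        rw [hl, h, hg]
        decide
      have h4 := k' x (z + g) h3
      rw [hr, hr, hs g' g, hgg, add_zero] at h4
      rw [h, one_mul, hs z]
      have h5 : ∀ s t u : ZMod 2, s + t = u → s = u + t := by decide
      exact h5 _ _ _ h4
  rw [hl, hr, hr, e1, e2, e3, e4]
  have h6 : ∀ s : ZMod 2, s * s = s := by decide
  have e5 : B x n * (B z g' + B f2 g' * B x n) = B x n * B z g' + B x n * B f2 g' := by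
    have : B x n * (B z g' + B f2 g' * B x n) = B x n * B z g' + (B x n * B x n) * B f2 g' := by ring
    rw [this, h6]
  have e6 : B z n * (B x g + B f0 g * B z n) = B z n * B x g + B z n * B f0 g := by
    have : B z n * (B x g + B f0 g * B z n) = B z n * B x g + (B z n * B z n) * B f0 g := by ring
    rw [this, h6]
  rw [e5, e6]
  ring

/-- A subgroup of small index on which independent functionals vanish. -/
theorem idx_eq {A ι : Type} [AddCommGroup A] [Fintype ι] {H W : AddSubgroup A} (hWH : W ≤ H)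
    (u : ι → (A →+ ZMod 2)) (hW : ∀ c ∈ W, ∀ i, u i c = 0)
    (hsurj : ∀ z : ι → ZMod 2, ∃ c ∈ H, ∀ i, u i c = z i) (h0 : W.relIndex H ≠ 0)
    (hle : W.relIndex H ≤ 2 ^ Fintype.card ι) {c : A} (hc : c ∈ H) :
    c ∈ W ↔ ∀ i, u i c = 0 := by
  refine ⟨fun h => hW c h, fun h => ?_⟩
  obtain ⟨φ, hφ⟩ : ∃ φ : A →+ (ι → ZMod 2), ∀ x i, φ x i = u i x :=
    ⟨{ toFun := fun x i => u i x
       map_zero' := by
        funext i
        exact map_zero _
       map_add' := fun x y => by
        funext i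
        exact map_add _ _ _ }, fun _ _ => rfl⟩
  have h1 : φ.ker.relIndex H = 2 ^ Fintype.card ι := by
    rw [AddSubgroup.relIndex_ker]
    have h2 : H.map φ = ⊤ := by
      rw [eq_top_iff]
      intro z _
      obtain ⟨c, hc, hz⟩ := hsurj z
      exact ⟨c, hc, funext fun i => by rw [hφ]; exact hz i⟩
    rw [h2, Nat.card_congr AddSubgroup.topEquiv.toEquiv, Nat.card_eq_fintype_card,
      Fintype.card_fun, ZMod.card]
  have h2 : W ≤ φ.ker ⊓ H := by
    refine le_inf (fun x hx => ?_) hWH
    rw [AddMonoidHom.mem_ker]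
    funext i
    rw [hφ]
    exact hW x hx i
  have h3 := AddSubgroup.relIndex_mul_relIndex W (φ.ker ⊓ H) H h2 inf_le_right
  rw [AddSubgroup.inf_relIndex_right, h1] at h3
  have h4 : W.relIndex (φ.ker ⊓ H) = 1 := by
    have h5 : W.relIndex (φ.ker ⊓ H) ≠ 0 := by
      intro h5
      rw [h5, zero_mul] at h3
      exact h0 h3.symm
    have h6 : W.relIndex (φ.ker ⊓ H) * 2 ^ Fintype.card ι ≤ 1 * 2 ^ Fintype.card ι := by
      rw [h3, one_mul]
      exact hle
    have h7 := Nat.le_of_mul_le_mul_right h6 (by positivity)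
    omega
  refine AddSubgroup.relIndex_eq_one.1 h4 (AddSubgroup.mem_inf.2 ⟨?_, hc⟩)
  rw [AddMonoidHom.mem_ker]
  funext i
  rw [hφ]
  exact h i

end Abs

/-- The local data at `v` for the twists by `D` and `E`. -/
structure LocD {K L : Type} [Field K] [NumberField K] [Field L] [NumberField L] [Algebra K L]
    {a b : K} {θ : L} (h : Cub K L a b θ) (v : HeightOneSpectrum (𝓞 K)) (D E : K) {ι : Type}
    [Fintype ι] (r u : ι → (SC L →+ ZMod 2)) : Prop where
  hr : ∀ c ∈ HH K L, (Wc (algebraMap K (v.adicCompletion K)) (D ^ 2 * a) (D ^ 3 * b)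
    (algebraMap K L D * θ) c ↔ ∀ i, r i c = 0)
  hu : ∀ c ∈ HH K L, (Wc (algebraMap K (v.adicCompletion K)) (E ^ 2 * a) (E ^ 3 * b)
    (algebraMap K L E * θ) c ↔ ∀ i, u i c = 0)
  hq : ∀ c ∈ HH K L, ∀ y : L, y ≠ 0 → sc y = c → al h y ≠ 0 → be h y ≠ 0 →
    hsv v (al h y) (be h y) = ∑ i, r i c * u i c

section Val

variable {K : Type} [Field K] [NumberField K] {v : HeightOneSpectrum (𝓞 K)}

theorem v4_one (hv : OddP v) : Valued.v (4 : v.adicCompletion K) = 1 := by
  have h : (4 : v.adicCompletion K) = algebraMap K (v.adicCompletion K) (2 * 2) := by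
    rw [map_mul, map_ofNat]
    norm_num
  have h2 : v.valuation K 2 = 1 := hv
  rw [h, H36CY.val_coe, map_mul, h2, one_mul]

theorem near_sq (hv : OddP v) {y z : v.adicCompletion K}
    (h : Valued.v (y - z) < Valued.v z) : ∃ r : v.adicCompletion K, r ≠ 0 ∧ y = z * r ^ 2 := by
  have _ := H36CY.char_zero v
  refine H36CY.sq_near ?_
  rw [map_mul, v4_one hv, one_mul]
  exact h

theorem near_sc (hv : OddP v) {y z : v.adicCompletion K} (h : Valued.v (y - z) < Valued.v z) :
    y ≠ 0 ∧ (sc y : SC (v.adicCompletion K)) = sc z := by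
  have hz : z ≠ 0 := by
    rintro rfl
    rw [map_zero] at h
    exact not_lt_zero' h
  obtain ⟨r, hr, rfl⟩ := near_sq hv h
  refine ⟨mul_ne_zero hz (pow_ne_zero 2 hr), ?_⟩
  rw [sc_mul hz (pow_ne_zero 2 hr), (sc_eq_zero (pow_ne_zero 2 hr)).2 ⟨r, sq r⟩, add_zero]

/-- The symbol with a nonsquare unit is the parity of the order. -/
theorem par_iff (hv : OddP v) {n : v.adicCompletion K} (hn : Valued.v n = 1)
    (hns : ¬ IsSquare n) {y : v.adicCompletion K} (hy : y ≠ 0) :
    hs y n = 0 ↔ ∃ m : ℤ, Valued.v y = exp (2 * m) := by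
  have hn0 : n ≠ 0 := by
    rintro rfl
    rw [map_zero] at hn
    exact zero_ne_one hn
  have hn1 : Valued.v n = exp (2 * 0) := by rw [hn, mul_zero, exp_zero]
  have hF : HF (v.adicCompletion K) := (hilb K).hf v
  constructor
  · intro h
    obtain ⟨k, hk⟩ : ∃ k : ℤ, Valued.v y = exp k :=
      ⟨log (Valued.v y), (exp_log ((Valuation.ne_zero_iff _).2 hy)).symm⟩
    rcases Int.even_or_odd' k with ⟨m, hm | hm⟩
    · exact ⟨m, by rw [hk, hm]⟩
    · exfalso
      obtain ⟨b, hb, hb1⟩ := hF.nd n hn0 hns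
      obtain ⟨j, hj⟩ : ∃ j : ℤ, Valued.v b = exp j :=
        ⟨log (Valued.v b), (exp_log ((Valuation.ne_zero_iff _).2 hb)).symm⟩
      rcases Int.even_or_odd' j with ⟨l, hl | hl⟩
      · rw [hl] at hj
        rw [hs_comm, hs_even hv hj hn1] at hb1
        exact zero_ne_one hb1
      · have h3 : Valued.v (y * b) = exp (2 * (m + l + 1)) := by
          rw [map_mul, hk, hj, ← exp_add, hm, hl]
          congr 1
          ring
        have h4 := hs_even hv h3 hn1
        rw [hF.mul _ _ _ hy hb hn0, h, zero_add, hs_comm, hb1] at h4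
        exact one_ne_zero h4
  · rintro ⟨m, hm⟩
    exact hs_even hv hm hn1

end Val

section Three

variable {K L : Type} [Field K] [NumberField K] [Field L] [NumberField L] [Algebra K L]
  {v : HeightOneSpectrum (𝓞 K)}

/-- The roots are integral and their differences are units. -/
theorem diff_one {a b : v.adicCompletion K} {e : Fin 3 → v.adicCompletion K} (hs : R3 a b e)
    (ha : Valued.v a ≤ 1) (hb : Valued.v b ≤ 1) (hd : Valued.v (4 * a ^ 3 + 27 * b ^ 2) = 1) :
    (∀ j, Valued.v (e j) ≤ 1) ∧ Valued.v (e 0 - e 1) = 1 ∧ Valued.v (e 0 - e 2) = 1 ∧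
      Valued.v (e 1 - e 2) = 1 := by
  have h1 : ∀ j, Valued.v (e j) ≤ 1 := by
    intro j
    by_contra hlt
    rw [not_le] at hlt
    have hr := hs.root j
    have h0 : 0 < Valued.v (e j) := lt_trans zero_lt_one hlt
    have e1 : e j ^ 3 = -(a * e j + b) := by linear_combination hr
    have e2 : Valued.v (e j) ^ 3 ≤ Valued.v (e j) := by
      rw [← map_pow, e1, Valuation.map_neg]
      refine Valuation.map_add_le _ ?_ (hb.trans hlt.le)
      rw [map_mul]
      exact mul_le_of_le_one_left' ha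
    have e3 : Valued.v (e j) < Valued.v (e j) ^ 3 := by
      calc Valued.v (e j) = Valued.v (e j) ^ 1 := (pow_one _).symm
        _ < Valued.v (e j) ^ 3 := pow_lt_pow_right₀ hlt (by norm_num)
    exact absurd e2 (not_le.2 e3)
  have h2 : ∀ i j, Valued.v (e i - e j) ≤ 1 := fun i j => Valuation.map_sub_le _ (h1 i) (h1 j)
  have h3 : 4 * a ^ 3 + 27 * b ^ 2 = -((e 0 - e 1) * (e 0 - e 2) * (e 1 - e 2)) ^ 2 := by
    rw [← hs.s2]
    have h4 : b = -(e 0 * e 1 * e 2) := by rw [hs.s3, neg_neg]
    have h5 : e 2 = -e 0 - e 1 := by linear_combination hs.s1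
    rw [h4, h5]
    ring
  rw [h3, Valuation.map_neg, map_pow, map_mul, map_mul] at hd
  have h4 := (pow_eq_one_iff.1 hd).resolve_right two_ne_zero
  refine ⟨h1, ?_, ?_, ?_⟩
  · refine le_antisymm (h2 0 1) ?_
    rw [← h4]
    calc _ ≤ Valued.v (e 0 - e 1) * 1 * 1 :=
          mul_le_mul' (mul_le_mul' le_rfl (h2 0 2)) (h2 1 2)
      _ = _ := by rw [mul_one, mul_one]
  · refine le_antisymm (h2 0 2) ?_
    rw [← h4]
    calc _ ≤ 1 * Valued.v (e 0 - e 2) * 1 :=
          mul_le_mul' (mul_le_mul' (h2 0 1) le_rfl) (h2 1 2)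
      _ = _ := by rw [mul_one, one_mul]
  · refine le_antisymm (h2 1 2) ?_
    rw [← h4]
    calc _ ≤ 1 * 1 * Valued.v (e 1 - e 2) :=
          mul_le_mul' (mul_le_mul' (h2 0 1) (h2 0 2)) le_rfl
      _ = _ := by rw [one_mul, one_mul]

/-- The classes of the points. -/
theorem cls3 (hv : OddP v) {e : Fin 3 → v.adicCompletion K}
    (h1 : ∀ j, Valued.v (e j) ≤ 1) (h2 : ∀ i j, i ≠ j → Valued.v (e i - e j) = 1)
    {E x : v.adicCompletion K} (hE : E ≠ 0) (hx : ∀ j, x ≠ e j)
    (hsq : IsSquare (E * ((x - e 0) * (x - e 1) * (x - e 2)))) :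
    (∀ j, (sc (E * (x - e j)) : SC (v.adicCompletion K)) = 0) ∨
      ((∃ m : ℤ, Valued.v E = exp (2 * m)) ∧ ∀ j, Valued.v (x - e j) = 1) ∨
      ∃ j, ∀ k, k ≠ j → (sc (E * (x - e k)) : SC (v.adicCompletion K)) = sc (E * (e j - e k)) := by
  have hx' : ∀ j, x - e j ≠ 0 := fun j => sub_ne_zero.2 (hx j)
  rcases lt_or_ge 1 (Valued.v x) with hlt | hle
  · left
    have hx0 : x ≠ 0 := by
      rintro rfl
      rw [map_zero] at hlt
      exact absurd hlt (not_lt.2 zero_le_one)
    have h3 : ∀ j, ∃ r : v.adicCompletion K, r ≠ 0 ∧ x - e j = x * r ^ 2 := by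
      intro j
      refine near_sq hv ?_
      rw [sub_sub_cancel_left, Valuation.map_neg]
      exact lt_of_le_of_lt (h1 j) hlt
    choose r hr0 hr using h3
    obtain ⟨s, hs⟩ := hsq
    have h4 : IsSquare (E * x) := by
      refine ⟨s / (x * r 0 * r 1 * r 2), ?_⟩
      rw [hr, hr, hr] at hs
      have r0 := hr0 0
      have r1 := hr0 1
      have r2 := hr0 2
      field_simp
      linear_combination hs
    intro j
    rw [hr, sc_eq_zero (mul_ne_zero hE (mul_ne_zero hx0 (pow_ne_zero 2 (hr0 j))))]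
    obtain ⟨t, ht⟩ := h4
    exact ⟨t * r j, by linear_combination (r j) ^ 2 * ht⟩
  · have h3 : ∀ j, Valued.v (x - e j) ≤ 1 := fun j => Valuation.map_sub_le _ hle (h1 j)
    right
    by_cases h4 : ∀ j, Valued.v (x - e j) = 1
    · left
      refine ⟨?_, h4⟩
      obtain ⟨s, hs⟩ := hsq
      have h5 : Valued.v E = Valued.v s * Valued.v s := by
        have h6 := congrArg Valued.v hs
        rw [map_mul, map_mul, map_mul, map_mul, h4, h4, h4, mul_one, mul_one, mul_one] at h6
        exact h6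
      have hs0 : Valued.v s ≠ 0 := by
        intro h6
        rw [h6, mul_zero] at h5
        exact hE ((Valuation.zero_iff _).1 h5)
      exact ⟨log (Valued.v s), by rw [h5, two_mul, exp_add, exp_log hs0]⟩
    · right
      push Not at h4
      obtain ⟨j, hj⟩ := h4
      have hj' : Valued.v (x - e j) < 1 := lt_of_le_of_ne (h3 j) hj
      refine ⟨j, fun k hk => ?_⟩
      have hjk := h2 j k (Ne.symm hk)
      have h5 : Valued.v ((x - e k) - (e j - e k)) < Valued.v (e j - e k) := by
        rw [hjk, sub_sub_sub_cancel_right]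
        exact hj'
      obtain ⟨h6, h7⟩ := near_sc hv h5
      have h8 : e j - e k ≠ 0 := by
        intro h9
        rw [h9, map_zero] at hjk
        exact zero_ne_one hjk
      rw [sc_mul hE h6, sc_mul hE h8, h7]

end Three

end H30OR
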