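import Pool.Agent.H30.OR.Tb

/-!
# MP_78d38b_OD: the local data at a place with three roots
-/

set_option autoImplicit false
set_option linter.unusedSectionVars false
open scoped Classical

open WithZero NumberField IsDedekindDomain H38RT
open H38T1 (SC sc scu rep rep_ne sc_rep sc_mul sc_eq_zero sc_surj eo la si Pri OddP tp unif ka)
open H76PP H36MX H76MQ H30ZO

namespace H30OR

variable {K L : Type} [Field K] [NumberField K] [Field L] [NumberField L] [Algebra K L]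
  {v : HeightOneSpectrum (𝓞 K)} {a b : K} {θ : L}

/-- There are classes of square norm with given local components. -/
theorem surj3 (h : Cub K L a b θ) {e : Fin 3 → v.adicCompletion K}
    (hs : R3 (algebraMap K (v.adicCompletion K) a) (algebraMap K (v.adicCompletion K) b) e)
    (hv : OddP v) (h1 : ∀ j, Valued.v (e j) ≤ 1) (x z : SC (v.adicCompletion K)) :
    ∃ c ∈ HH K L, lc3 h _ hs 0 c = x ∧ lc3 h _ hs 2 c = z := by
  obtain ⟨x0, hx0, rfl⟩ := sc_surj x
  obtain ⟨z0, hz0, rfl⟩ := sc_surj z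
  have d01 : e 0 - e 1 ≠ 0 := sub_ne_zero.2 hs.ne01
  have d02 : e 0 - e 2 ≠ 0 := sub_ne_zero.2 hs.ne02
  have d12 : e 1 - e 2 ≠ 0 := sub_ne_zero.2 hs.ne12
  obtain ⟨δ, hδ⟩ : ∃ δ : v.adicCompletion K, (e 0 - e 1) * (e 0 - e 2) * (e 1 - e 2) * δ = 1 :=
    ⟨_, mul_inv_cancel₀ (mul_ne_zero (mul_ne_zero d01 d02) d12)⟩
  obtain ⟨y0, y1, y2, w0, w1, w2⟩ := Ta_lag hs.s1 hδ x0 (x0 * z0) z0
  obtain ⟨c, hc, c0, c1, c2⟩ : ∃ c : v.adicCompletion K, c ≠ 0 ∧ Valued.v c ≤ Valued.v x0 ∧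
      Valued.v c ≤ Valued.v (x0 * z0) ∧ Valued.v c ≤ Valued.v z0 := by
    have hxz := mul_ne_zero hx0 hz0
    rcases le_total (Valued.v x0) (Valued.v z0) with g1 | g1
    · rcases le_total (Valued.v x0) (Valued.v (x0 * z0)) with g2 | g2
      · exact ⟨x0, hx0, le_rfl, g2, g1⟩
      · exact ⟨x0 * z0, hxz, g2, le_rfl, g2.trans g1⟩
    · rcases le_total (Valued.v z0) (Valued.v (x0 * z0)) with g2 | g2
      · exact ⟨z0, hz0, g1, g2, le_rfl⟩
      · exact ⟨x0 * z0, hxz, g2.trans g1, le_rfl, g2⟩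
  obtain ⟨t0, u0⟩ := H36CY.near_coe v y0 hc
  obtain ⟨t1, u1⟩ := H36CY.near_coe v y1 hc
  obtain ⟨t2, u2⟩ := H36CY.near_coe v y2 hc
  have key : ∀ (j : Fin 3) (Z : v.adicCompletion K), y0 + y1 * e j + y2 * e j ^ 2 = Z →
      Valued.v c ≤ Valued.v Z → ∃ r : v.adicCompletion K, r ≠ 0 ∧
        algebraMap K (v.adicCompletion K) t0 + algebraMap K (v.adicCompletion K) t1 * e j +
          algebraMap K (v.adicCompletion K) t2 * e j ^ 2 = Z * r ^ 2 := by
    intro j Z hZ hcZ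
    refine near_sq hv (lt_of_lt_of_le ?_ hcZ)
    rw [← hZ]
    have e1 : algebraMap K (v.adicCompletion K) t0 + algebraMap K (v.adicCompletion K) t1 * e j +
          algebraMap K (v.adicCompletion K) t2 * e j ^ 2 - (y0 + y1 * e j + y2 * e j ^ 2) =
        (algebraMap K (v.adicCompletion K) t0 - y0) +
          (algebraMap K (v.adicCompletion K) t1 - y1) * e j +
          (algebraMap K (v.adicCompletion K) t2 - y2) * e j ^ 2 := by ring
    rw [e1]
    refine Valuation.map_add_lt _ (Valuation.map_add_lt _ u0 ?_) ?_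
    · rw [map_mul]
      exact mul_lt_of_lt_of_le_one u1 (h1 j)
    · rw [map_mul, map_pow]
      exact mul_lt_of_lt_of_le_one u2 (pow_le_one₀ zero_le (h1 j))
  obtain ⟨r0, k0, m0⟩ := key 0 x0 w0 c0
  obtain ⟨r1, k1, m1⟩ := key 1 (x0 * z0) w1 c1
  obtain ⟨r2, k2, m2⟩ := key 2 z0 w2 c2
  obtain ⟨y, hy⟩ : ∃ y : L, y = algebraMap K L t0 + algebraMap K L t1 * θ +
    algebraMap K L t2 * θ ^ 2 := ⟨_, rfl⟩
  obtain ⟨o0, o1, o2⟩ := h.co_mk' t0 t1 t2
  rw [← hy] at o0 o1 o2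
  have hrh : ∀ j, rh h (algebraMap K (v.adicCompletion K)) (hs.root j) y =
      algebraMap K (v.adicCompletion K) t0 + algebraMap K (v.adicCompletion K) t1 * e j +
          algebraMap K (v.adicCompletion K) t2 * e j ^ 2 := by
    intro j
    rw [rh_apply, o0, o1, o2]
  have hy0 : y ≠ 0 := by
    rintro h0
    have h2 := hrh 0
    rw [h0, map_zero, m0] at h2
    exact mul_ne_zero hx0 (pow_ne_zero 2 k0) h2.symm
  have hfin : Module.Finite K L := Module.Finite.of_basis h.basis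
  have hN0 : Algebra.norm K y ≠ 0 := by
    rw [Ne, Algebra.norm_eq_zero_iff]
    exact hy0
  have hN0' : algebraMap K L (Algebra.norm K y) ≠ 0 := (map_ne_zero _).2 hN0
  refine ⟨sc (y * algebraMap K L (Algebra.norm K y)), ?_, ?_, ?_⟩
  · rw [H30ZO.mem_HH (mul_ne_zero hy0 hN0'), map_mul, Algebra.norm_algebraMap, h.finrank]
    exact ⟨Algebra.norm K y ^ 2, by ring⟩
  · have hsq : IsSquare (algebraMap K (v.adicCompletion K) (Algebra.norm K y)) := by
      rw [← norm_prod3 h _ hs y, hrh, hrh, hrh, m0, m1, m2]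
      exact ⟨x0 * z0 * r0 * r1 * r2, by ring⟩
    rw [lc3_sc _ _ _ _ (mul_ne_zero hy0 hN0'), map_mul, rh_algebraMap, hrh, m0,
      sc_mul (mul_ne_zero hx0 (pow_ne_zero 2 k0)) ((map_ne_zero _).2 hN0),
      (sc_eq_zero ((map_ne_zero _).2 hN0)).2 hsq, add_zero, sc_mul hx0 (pow_ne_zero 2 k0),
      (sc_eq_zero (pow_ne_zero 2 k0)).2 ⟨r0, sq r0⟩, add_zero]
  · have hsq : IsSquare (algebraMap K (v.adicCompletion K) (Algebra.norm K y)) := by
      rw [← norm_prod3 h _ hs y, hrh, hrh, hrh, m0, m1, m2]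
      exact ⟨x0 * z0 * r0 * r1 * r2, by ring⟩
    rw [lc3_sc _ _ _ _ (mul_ne_zero hy0 hN0'), map_mul, rh_algebraMap, hrh, m2,
      sc_mul (mul_ne_zero hz0 (pow_ne_zero 2 k2)) ((map_ne_zero _).2 hN0),
      (sc_eq_zero ((map_ne_zero _).2 hN0)).2 hsq, add_zero, sc_mul hz0 (pow_ne_zero 2 k2),
      (sc_eq_zero (pow_ne_zero 2 k2)).2 ⟨r2, sq r2⟩, add_zero]

/-- The symbol of the conic in terms of the local classes. -/
theorem conq3 (h : Cub K L a b θ) {e : Fin 3 → v.adicCompletion K}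
    (hs : R3 (algebraMap K (v.adicCompletion K) a) (algebraMap K (v.adicCompletion K) b) e)
    {y : L} (hy : y ≠ 0) (hN : sc y ∈ HH K L) (ha : al h y ≠ 0) (hb : be h y ≠ 0) :
    hsv v (al h y) (be h y) =
      hsc (lc3 h _ hs 0 (sc y) + sc ((e 0 - e 1) * (e 0 - e 2)))
        (lc3 h _ hs 2 (sc y) + sc ((e 2 - e 0) * (e 2 - e 1))) := by
  have hi : ∀ j, rh h (algebraMap K (v.adicCompletion K)) (hs.root j) y ≠ 0 := fun j =>
    (map_ne_zero _).2 hy
  have d01 : e 0 - e 1 ≠ 0 := sub_ne_zero.2 hs.ne01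
  have d02 : e 0 - e 2 ≠ 0 := sub_ne_zero.2 hs.ne02
  have d20 : e 2 - e 0 ≠ 0 := sub_ne_zero.2 hs.ne02.symm
  have d21 : e 2 - e 1 ≠ 0 := sub_ne_zero.2 hs.ne12.symm
  rw [H30ZO.mem_HH hy] at hN
  rw [lc3_sc h _ hs 0 hy, lc3_sc h _ hs 2 hy, ← sc_mul (hi 0) (mul_ne_zero d01 d02),
    ← sc_mul (hi 2) (mul_ne_zero d20 d21),
    hsc_sc (mul_ne_zero (hi 0) (mul_ne_zero d01 d02)) (mul_ne_zero (hi 2) (mul_ne_zero d20 d21))]
  have h2 : (2 : v.adicCompletion K) ≠ 0 := by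
    have h3 : (algebraMap K (v.adicCompletion K)) 2 ≠ 0 := (map_ne_zero _).2 two_ne_zero
    rwa [map_ofNat] at h3
  have hN' : IsSquare (algebraMap K (v.adicCompletion K) (Algebra.norm K y)) := hN.map _
  rw [← norm_prod3 h _ hs y] at hN'
  have ha' : algebraMap K (v.adicCompletion K) (h.co 2 y) ≠ 0 := (map_ne_zero _).2 ha
  have hb' : algebraMap K (v.adicCompletion K) (be h y) ≠ 0 := (map_ne_zero _).2 hb
  have e1 : algebraMap K (v.adicCompletion K) (be h y) =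
      algebraMap K (v.adicCompletion K) (h.co 1 y) ^ 2 -
      algebraMap K (v.adicCompletion K) (h.co 0 y) *
      algebraMap K (v.adicCompletion K) (h.co 2 y) +
      algebraMap K (v.adicCompletion K) a * algebraMap K (v.adicCompletion K) (h.co 2 y) ^ 2 := by
    unfold be
    simp only [map_add, map_sub, map_mul, map_pow]
  rw [e1] at hb'
  unfold hsv al
  rw [e1]
  exact conic3 h2 hs hi hN' ha' hb'

end H30OR
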