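import Pool.Agent.H30.OR.Tc
import Pool.Agent.H76.OD.Lt

/-!
# MP_78d38b_OD: the local data at a place with three roots (assembly)
-/

set_option autoImplicit false
set_option linter.unusedSectionVars false
open scoped Classical

open WithZero NumberField IsDedekindDomain H38RT
open H38T1 (SC sc scu rep rep_ne sc_rep sc_mul sc_eq_zero sc_surj eo la si Pri OddP tp unif ka)
open H76PP H36MX H76MQ H30ZO

namespace H30OR

variable {K L : Type} [Field K] [NumberField K] [Field L] [NumberField L] [Algebra K L]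
  {v : HeightOneSpectrum (𝓞 K)} {a b : K} {θ : L}

theorem add_self_SC {F : Type} [Field F] (z : SC F) : z + z = 0 := by
  have := H38T1.SC.two_smul z
  rwa [two_nsmul] at this

/-- The bound for the index. -/
theorem idx_W (h : Cub K L a b θ) (hv : OddP v) (ha : v.valuation K a ≤ 1)
    (hb : v.valuation K b ≤ 1) (hD0 : 4 * a ^ 3 + 27 * b ^ 2 ≠ 0) {E : K} (hE : E ≠ 0) :
    ∃ W : AddSubgroup (SC L), W ≤ HH K L ∧ (∀ c, c ∈ W ↔ c ∈ HH K L ∧
      Wc (algebraMap K (v.adicCompletion K)) (E ^ 2 * a) (E ^ 3 * b) (algebraMap K L E * θ) c) ∧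
      W.relIndex (HH K L) ≠ 0 ∧ 2 * W.relIndex (HH K L) ≤ 2 ^ nb K L v := by
  have _ : CharZero (v.adicCompletion K) := H36CY.char_zero v
  obtain ⟨W, hW⟩ := exists_WW (Tf_twist h hE) (algebraMap K (v.adicCompletion K)) (by
    intro e
    apply H76OD.Lt_dne hE hD0
    apply (algebraMap K (v.adicCompletion K)).injective
    rw [map_zero, map_add, map_mul, map_mul, map_pow, map_pow, map_ofNat, map_ofNat]
    exact e) (H24PD.inf_fin v _ _)
  obtain ⟨h0, h1⟩ := H30OD.loc_idx_tw h v ha hb hD0 hE hW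
  rw [qq_odd hv, mul_one] at h1
  exact ⟨W, fun c hc => ((hW c).1 hc).1, hW, h0, h1⟩

private theorem Td_if {V : Type} [AddCommGroup V] (B : V → V → ZMod 2) (hz : ∀ y, B 0 y = 0)
    (t : ZMod 2) (g y : V) : B (if t = 1 then g else 0) y = t * B g y := by
  by_cases ht : t = 1
  · rw [if_pos ht, ht, one_mul]
  · rw [if_neg ht, hz]
    have h0 : t = 0 := by
      revert ht
      revert t
      decide
    rw [h0, zero_mul]

theorem loc3 (h : Cub K L a b θ) (hv : OddP v) (ha : v.valuation K a ≤ 1)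
    (hb : v.valuation K b ≤ 1) (hd : v.valuation K (4 * a ^ 3 + 27 * b ^ 2) = 1)
    (hnb : nb K L v ≤ 3) {e : Fin 3 → v.adicCompletion K}
    (hs : R3 (algebraMap K (v.adicCompletion K) a) (algebraMap K (v.adicCompletion K) b) e)
    {D E : K} (hD : D ≠ 0) (hDe : Even (ord (v.valuation K) D)) (hE : E ≠ 0)
    (hEo : Odd (ord (v.valuation K) E)) :
    ∃ r u : Fin 2 → (SC L →+ ZMod 2), LocD h v D E r u := by
  obtain ⟨i, hi⟩ : ∃ i, i = algebraMap K (v.adicCompletion K) := ⟨_, rfl⟩
  have hF : HF (v.adicCompletion K) := (hilb K).hf v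
  have hcoe : ∀ x : K, Valued.v (algebraMap K (v.adicCompletion K) x) = v.valuation K x :=
    fun x => H36CY.val_coe v x
  -- the roots
  obtain ⟨h1, d01, d02, d12⟩ := diff_one hs (by rw [hcoe]; exact ha) (by rw [hcoe]; exact hb) (by
    have e1 : 4 * algebraMap K (v.adicCompletion K) a ^ 3 +
        27 * algebraMap K (v.adicCompletion K) b ^ 2 =
        algebraMap K (v.adicCompletion K) (4 * a ^ 3 + 27 * b ^ 2) := by
      rw [map_add, map_mul, map_mul, map_pow, map_pow, map_ofNat, map_ofNat]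
    rw [e1, hcoe]
    exact hd)
  have h2 : ∀ i j, i ≠ j → Valued.v (e i - e j) = 1 := by
    have hsw : ∀ i j, Valued.v (e i - e j) = 1 → Valued.v (e j - e i) = 1 := fun i j hij => by
      rw [Valuation.map_sub_swap]
      exact hij
    intro i j hij
    fin_cases i <;> fin_cases j
    · exact absurd rfl hij
    · exact d01
    · exact d02
    · exact hsw _ _ d01
    · exact absurd rfl hij
    · exact d12
    · exact hsw _ _ d02
    · exact hsw _ _ d12
    · exact absurd rfl hij
  have hne : ∀ i j, i ≠ j → e i - e j ≠ 0 := by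
    intro i j hij h0
    have h3 := h2 i j hij
    rw [h0, map_zero] at h3
    exact zero_ne_one h3
  -- the nonsquare unit
  obtain ⟨n₀, hn1, hn2, hn3⟩ := exists_la hv
  have hn0 : (n₀ : K) ≠ 0 := by
    intro h0
    apply hn1
    have h4 : n₀ = 0 := RingOfIntegers.coe_eq_zero_iff.1 h0
    rw [h4]
    exact v.asIdeal.zero_mem
  have hnsq := nsq_of_la hv hn0 hn3 hn2
  have hnv : Valued.v (algebraMap K (v.adicCompletion K) (n₀ : K)) = 1 := by
    rw [hcoe]
    exact (v.valuation_eq_one_iff_notMem (K := K) (r := n₀)).2 hn1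
  obtain ⟨n', hn'⟩ : ∃ n' : v.adicCompletion K, n' = algebraMap K (v.adicCompletion K) (n₀ : K) :=
    ⟨_, rfl⟩
  rw [← hn'] at hnsq hnv
  have hn'0 : n' ≠ 0 := by
    rintro rfl
    rw [map_zero] at hnv
    exact zero_ne_one hnv
  have hev : ∀ {y : v.adicCompletion K}, y ≠ 0 → (∃ m : ℤ, Valued.v y = exp (2 * m)) →
      hsc (sc y) (sc n') = 0 := by
    intro y hy hm
    rw [hsc_sc hy hn'0]
    exact (par_iff hv hnv hnsq hy).2 hm
  have hod : ∀ {y : v.adicCompletion K}, y ≠ 0 → (∃ m : ℤ, Valued.v y = exp (2 * m + 1)) →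
      hsc (sc y) (sc n') = 1 := by
    rintro y hy ⟨m, hm⟩
    rw [hsc_sc hy hn'0]
    have h3 : H36MX.hs y n' ≠ 0 := by
      intro h3
      obtain ⟨l, hl⟩ := (par_iff hv hnv hnsq hy).1 h3
      rw [hm, exp_inj] at hl
      omega
    have h4 : ∀ t : ZMod 2, t ≠ 0 → t = 1 := by decide
    exact h4 _ h3
  obtain ⟨n, hn⟩ : ∃ n : SC (v.adicCompletion K), n = sc n' := ⟨_, rfl⟩
  have h0 : ∀ x y : SC (v.adicCompletion K), hsc x n = 0 → hsc y n = 0 → hsc x y = 0 := by
    intro x y hx hy
    obtain ⟨x0, hx0, rfl⟩ := sc_surj x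
    obtain ⟨y0, hy0, rfl⟩ := sc_surj y
    rw [hn, hsc_sc hx0 hn'0] at hx
    rw [hn, hsc_sc hy0 hn'0] at hy
    obtain ⟨m, hm⟩ := (par_iff hv hnv hnsq hx0).1 hx
    obtain ⟨l, hl⟩ := (par_iff hv hnv hnsq hy0).1 hy
    rw [hsc_sc hx0 hy0]
    exact hs_even hv hm hl
  have hord : ∀ x : K, x ≠ 0 → Valued.v (algebraMap K (v.adicCompletion K) x) =
      exp (-(ord (v.valuation K) x)) := by
    intro x hx
    rw [hcoe]
    unfold ord
    rw [neg_neg, exp_log ((Valuation.ne_zero_iff _).2 hx)]
  obtain ⟨E', hE'⟩ : ∃ E' : v.adicCompletion K, E' = algebraMap K (v.adicCompletion K) E := ⟨_, rfl⟩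
  have hE'0 : E' ≠ 0 := by
    rw [hE']
    exact (map_ne_zero _).2 hE
  have hE'v : ∃ m : ℤ, Valued.v E' = exp (2 * m + 1) := by
    obtain ⟨m, hm⟩ := hEo
    exact ⟨-m - 1, by rw [hE', hord E hE, hm]; congr 1; ring⟩
  have hEd : ∀ i j, i ≠ j → ∃ m : ℤ, Valued.v (E' * (e i - e j)) = exp (2 * m + 1) := by
    intro i j hij
    obtain ⟨m, hm⟩ := hE'v
    exact ⟨m, by rw [map_mul, h2 i j hij, mul_one, hm]⟩
  obtain ⟨g, hg⟩ : ∃ g : SC (v.adicCompletion K), g = sc (E' * (e 0 - e 2)) := ⟨_, rfl⟩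
  obtain ⟨g', hg'⟩ : ∃ g' : SC (v.adicCompletion K), g' = sc (E' * (e 2 - e 0)) := ⟨_, rfl⟩
  obtain ⟨f0, hf0⟩ : ∃ f : SC (v.adicCompletion K), f = sc ((e 0 - e 1) * (e 0 - e 2)) := ⟨_, rfl⟩
  obtain ⟨f2, hf2⟩ : ∃ f : SC (v.adicCompletion K), f = sc ((e 2 - e 0) * (e 2 - e 1)) := ⟨_, rfl⟩
  have q02 := hne 0 2 (by decide)
  have q20 := hne 2 0 (by decide)
  have q01 := hne 0 1 (by decide)
  have q10 := hne 1 0 (by decide)
  have q12 := hne 1 2 (by decide)
  have q21 := hne 2 1 (by decide)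
  have hgn : hsc g n = 1 := by
    rw [hg, hn]
    exact hod (mul_ne_zero hE'0 q02) (hEd 0 2 (by decide))
  have hgn' : hsc g' n = 1 := by
    rw [hg', hn]
    exact hod (mul_ne_zero hE'0 q20) (hEd 2 0 (by decide))
  have hgg : hsc g g' = 0 := by
    rw [hg, hg', hsc_sc (mul_ne_zero hE'0 q02) (mul_ne_zero hE'0 q20)]
    have e1 : E' * (e 2 - e 0) = -(E' * (e 0 - e 2)) := by ring
    rw [e1]
    exact hs_neg hF.two (mul_ne_zero hE'0 q02)
  have hf0n : hsc f0 n = 0 := by
    rw [hf0, hn]
    refine hev (mul_ne_zero q01 q02) ⟨0, ?_⟩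
    rw [map_mul, h2 0 1 (by decide), h2 0 2 (by decide), mul_one, mul_zero, exp_zero]
  have hf2n : hsc f2 n = 0 := by
    rw [hf2, hn]
    refine hev (mul_ne_zero q20 q21) ⟨0, ?_⟩
    rw [map_mul, h2 2 0 (by decide), h2 2 1 (by decide), mul_one, mul_zero, exp_zero]
  have hnn : hsc n n = 0 := by
    rw [hn]
    exact hev hn'0 ⟨0, by rw [hnv, mul_zero, exp_zero]⟩
  have hadd := hsc_add_left hF
  -- the functionals
  obtain ⟨R0, hR0⟩ : ∃ R : SC L →+ ZMod 2, ∀ c, R c = hsc (lc3 h _ hs 0 c) n :=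
    ⟨AddMonoidHom.mk' (fun c => hsc (lc3 h _ hs 0 c) n) (fun c c' => by rw [map_add, hadd]),
      fun _ => rfl⟩
  obtain ⟨R1, hR1⟩ : ∃ R : SC L →+ ZMod 2, ∀ c, R c = hsc (lc3 h _ hs 2 c) n :=
    ⟨AddMonoidHom.mk' (fun c => hsc (lc3 h _ hs 2 c) n) (fun c c' => by rw [map_add, hadd]),
      fun _ => rfl⟩
  obtain ⟨U0, hU0⟩ : ∃ R : SC L →+ ZMod 2, ∀ c, R c =
      hsc (lc3 h _ hs 2 c) g' + hsc f2 g' * hsc (lc3 h _ hs 0 c) n :=
    ⟨AddMonoidHom.mk' (fun c => hsc (lc3 h _ hs 2 c) g' + hsc f2 g' * hsc (lc3 h _ hs 0 c) n)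
      (fun c c' => by rw [map_add, map_add, hadd, hadd]; ring), fun _ => rfl⟩
  obtain ⟨U1, hU1⟩ : ∃ R : SC L →+ ZMod 2, ∀ c, R c =
      hsc (lc3 h _ hs 0 c) g + hsc f0 g * hsc (lc3 h _ hs 2 c) n :=
    ⟨AddMonoidHom.mk' (fun c => hsc (lc3 h _ hs 0 c) g + hsc f0 g * hsc (lc3 h _ hs 2 c) n)
      (fun c c' => by rw [map_add, map_add, hadd, hadd]; ring), fun _ => rfl⟩
  have hD0 : 4 * a ^ 3 + 27 * b ^ 2 ≠ 0 := by
    intro h3
    rw [h3, map_zero] at hd
    exact zero_ne_one hd
  have hpow : 2 ^ nb K L v ≤ 2 ^ 3 := Nat.pow_le_pow_right (by norm_num) hnb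
  have hz : ∀ y : SC (v.adicCompletion K), hsc 0 y = 0 := hsc_zero_left
  have h2t : ∀ t : ZMod 2, t + t = 0 := by decide
  refine ⟨![R0, R1], ![U0, U1], ?_, ?_, ?_⟩
  · -- the condition of the twist by `D`
    obtain ⟨W, hWH, hW, hW0, hW1⟩ := idx_W h hv ha hb hD0 hD
    intro c hc
    have key : c ∈ W ↔ ∀ i, (![R0, R1] : Fin 2 → (SC L →+ ZMod 2)) i c = 0 := by
      refine idx_eq hWH _ ?_ ?_ hW0 ?_ hc
      · intro c hcW
        obtain ⟨hcH, hcW'⟩ := (hW c).1 hcW
        obtain ⟨x, hx, hsq, hcl⟩ := kum3 h _ hs hD hcW'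
        have hD'0 : algebraMap K (v.adicCompletion K) D ≠ 0 := (map_ne_zero _).2 hD
        have hDv : ∃ m : ℤ, Valued.v (algebraMap K (v.adicCompletion K) D) = exp (2 * m) := by
          obtain ⟨m, hm⟩ := hDe
          exact ⟨-m, by rw [hord D hD, hm]; congr 1; ring⟩
        have hDd : ∀ y : v.adicCompletion K, Valued.v y = 1 →
            hsc (sc (algebraMap K (v.adicCompletion K) D * y)) n = 0 := by
          intro y hy
          have hy0 : y ≠ 0 := by
            rintro rfl
            rw [map_zero] at hy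
            exact zero_ne_one hy
          rw [hn]
          refine hev (mul_ne_zero hD'0 hy0) ?_
          obtain ⟨m, hm⟩ := hDv
          exact ⟨m, by rw [map_mul, hy, mul_one, hm]⟩
        have hsum := lc3_sum h _ hs hcH
        have hboth : hsc (lc3 h _ hs 0 c) n = 0 ∧ hsc (lc3 h _ hs 2 c) n = 0 := by
          rcases cls3 hv h1 h2 hD'0 hx hsq with h3 | ⟨-, h3⟩ | ⟨j, h3⟩
          · rw [hcl, hcl, h3, h3]
            exact ⟨hz _, hz _⟩
          · rw [hcl, hcl]
            exact ⟨hDd _ (h3 0), hDd _ (h3 2)⟩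
          · have h4 : ∀ k, k ≠ j → hsc (lc3 h _ hs k c) n = 0 := by
              intro k hk
              rw [hcl, h3 k hk]
              exact hDd _ (h2 j k (Ne.symm hk))
            fin_cases j
            · have h5 := h4 1 (by decide)
              have h6 := h4 2 (by decide)
              rw [hsum, hadd, h6, add_zero] at h5
              exact ⟨h5, h6⟩
            · exact ⟨h4 0 (by decide), h4 2 (by decide)⟩
            · have h5 := h4 1 (by decide)
              have h6 := h4 0 (by decide)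
              rw [hsum, hadd, h6, zero_add] at h5
              exact ⟨h6, h5⟩
        intro i
        fin_cases i
        · exact (hR0 c).trans hboth.1
        · exact (hR1 c).trans hboth.2
      · intro z
        obtain ⟨c, hc, hc0, hc2⟩ := surj3 h hs hv h1 (if z 0 = 1 then g else 0)
          (if z 1 = 1 then g else 0)
        refine ⟨c, hc, fun i => ?_⟩
        fin_cases i
        · refine (hR0 c).trans ?_
          rw [hc0, Td_if hsc hz, hgn, mul_one]
          rfl
        · refine (hR1 c).trans ?_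
          rw [hc2, Td_if hsc hz, hgn, mul_one]
          rfl
      · rw [Fintype.card_fin]
        omega
    rw [← key, hW c]
    exact ⟨fun h3 => ⟨hc, h3⟩, fun h3 => h3.2⟩
  · -- the condition of the twist by `E`
    obtain ⟨W, hWH, hW, hW0, hW1⟩ := idx_W h hv ha hb hD0 hE
    intro c hc
    have key : c ∈ W ↔ ∀ i, (![U0, U1] : Fin 2 → (SC L →+ ZMod 2)) i c = 0 := by
      refine idx_eq hWH _ ?_ ?_ hW0 ?_ hc
      · intro c hcW
        obtain ⟨hcH, hcW'⟩ := (hW c).1 hcW
        obtain ⟨x, hx, hsq, hcl⟩ := kum3 h _ hs hE hcW'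
        rw [← hE'] at hsq hcl
        have hsum := lc3_sum h _ hs hcH
        have hsw : ∀ {p q : v.adicCompletion K}, p ≠ 0 → q ≠ 0 →
            (sc (E' * p) : SC (v.adicCompletion K)) + sc (E' * q) = sc (p * q) := by
          intro p q hp hq
          rw [sc_mul hE'0 hp, sc_mul hE'0 hq, sc_mul hp hq]
          have e1 : (sc E' + sc p + (sc E' + sc q) : SC (v.adicCompletion K)) =
            (sc E' + sc E') + (sc p + sc q) := by abel
          rw [e1, add_self_SC, zero_add]
        have hboth : hsc (lc3 h _ hs 2 c) g' + hsc f2 g' * hsc (lc3 h _ hs 0 c) n = 0 ∧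
            hsc (lc3 h _ hs 0 c) g + hsc f0 g * hsc (lc3 h _ hs 2 c) n = 0 := by
          rcases cls3 hv h1 h2 hE'0 hx hsq with h3 | ⟨⟨m, hm⟩, -⟩ | ⟨j, h3⟩
          · rw [hcl, hcl, h3, h3]
            rw [hz, hz, hz, mul_zero, mul_zero, add_zero]
            exact ⟨rfl, rfl⟩
          · exfalso
            obtain ⟨l, hl⟩ := hE'v
            rw [hm, exp_inj] at hl
            omega
          · have h4 : ∀ k, k ≠ j → lc3 h _ hs k c = sc (E' * (e j - e k)) := by
              intro k hk
              rw [hcl, h3 k hk]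
            fin_cases j
            · have h5 : lc3 h _ hs 1 c = sc (E' * (e 0 - e 1)) := h4 1 (by decide)
              have h6 : lc3 h _ hs 2 c = sc (E' * (e 0 - e 2)) := h4 2 (by decide)
              have h7 : lc3 h _ hs 0 c = f0 := by
                have e1 : lc3 h _ hs 0 c = lc3 h _ hs 1 c + lc3 h _ hs 2 c := by
                  rw [hsum, add_assoc, add_self_SC, add_zero]
                rw [e1, h5, h6, hsw q01 q02, hf0]
              rw [← hg] at h6
              rw [h6, h7, hgg, hf0n, hgn, mul_zero, mul_one, add_zero]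
              exact ⟨rfl, h2t _⟩
            · have h5 : lc3 h _ hs 0 c = sc (E' * (e 1 - e 0)) := h4 0 (by decide)
              have h6 : lc3 h _ hs 2 c = sc (E' * (e 1 - e 2)) := h4 2 (by decide)
              have hm1 : ∀ {p : v.adicCompletion K}, p ≠ 0 →
                  (sc (-p) : SC (v.adicCompletion K)) = sc (-1) + sc p := by
                intro p hp
                have e1 : -p = (-1) * p := by ring
                rw [e1, sc_mul (neg_ne_zero.2 one_ne_zero) hp]
              have h7 : lc3 h _ hs 0 c = g' + f0 := by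
                rw [h5, hg', hf0, sc_mul hE'0 q10, sc_mul hE'0 q20, sc_mul q01 q02]
                have e1 : e 1 - e 0 = -(e 0 - e 1) := by ring
                have e2 : e 2 - e 0 = -(e 0 - e 2) := by ring
                rw [e1, e2, hm1 q01, hm1 q02]
                have e3 : (sc E' + (sc (-1) + sc (e 0 - e 2)) +
                    (sc (e 0 - e 1) + sc (e 0 - e 2)) : SC (v.adicCompletion K)) =
                    sc E' + (sc (-1) + sc (e 0 - e 1)) +
                      (sc (e 0 - e 2) + sc (e 0 - e 2)) := by abel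
                rw [e3, add_self_SC, add_zero]
              have h8 : lc3 h _ hs 2 c = g + f2 := by
                rw [h6, hg, hf2, sc_mul hE'0 q12, sc_mul hE'0 q02, sc_mul q20 q21]
                have e1 : e 1 - e 2 = -(e 2 - e 1) := by ring
                have e2 : e 2 - e 0 = -(e 0 - e 2) := by ring
                rw [e1, e2, hm1 q21, hm1 q02]
                have e3 : (sc E' + sc (e 0 - e 2) +
                    (sc (-1) + sc (e 0 - e 2) + sc (e 2 - e 1)) : SC (v.adicCompletion K)) =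
                    sc E' + (sc (-1) + sc (e 2 - e 1)) +
                      (sc (e 0 - e 2) + sc (e 0 - e 2)) := by abel
                rw [e3, add_self_SC, add_zero]
              rw [h7, h8, hadd, hadd, hadd, hadd, hgg, hsc_comm g' g, hgg, hgn, hgn', hf0n, hf2n,
                zero_add, zero_add, add_zero, mul_one, mul_one]
              exact ⟨h2t _, h2t _⟩
            · have h5 : lc3 h _ hs 0 c = sc (E' * (e 2 - e 0)) := h4 0 (by decide)
              have h6 : lc3 h _ hs 1 c = sc (E' * (e 2 - e 1)) := h4 1 (by decide)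
              have h7 : lc3 h _ hs 2 c = f2 := by
                have e1 : lc3 h _ hs 2 c = lc3 h _ hs 0 c + lc3 h _ hs 1 c := by
                  rw [hsum, ← add_assoc, add_self_SC, zero_add]
                rw [e1, h5, h6, hsw q20 q21, hf2]
              rw [← hg'] at h5
              rw [h5, h7, hsc_comm g' g, hgg, hf2n, hgn', mul_zero, mul_one, add_zero]
              exact ⟨h2t _, rfl⟩
        intro i
        fin_cases i
        · exact (hU0 c).trans hboth.1
        · exact (hU1 c).trans hboth.2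
      · intro z
        obtain ⟨c, hc, hc0, hc2⟩ := surj3 h hs hv h1 (if z 1 = 1 then n else 0)
          (if z 0 = 1 then n else 0)
        refine ⟨c, hc, fun i => ?_⟩
        fin_cases i
        · refine (hU0 c).trans ?_
          rw [hc0, hc2, Td_if hsc hz, Td_if hsc hz, hnn, mul_zero, mul_zero, add_zero,
            hsc_comm n g', hgn', mul_one]
          rfl
        · refine (hU1 c).trans ?_
          rw [hc0, hc2, Td_if hsc hz, Td_if hsc hz, hnn, mul_zero, mul_zero, add_zero,
            hsc_comm n g, hgn, mul_one]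
          rfl
      · rw [Fintype.card_fin]
        omega
    rw [← key, hW c]
    exact ⟨fun h3 => ⟨hc, h3⟩, fun h3 => h3.2⟩
  · -- the symbol
    intro c hc y hy hyc hal hbe
    have h3 := conq3 h hs hy (by rw [hyc]; exact hc) hal hbe
    rw [h3, hyc, Fin.sum_univ_two, ← hf0, ← hf2,
      bil3 hsc hadd hsc_comm h0 hgn hgn' hgg hf0n hf2n]
    change _ = R0 c * U0 c + R1 c * U1 c
    rw [hR0, hR1, hU0, hU1]

end H30OR
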