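import Pool.Agent.H30.OR.Td
import Pool.Agent.H76.MQ.Tt
import Pool.Agent.H36.MX.Br

/-!
# MP_78d38b_OD: the roots and the number of places
-/

set_option autoImplicit false
set_option linter.unusedSectionVars false
open scoped Classical

open WithZero NumberField IsDedekindDomain H38RT
open H38T1 (SC sc scu rep rep_ne sc_rep sc_mul sc_eq_zero sc_surj eo la si Pri OddP tp unif ka)
open H76PP H36MX H76MQ H30ZO

namespace H30OR

section Count

variable {k L : Type} [Field k] [NumberField k] [Field L] [NumberField L] [Algebra k L]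

private theorem Te_Nv (w : HeightOneSpectrum (𝓞 L)) :
    Nv w = Nv (dn k w) ^ (w.asIdeal.inertiaDeg (𝓞 k)) := by
  have h1 : w.asIdeal.IsMaximal := w.isMaximal
  have h2 : (dn k w).asIdeal.IsMaximal := (dn k w).isMaximal
  have h3 : w.asIdeal.LiesOver (dn k w).asIdeal := ⟨rfl⟩
  have h4 : Ideal.relNorm (𝓞 k) w.asIdeal = (dn k w).asIdeal ^ (w.asIdeal.inertiaDeg (𝓞 k)) :=
    Ideal.relNorm_eq_pow_of_isMaximal w.asIdeal (dn k w).asIdeal
  have h5 := Ideal.absNorm_relNorm (R := 𝓞 k) (S := 𝓞 L) w.asIdeal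
  rw [h4, map_pow] at h5
  exact h5.symm

private theorem Te_f (w : HeightOneSpectrum (𝓞 L)) : 1 ≤ w.asIdeal.inertiaDeg (𝓞 k) := by
  rw [Nat.one_le_iff_ne_zero]
  intro h
  have h1 := Te_Nv (k := k) w
  rw [h, pow_zero, Nv, Ideal.absNorm_eq_one_iff] at h1
  exact w.isPrime.ne_top h1

/-- At most three places. -/
theorem nb_le3 {a b : k} {θ : L} (h : Cub k L a b θ) (v : HeightOneSpectrum (𝓞 k)) :
    nb k L v ≤ 3 := by
  obtain ⟨ϖ, hϖ⟩ := v.valuation_exists_uniformizer k
  have hϖ0 : ϖ ≠ 0 := by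
    rintro rfl
    rw [map_zero] at hϖ
    exact absurd hϖ.symm exp_ne_zero
  have hord : ord (v.valuation k) ϖ = 1 := by
    rw [ord, hϖ, log_exp]
    rfl
  have hL0 : algebraMap k L ϖ ≠ 0 := fun h0 =>
    hϖ0 ((algebraMap k L).injective (by rw [h0, map_zero]))
  have hfr : Module.finrank k L = 3 := h.finrank
  have hn : Algebra.norm k (algebraMap k L ϖ) = ϖ ^ 3 := by
    rw [Algebra.norm_algebraMap, hfr]
  have h1 := ord_norm (K := k) (L := L) v hL0
  have h0 : ∑ᶠ w : {w : HeightOneSpectrum (𝓞 L) // dn k w = v},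
        (w.1.asIdeal.inertiaDeg (𝓞 k) : ℤ) * ord (w.1.valuation L) (algebraMap k L ϖ) =
      ∑ w ∈ (fin_above (L := L) v).toFinset,
        (w.asIdeal.inertiaDeg (𝓞 k) : ℤ) * ord (w.valuation L) (algebraMap k L ϖ) := by
    rw [← finsum_mem_eq_finite_toFinset_sum (fun w : HeightOneSpectrum (𝓞 L) =>
      (w.asIdeal.inertiaDeg (𝓞 k) : ℤ) * ord (w.valuation L) (algebraMap k L ϖ))
      (fin_above (L := L) v)]
    exact finsum_set_coe_eq_finsum_mem {w : HeightOneSpectrum (𝓞 L) | dn k w = v}
      (f := fun w => (w.asIdeal.inertiaDeg (𝓞 k) : ℤ) * ord (w.valuation L) (algebraMap k L ϖ))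
  have h3 : ord (v.valuation k) (ϖ ^ 3) = 3 := by
    have e1 : ϖ ^ 3 = ϖ * (ϖ * ϖ) := by ring
    rw [e1, ord_mul hϖ0 (mul_ne_zero hϖ0 hϖ0), ord_mul hϖ0 hϖ0, hord]
    norm_num
  rw [h0, hn, h3] at h1
  obtain ⟨S, hS⟩ : ∃ S, S = (fin_above (L := L) v).toFinset := ⟨_, rfl⟩
  rw [← hS] at h1
  have hnb : nb k L v = S.card := by
    rw [H30ZO.nb, hS, Set.ncard_eq_toFinset_card _ (fin_above (L := L) v)]
  have hmem : ∀ w ∈ S, dn k w = v := by
    intro w hw
    rw [hS] at hw
    have hw' := (Set.Finite.mem_toFinset _).1 hw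
    exact hw'
  have hE : ∀ w ∈ S, 1 ≤ ord (w.valuation L) (algebraMap k L ϖ) ∧
      (ord (w.valuation L) (algebraMap k L ϖ) = 1 →
        ∀ x : k, w.valuation L (algebraMap k L x) = v.valuation k x) := by
    intro w hw
    obtain ⟨e, he, h4⟩ := ord_dn (K := k) w
    rw [hmem w hw] at h4
    have h5 := h4 ϖ hϖ0
    rw [hord, mul_one] at h5
    refine ⟨by rw [h5]; exact_mod_cast he, ?_⟩
    intro h6 x
    rw [h5] at h6
    by_cases hx : x = 0
    · rw [hx, map_zero, map_zero, map_zero]
    have hx' : algebraMap k L x ≠ 0 := fun h0 =>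
      hx ((algebraMap k L).injective (by rw [h0, map_zero]))
    have h7 := h4 x hx
    rw [h6, one_mul, ord, ord, neg_inj] at h7
    rw [← exp_log ((Valuation.ne_zero_iff (w.valuation L)).2 hx'), h7,
      exp_log ((Valuation.ne_zero_iff (v.valuation k)).2 hx)]
  have hfe : ∀ w ∈ S, (1 : ℤ) ≤ (w.asIdeal.inertiaDeg (𝓞 k) : ℤ) *
      ord (w.valuation L) (algebraMap k L ϖ) := by
    intro w hw
    have e1 : (1 : ℤ) ≤ (w.asIdeal.inertiaDeg (𝓞 k) : ℤ) := by exact_mod_cast Te_f (k := k) w
    have e2 := (hE w hw).1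
    nlinarith
  rw [hnb]
  · have h4 : ∑ w ∈ S, (1 : ℤ) ≤ ∑ w ∈ S, (w.asIdeal.inertiaDeg (𝓞 k) : ℤ) *
        ord (w.valuation L) (algebraMap k L ϖ) := Finset.sum_le_sum hfe
    rw [← h1, Finset.sum_const, nsmul_eq_mul, mul_one] at h4
    exact_mod_cast h4

end Count

variable {K L : Type} [Field K] [NumberField K] [Field L] [NumberField L] [Algebra K L]
  {v : HeightOneSpectrum (𝓞 K)} {θ : L}

theorem nb_ge1 (K L : Type) [Field K] [NumberField K] [Field L] [NumberField L] [Algebra K L]
    (v : HeightOneSpectrum (𝓞 K)) : 1 ≤ nb K L v := by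
  obtain ⟨w, hw⟩ := H76PP.exists_above (L := L) v
  unfold H30ZO.nb
  rw [Nat.one_le_iff_ne_zero, Ne, Set.ncard_eq_zero (fin_above v)]
  intro h
  have : w ∈ ({w : HeightOneSpectrum (𝓞 L) | dn K w = v} : Set _) := hw
  rw [h] at this
  exact this

/-- If there are three roots then there are three places. -/
theorem nb_eq3 {A B : 𝓞 K} (h : Cub K L (A : K) (B : K) θ)
    (hd : v.valuation K (4 * (A : K) ^ 3 + 27 * (B : K) ^ 2) = 1) {e : Fin 3 → v.adicCompletion K}
    (hs : R3 (algebraMap K (v.adicCompletion K) (A : K)) (algebraMap K (v.adicCompletion K) (B : K)) e) :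
    nb K L v = 3 := by
  have hcoe : ∀ x : K, Valued.v (algebraMap K (v.adicCompletion K) x) = v.valuation K x :=
    fun x => H36CY.val_coe v x
  have hA : v.valuation K (A : K) ≤ 1 := v.valuation_le_one A
  have hB : v.valuation K (B : K) ≤ 1 := v.valuation_le_one B
  obtain ⟨h1, d01, d02, d12⟩ := diff_one hs (by rw [hcoe]; exact hA) (by rw [hcoe]; exact hB) (by
    have e1 : 4 * algebraMap K (v.adicCompletion K) (A : K) ^ 3 +
        27 * algebraMap K (v.adicCompletion K) (B : K) ^ 2 =
        algebraMap K (v.adicCompletion K) (4 * (A : K) ^ 3 + 27 * (B : K) ^ 2) := by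
      rw [map_add, map_mul, map_mul, map_pow, map_pow, map_ofNat, map_ofNat]
    rw [e1, hcoe]
    exact hd)
  have hdsc : dsc A B ∉ v.asIdeal ^ 2 := by
    intro hm
    have h2 : dsc A B ∈ v.asIdeal := Ideal.pow_le_self two_ne_zero hm
    have h3 := (v.valuation_lt_one_iff_mem (K := K) _).2 h2
    have h4 : ((dsc A B : 𝓞 K) : K) = 4 * (A : K) ^ 3 + 27 * (B : K) ^ 2 := by
      change algebraMap (𝓞 K) K (dsc A B) = _
      unfold dsc
      simp only [map_add, map_mul, map_pow, map_ofNat]
    have h5 : v.valuation K (4 * (A : K) ^ 3 + 27 * (B : K) ^ 2) < 1 :=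
      lt_of_eq_of_lt (congrArg (v.valuation K) h4.symm) h3
    rw [hd] at h5
    exact lt_irrefl _ h5
  obtain ⟨θ', hθ'⟩ := theta_int h
  -- integers near the roots
  have hr : ∀ j, ∃ r : 𝓞 K, Valued.v (algebraMap K (v.adicCompletion K) (r : K) - e j) < 1 := by
    intro j
    obtain ⟨y, hy⟩ := H36CY.near_coe v (e j) (c := 1) one_ne_zero
    rw [map_one] at hy
    have hy1 : v.valuation K y ≤ 1 := by
      rw [← hcoe]
      have e1 : algebraMap K (v.adicCompletion K) y =
        (algebraMap K (v.adicCompletion K) y - e j) + e j := by ring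
      rw [e1]
      exact Valuation.map_add_le _ hy.le (h1 j)
    obtain ⟨r, hr⟩ := Tf_approx v hy1
    refine ⟨r, ?_⟩
    have e1 : algebraMap K (v.adicCompletion K) (r : K) - e j =
        (algebraMap K (v.adicCompletion K) y - e j) -
          algebraMap K (v.adicCompletion K) (y - (r : K)) := by
      rw [map_sub]
      ring
    rw [e1]
    refine Valuation.map_sub_lt _ hy ?_
    rw [hcoe]
    exact hr
  choose r hr using hr
  have hroot : ∀ j, r j ^ 3 + A * r j + B ∈ v.asIdeal := by
    intro j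
    rw [← v.valuation_lt_one_iff_mem (K := K), ← hcoe]
    have e1 : algebraMap K (v.adicCompletion K) (algebraMap (𝓞 K) K (r j ^ 3 + A * r j + B)) =
        (algebraMap K (v.adicCompletion K) (r j : K) - e j) *
          ((algebraMap K (v.adicCompletion K) (r j : K)) ^ 2 +
            algebraMap K (v.adicCompletion K) (r j : K) * e j + e j ^ 2 +
            algebraMap K (v.adicCompletion K) (A : K)) := by
      have e2 := hs.root j
      simp only [map_add, map_mul, map_pow]
      linear_combination e2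
    have hrv : Valued.v (algebraMap K (v.adicCompletion K) (r j : K)) ≤ 1 := by
      rw [hcoe]
      exact v.valuation_le_one _
    have hAv : Valued.v (algebraMap K (v.adicCompletion K) (A : K)) ≤ 1 := by
      rw [hcoe]
      exact hA
    rw [e1, map_mul]
    refine mul_lt_one_of_lt_of_le (hr j) ?_
    refine Valuation.map_add_le _ (Valuation.map_add_le _ (Valuation.map_add_le _ ?_ ?_) ?_) hAv
    · rw [map_pow]
      exact pow_le_one₀ zero_le hrv
    · rw [map_mul]
      exact mul_le_one₀ hrv zero_le (h1 j)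
    · rw [map_pow]
      exact pow_le_one₀ zero_le (h1 j)
  have hpl := fun j => Tt_place h hdsc hθ' (hroot j)
  choose w hw hwr using hpl
  have hdiff : ∀ i j, Valued.v (e i - e j) = 1 → w i ≠ w j := by
    intro i j hij hww
    have h2 := hwr i
    have h3 := hwr j
    rw [hww] at h2
    have h4 := (w j).asIdeal.sub_mem h2 h3
    rw [sub_sub_sub_cancel_right, ← map_sub] at h4
    have h5 : r i - r j ∈ v.asIdeal := by
      rw [← hw j]
      exact h4
    have h6 : Valued.v (algebraMap K (v.adicCompletion K) (algebraMap (𝓞 K) K (r i - r j))) < 1 := by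
      rw [hcoe]
      exact (v.valuation_lt_one_iff_mem (K := K) _).2 h5
    have e1 : e i - e j = algebraMap K (v.adicCompletion K) (algebraMap (𝓞 K) K (r i - r j)) -
        (algebraMap K (v.adicCompletion K) (r i : K) - e i) +
        (algebraMap K (v.adicCompletion K) (r j : K) - e j) := by
      rw [map_sub, map_sub]
      ring
    rw [e1] at hij
    have h7 := Valuation.map_add_lt _ (Valuation.map_sub_lt _ h6 (hr i)) (hr j)
    rw [hij] at h7
    exact lt_irrefl _ h7
  refine le_antisymm (nb_le3 h v) ?_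
  have h01 := hdiff 0 1 d01
  have h02 := hdiff 0 2 d02
  have h12 := hdiff 1 2 d12
  have hsub : (({w 0, w 1, w 2} : Finset (HeightOneSpectrum (𝓞 L))) : Set _) ⊆
      {u : HeightOneSpectrum (𝓞 L) | dn K u = v} := by
    intro u hu
    simp only [Finset.coe_insert, Finset.coe_singleton, Set.mem_insert_iff,
      Set.mem_singleton_iff] at hu
    rcases hu with rfl | rfl | rfl
    · exact hw 0
    · exact hw 1
    · exact hw 2
  have h3 := Set.ncard_le_ncard hsub (fin_above v)
  rw [Set.ncard_coe_finset] at h3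
  have h4 : ({w 0, w 1, w 2} : Finset (HeightOneSpectrum (𝓞 L))).card = 3 := by
    rw [Finset.card_insert_of_notMem, Finset.card_insert_of_notMem, Finset.card_singleton]
    · rw [Finset.mem_singleton]
      exact h12
    · rw [Finset.mem_insert, Finset.mem_singleton, not_or]
      exact ⟨h01, h02⟩
  rw [h4] at h3
  exact h3

/-- Three roots from one root and the square root of the discriminant of the quadratic factor. -/
theorem roots_of (hv : OddP v) {a b : K} (ha : v.valuation K a ≤ 1) (hb : v.valuation K b ≤ 1)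
    (hd : v.valuation K (4 * a ^ 3 + 27 * b ^ 2) = 1) {t s : K} (ht : v.valuation K t ≤ 1)
    (hf : v.valuation K (t ^ 3 + a * t + b) < 1)
    (hq : v.valuation K (-3 * t ^ 2 - 4 * a - s ^ 2) < 1) :
    ∃ e : Fin 3 → v.adicCompletion K,
      R3 (algebraMap K (v.adicCompletion K) a) (algebraMap K (v.adicCompletion K) b) e := by
  have _ := H36CY.char_zero v
  have hcoe : ∀ x : K, Valued.v (algebraMap K (v.adicCompletion K) x) = v.valuation K x :=
    fun x => H36CY.val_coe v x
  have hn : ∀ n : ℕ, v.valuation K (n : K) ≤ 1 := fun n => by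
    have h1 := H36CY.v_nat_le (F := v.adicCompletion K) n
    rw [← map_natCast (algebraMap K (v.adicCompletion K)), hcoe] at h1
    exact h1
  have n3 : v.valuation K 3 ≤ 1 := by exact_mod_cast hn 3
  have n4 : v.valuation K 4 ≤ 1 := by exact_mod_cast hn 4
  have n27 : v.valuation K 27 ≤ 1 := by exact_mod_cast hn 27
  have n54 : v.valuation K 54 ≤ 1 := by exact_mod_cast hn 54
  have t2 : v.valuation K (t ^ 2) ≤ 1 := by rw [map_pow]; exact pow_le_one₀ zero_le ht
  have t3 : v.valuation K (t ^ 3) ≤ 1 := by rw [map_pow]; exact pow_le_one₀ zero_le ht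
  have hat : v.valuation K (a * t) ≤ 1 := by rw [map_mul]; exact mul_le_one₀ ha zero_le ht
  -- the identity for the discriminant
  have hid : -(4 * a ^ 3 + 27 * b ^ 2) = (3 * t ^ 2 + a) ^ 2 * (-3 * t ^ 2 - 4 * a) +
      (t ^ 3 + a * t + b) * (-27 * (t ^ 3 + a * t + b) + 54 * (t ^ 3 + a * t)) := by ring
  have hle1 : v.valuation K (3 * t ^ 2 + a) ≤ 1 := by
    refine Valuation.map_add_le _ ?_ ha
    rw [map_mul]
    exact mul_le_one₀ n3 zero_le t2
  have hle2 : v.valuation K (-3 * t ^ 2 - 4 * a) ≤ 1 := by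
    refine Valuation.map_sub_le _ ?_ ?_
    · rw [neg_mul, Valuation.map_neg, map_mul]
      exact mul_le_one₀ n3 zero_le t2
    · rw [map_mul]
      exact mul_le_one₀ n4 zero_le ha
  have hsmall : v.valuation K ((t ^ 3 + a * t + b) *
      (-27 * (t ^ 3 + a * t + b) + 54 * (t ^ 3 + a * t))) < 1 := by
    rw [map_mul]
    refine mul_lt_one_of_lt_of_le hf (Valuation.map_add_le _ ?_ ?_)
    · rw [neg_mul, Valuation.map_neg, map_mul]
      exact mul_le_one₀ n27 zero_le hf.le
    · rw [map_mul]
      exact mul_le_one₀ n54 zero_le (Valuation.map_add_le _ t3 hat)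
  have hprod : v.valuation K ((3 * t ^ 2 + a) ^ 2 * (-3 * t ^ 2 - 4 * a)) = 1 := by
    have e1 : (3 * t ^ 2 + a) ^ 2 * (-3 * t ^ 2 - 4 * a) = -(4 * a ^ 3 + 27 * b ^ 2) -
      (t ^ 3 + a * t + b) * (-27 * (t ^ 3 + a * t + b) + 54 * (t ^ 3 + a * t)) := by
        rw [hid]
        ring
    rw [e1, Valuation.map_sub_eq_of_lt_left, Valuation.map_neg, hd]
    rw [Valuation.map_neg, hd]
    exact hsmall
  have hder : v.valuation K (3 * t ^ 2 + a) = 1 := by
    refine le_antisymm hle1 ?_
    rw [← hprod, map_mul, map_pow]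
    calc _ ≤ v.valuation K (3 * t ^ 2 + a) ^ 1 * 1 :=
          mul_le_mul' (pow_le_pow_right_of_le_one' hle1 (by norm_num)) hle2
      _ = _ := by rw [pow_one, mul_one]
  have hqu : v.valuation K (-3 * t ^ 2 - 4 * a) = 1 := by
    rw [map_mul, map_pow, hder, one_pow, one_mul] at hprod
    exact hprod
  obtain ⟨e0, he0, hen⟩ := Br_root (F := v.adicCompletion K)
    (a := algebraMap K (v.adicCompletion K) a) (b := algebraMap K (v.adicCompletion K) b)
    (r := algebraMap K (v.adicCompletion K) t) (by rw [hcoe]; exact ht) (by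
      have e1 : algebraMap K (v.adicCompletion K) t ^ 3 + algebraMap K (v.adicCompletion K) a *
          algebraMap K (v.adicCompletion K) t + algebraMap K (v.adicCompletion K) b =
          algebraMap K (v.adicCompletion K) (t ^ 3 + a * t + b) := by
        simp only [map_add, map_mul, map_pow]
      rw [e1, hcoe]
      exact hf) (by
      have e1 : 3 * algebraMap K (v.adicCompletion K) t ^ 2 + algebraMap K (v.adicCompletion K) a =
          algebraMap K (v.adicCompletion K) (3 * t ^ 2 + a) := by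
        simp only [map_add, map_mul, map_pow, map_ofNat]
      rw [e1, hcoe]
      exact hder)
  have hen' : Valued.v (e0 - algebraMap K (v.adicCompletion K) t) < 1 := by
    refine lt_of_le_of_lt hen ?_
    have e1 : algebraMap K (v.adicCompletion K) t ^ 3 + algebraMap K (v.adicCompletion K) a *
        algebraMap K (v.adicCompletion K) t + algebraMap K (v.adicCompletion K) b =
        algebraMap K (v.adicCompletion K) (t ^ 3 + a * t + b) := by
      simp only [map_add, map_mul, map_pow]
    rw [e1, hcoe]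
    exact hf
  have htv : Valued.v (algebraMap K (v.adicCompletion K) t) ≤ 1 := by rw [hcoe]; exact ht
  have he0v : Valued.v e0 ≤ 1 := by
    have e1 : e0 = (e0 - algebraMap K (v.adicCompletion K) t) +
      algebraMap K (v.adicCompletion K) t := by ring
    rw [e1]
    exact Valuation.map_add_le _ hen'.le htv
  have n3' : Valued.v (3 : v.adicCompletion K) ≤ 1 := by
    have := H36CY.v_nat_le (F := v.adicCompletion K) 3
    exact_mod_cast this
  have hdif2 : Valued.v (e0 ^ 2 - algebraMap K (v.adicCompletion K) t ^ 2) < 1 := by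
    have e1 : e0 ^ 2 - algebraMap K (v.adicCompletion K) t ^ 2 =
      (e0 - algebraMap K (v.adicCompletion K) t) * (e0 + algebraMap K (v.adicCompletion K) t) := by
        ring
    rw [e1, map_mul]
    exact mul_lt_one_of_lt_of_le hen' (Valuation.map_add_le _ he0v htv)
  -- the square root
  have hs1 : v.valuation K (s ^ 2) = 1 := by
    have e1 : s ^ 2 = (-3 * t ^ 2 - 4 * a) - (-3 * t ^ 2 - 4 * a - s ^ 2) := by ring
    rw [e1, Valuation.map_sub_eq_of_lt_left, hqu]
    rw [hqu]
    exact hq
  obtain ⟨ρ, hρ0, hρ⟩ := near_sq hv (y := -3 * e0 ^ 2 - 4 * algebraMap K (v.adicCompletion K) a)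
    (z := algebraMap K (v.adicCompletion K) (s ^ 2)) (by
      rw [hcoe, hs1]
      have e1 : -3 * e0 ^ 2 - 4 * algebraMap K (v.adicCompletion K) a -
          algebraMap K (v.adicCompletion K) (s ^ 2) =
          algebraMap K (v.adicCompletion K) (-3 * t ^ 2 - 4 * a - s ^ 2) -
            3 * (e0 ^ 2 - algebraMap K (v.adicCompletion K) t ^ 2) := by
        simp only [map_sub, map_mul, map_pow, map_neg, map_ofNat]
        ring
      rw [e1]
      refine Valuation.map_sub_lt _ (by rw [hcoe]; exact hq) ?_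
      rw [map_mul]
      rw [mul_comm]
      exact mul_lt_one_of_lt_of_le hdif2 n3')
  obtain ⟨σ, hσ⟩ : ∃ σ, σ = algebraMap K (v.adicCompletion K) s * ρ := ⟨_, rfl⟩
  have hσ2 : σ ^ 2 = -3 * e0 ^ 2 - 4 * algebraMap K (v.adicCompletion K) a := by
    rw [hρ, hσ, map_pow]
    ring
  have hs0 : s ≠ 0 := by
    rintro rfl
    rw [zero_pow two_ne_zero, map_zero] at hs1
    exact zero_ne_one hs1
  have hσ0 : σ ≠ 0 := by
    rw [hσ]
    exact mul_ne_zero ((map_ne_zero _).2 hs0) hρ0
  have hder' : 3 * e0 ^ 2 + algebraMap K (v.adicCompletion K) a ≠ 0 := by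
    intro h0
    have h1 : Valued.v (algebraMap K (v.adicCompletion K) (3 * t ^ 2 + a)) < 1 := by
      have e1 : algebraMap K (v.adicCompletion K) (3 * t ^ 2 + a) =
          (3 * e0 ^ 2 + algebraMap K (v.adicCompletion K) a) -
            3 * (e0 ^ 2 - algebraMap K (v.adicCompletion K) t ^ 2) := by
        simp only [map_add, map_mul, map_pow, map_ofNat]
        ring
      rw [e1, h0, zero_sub, Valuation.map_neg, map_mul]
      rw [mul_comm]
      exact mul_lt_one_of_lt_of_le hdif2 n3'
    rw [hcoe, hder] at h1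
    exact lt_irrefl _ h1
  have h2 : (2 : v.adicCompletion K) ≠ 0 := two_ne_zero
  obtain ⟨e1, he1⟩ : ∃ x, x = (-e0 - σ) / 2 := ⟨_, rfl⟩
  obtain ⟨e2, he2⟩ : ∃ x, x = (-e0 + σ) / 2 := ⟨_, rfl⟩
  have k1 : 2 * e1 = -e0 - σ := by rw [he1]; field_simp
  have k2 : 2 * e2 = -e0 + σ := by rw [he2]; field_simp
  have h4 : (4 : v.adicCompletion K) ≠ 0 := by norm_num
  have r1 : e1 ^ 3 + algebraMap K (v.adicCompletion K) a * e1 +
      algebraMap K (v.adicCompletion K) b = 0 := by
    have : 4 * (e1 ^ 3 + algebraMap K (v.adicCompletion K) a * e1 +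
      algebraMap K (v.adicCompletion K) b) = 0 := by
      linear_combination (4 * he0) + (e1 - e0) * (2 * e1 + e0 - σ) * k1 + (e1 - e0) * hσ2
    exact (mul_eq_zero.1 this).resolve_left h4
  have r2 : e2 ^ 3 + algebraMap K (v.adicCompletion K) a * e2 +
      algebraMap K (v.adicCompletion K) b = 0 := by
    have : 4 * (e2 ^ 3 + algebraMap K (v.adicCompletion K) a * e2 +
      algebraMap K (v.adicCompletion K) b) = 0 := by
      linear_combination (4 * he0) + (e2 - e0) * (2 * e2 + e0 + σ) * k2 + (e2 - e0) * hσ2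
    exact (mul_eq_zero.1 this).resolve_left h4
  have hkey : ∀ ε : v.adicCompletion K, ε ^ 2 = 1 → 3 * e0 ≠ ε * σ := by
    intro ε hε h5
    have h6 : 12 * (3 * e0 ^ 2 + algebraMap K (v.adicCompletion K) a) = 0 := by
      linear_combination 3 * (3 * e0 + ε * σ) * h5 + 3 * ε ^ 2 * hσ2 + 3 * (-3 * e0 ^ 2 - 4 * algebraMap K (v.adicCompletion K) a) * hε
    exact hder' ((mul_eq_zero.1 h6).resolve_left (by norm_num))
  refine ⟨![e0, e1, e2], R3.of_roots (fun i => ?_) ?_ ?_ ?_⟩
  · fin_cases i
    · exact he0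
    · exact r1
    · exact r2
  · change e0 ≠ e1
    intro h5
    refine hkey (-1) (by ring) ?_
    linear_combination k1 + 2 * h5
  · change e0 ≠ e2
    intro h5
    refine hkey 1 (by ring) ?_
    linear_combination k2 + 2 * h5
  · change e1 ≠ e2
    intro h5
    apply hσ0
    have h6 : 2 * σ = 0 := by linear_combination k1 - k2 - 2 * h5
    exact (mul_eq_zero.1 h6).resolve_left h2

end H30OR
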