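import Pool.Agent.H30.OR.Fq
import Pool.Agent.H30.OD.Vs
import Pool.Agent.H76.OD.Lt

/-!
# MP_78d38b_OD: the local data at all odd good places
-/

set_option autoImplicit false
set_option linter.unusedSectionVars false
open scoped Classical

open WithZero NumberField IsDedekindDomain H38RT
open H38T1 (SC sc scu rep rep_ne sc_rep sc_mul sc_eq_zero sc_surj eo la si Pri OddP tp unif ka)
open H76PP H36MX H76MQ H30ZO H76OD

namespace H30OR

variable {K L : Type} [Field K] [NumberField K] [Field L] [NumberField L] [Algebra K L]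
  {v : HeightOneSpectrum (𝓞 K)} {θ : L}

/-- Twists of even order have good reduction. -/
theorem Wc_even {a b : K} (h : Cub K L a b θ) (ha : v.valuation K a ≤ 1)
    (hb : v.valuation K b ≤ 1) (h2 : v.valuation K 2 = 1)
    (hd : v.valuation K (4 * a ^ 3 + 27 * b ^ 2) = 1) {E : K} (hE : E ≠ 0)
    (hEe : Even (ord (v.valuation K) E)) {c : SC L} (hc : c ∈ HH K L) :
    Wc (algebraMap K (v.adicCompletion K)) (E ^ 2 * a) (E ^ 3 * b) (algebraMap K L E * θ) c ↔
      ∀ w : HeightOneSpectrum (𝓞 L), dn K w = v → eo w c = 0 := by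
  obtain ⟨ϖ, hϖ⟩ := v.valuation_exists_uniformizer K
  have hϖ0 : ϖ ≠ 0 := by
    rintro rfl
    rw [map_zero] at hϖ
    exact absurd hϖ.symm exp_ne_zero
  obtain ⟨m, hm⟩ := hEe
  have hEv : v.valuation K E = exp (-(m + m)) := by
    rw [← hm]
    unfold ord
    rw [neg_neg, exp_log ((Valuation.ne_zero_iff _).2 hE)]
  obtain ⟨t, ht⟩ : ∃ t : K, t = (ϖ ^ m)⁻¹ := ⟨_, rfl⟩
  have ht0 : t ≠ 0 := by
    rw [ht]
    exact inv_ne_zero (zpow_ne_zero _ hϖ0)
  have htv : v.valuation K t = exp m := by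
    rw [ht, map_inv₀, map_zpow₀, hϖ, ← exp_zsmul, ← exp_neg]
    congr 1
    rw [smul_eq_mul]
    ring
  have hE' : v.valuation K (E * t ^ 2) = 1 := by
    rw [map_mul, map_pow, hEv, htv, sq, ← exp_add, ← exp_add, ← exp_zero]
    congr 1
    ring
  have hE0 : E * t ^ 2 ≠ 0 := mul_ne_zero hE (pow_ne_zero 2 ht0)
  rw [Wc_tw_iff (a := a) (b := b) (θ := θ) (c := c) _ hE hE0 ⟨algebraMap K (v.adicCompletion K) t, by
    have e : E * t ^ 2 / E = t * t := by
      field_simp
    rw [e, map_mul]⟩]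
  exact Wc_good h v ha hb h2 hd hE' hc

theorem la_near {v : HeightOneSpectrum (𝓞 K)} (hv : OddP v) {y z : K} (hz : v.valuation K z = 1)
    (h : v.valuation K (y - z) < 1) : v.valuation K y = 1 ∧ la v (sc y) = la v (sc z) := by
  have hz0 : z ≠ 0 := by
    rintro rfl
    rw [map_zero] at hz
    exact zero_ne_one hz
  have h1 : v.valuation K (y / z - 1) < 1 := by
    have e : y / z - 1 = (y - z) / z := by rw [sub_div, div_self hz0]
    rw [e, map_div₀, hz, div_one]
    exact h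
  have h2 := H54MT.near_one h1
  have hq : y / z ≠ 0 := by
    intro h0
    rw [h0, map_zero] at h2
    exact zero_ne_one h2
  have e2 : y = y / z * z := (div_mul_cancel₀ y hz0).symm
  refine ⟨?_, ?_⟩
  · rw [e2, map_mul, h2, hz, one_mul]
  · have h3 : la v (sc (y / z)) = 0 := by
      rw [H38T1.la_sc hv hq, lam_unit h2]
      refine if_pos ⟨1, ?_⟩
      rwa [one_pow]
    rw [e2, sc_mul hq hz0, H38T1.la_add hv, h3, zero_add]

/-- A class of square norm with nontrivial second coordinate. -/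
theorem exists_uu {A B : 𝓞 K} (h : Cub K L (A : K) (B : K) θ)
    (hD0 : 4 * (A : K) ^ 3 + 27 * (B : K) ^ 2 ≠ 0) (hv : OddP v) {w₁ w₂ : HeightOneSpectrum (𝓞 L)}
    (h2 : TwT K (A : K) θ v w₁ w₂) : ∃ c ∈ HH K L, uu K (A : K) θ w₁ w₂ c = 1 := by
  have hR : HR2 K L A B θ := hr2 h hD0
  have hw1 : OddP w₁ := (oddP_dn (K := K)).2 (by rw [h2.dn1]; exact hv)
  have hw2 : OddP w₂ := (oddP_dn (K := K)).2 (by rw [h2.dn2]; exact hv)
  obtain ⟨n₁, m1, -, m3⟩ := exists_la hw1
  obtain ⟨n₂, l1, -, l3⟩ := exists_la hw2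
  obtain ⟨y, hy⟩ := H30OD.weak_app ({w₁, w₂} : Finset (HeightOneSpectrum (𝓞 L)))
    (fun V => if V = w₁ then (n₁ : L) else (n₂ : L)) (ε := 1) one_ne_zero
  have hy1 := hy w₁ (by simp)
  have hy2 := hy w₂ (by simp)
  rw [if_pos rfl] at hy1
  rw [if_neg h2.ne.symm] at hy2
  obtain ⟨a1, a2⟩ := la_near hw1 ((w₁.valuation_eq_one_iff_notMem (K := L) (r := n₁)).2 m1) hy1
  obtain ⟨b1, b2⟩ := la_near hw2 ((w₂.valuation_eq_one_iff_notMem (K := L) (r := n₂)).2 l1) hy2
  rw [m3] at a2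
  rw [l3] at b2
  have hy0 : y ≠ 0 := by
    rintro rfl
    rw [map_zero] at a1
    exact zero_ne_one a1
  have ha0 : eo w₁ (sc y) = 0 := Cl_eo_one a1
  have hb0 : eo w₂ (sc y) = 0 := Cl_eo_one b1
  have hfin : Module.Finite K L := Module.Finite.of_basis h.basis
  have hN0 : Algebra.norm K y ≠ 0 := by
    rw [Ne, Algebra.norm_eq_zero_iff]
    exact hy0
  have hN0' : algebraMap K L (Algebra.norm K y) ≠ 0 := (map_ne_zero _).2 hN0
  have hπ := Cl_unif_ne v
  have hπ' : algebraMap K L (unif v) ≠ 0 := (map_ne_zero _).2 hπ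
  have hNsq : IsSquare (Algebra.norm K (y * algebraMap K L (Algebra.norm K y))) := by
    rw [map_mul, Algebra.norm_algebraMap, h.finrank]
    exact ⟨Algebra.norm K y ^ 2, by ring⟩
  have hcy := mul_ne_zero hy0 hN0'
  have hsc : sc (y * algebraMap K L (Algebra.norm K y)) =
      sc y + sc (algebraMap K L (Algebra.norm K y)) := sc_mul hy0 hN0'
  have eo1 : ∀ x : K, x ≠ 0 → eo w₁ (sc (algebraMap K L x)) = eo v (sc x) := by
    intro x hx
    rw [H38T1.eo_sc ((map_ne_zero _).2 hx), H38T1.eo_sc hx, h2.ord1 x hx]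
  have eo2 : ∀ x : K, x ≠ 0 → eo w₂ (sc (algebraMap K L x)) = eo v (sc x) := by
    intro x hx
    rw [H38T1.eo_sc ((map_ne_zero _).2 hx), H38T1.eo_sc hx, h2.ord2 x hx]
  have hπ1 : eo v (sc (unif v)) = 1 := by
    rw [H38T1.eo_sc hπ, Cl_unif_ord, Int.cast_one]
  have hN1 : eo v (sc (Algebra.norm K y)) = 0 := by
    have h3 := gg_eo1 hR hv h2.toTwG h.finrank hcy hNsq
    rw [hsc, H38T1.eo_add, ha0, zero_add, eo1 _ hN0] at h3
    exact h3
  have hN2 : la v (sc (Algebra.norm K y)) = 0 := by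
    have h3 := hR.proj hv hy0 hπ
    rw [gg_sum h2.toTwG (fun w => tp w (sc y) (sc (algebraMap K L (unif v)))), Cl_tp ha0,
      Cl_tp hb0, Cl_tp hN1, eo1 _ hπ, eo2 _ hπ, hπ1, a2, b2, one_mul, one_mul] at h3
    rw [← h3]
    decide
  have hN3 : la w₁ (sc (algebraMap K L (Algebra.norm K y))) = 0 := by
    have h3 := gg_tp1 hv h2.toTwG hN0 hπ
    rw [Cl_tp (by rw [eo1 _ hN0]; exact hN1), Cl_tp hN1, eo1 _ hπ, hπ1, one_mul, one_mul, hN2] at h3
    exact h3
  refine ⟨_, (H30ZO.mem_HH hcy).2 hNsq, ?_⟩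
  unfold uu
  rw [hsc, H38T1.la_add hw1, H38T1.eo_add, a2, hN3, hb0, eo2 _ hN0, hN1, add_zero, add_zero,
    mul_zero, add_zero]

/-- The local data at a special place. -/
theorem loc2 {A B : 𝓞 K} (h : Cub K L (A : K) (B : K) θ) (hv : OddP v)
    (hd : v.valuation K (4 * (A : K) ^ 3 + 27 * (B : K) ^ 2) = 1)
    {w₁ w₂ : HeightOneSpectrum (𝓞 L)} (h2 : TwT K (A : K) θ v w₁ w₂) {D E : K}
    (hD : D ≠ 0) (hDe : Even (ord (v.valuation K) D)) (hE : E ≠ 0)
    (hEo : Odd (ord (v.valuation K) E)) :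
    nb K L v = 2 ∧ ∃ r u : Fin 1 → (SC L →+ ZMod 2), LocD h v D E r u := by
  have hA : v.valuation K (A : K) ≤ 1 := v.valuation_le_one A
  have hB : v.valuation K (B : K) ≤ 1 := v.valuation_le_one B
  have hD0 : 4 * (A : K) ^ 3 + 27 * (B : K) ^ 2 ≠ 0 := by
    intro h3
    rw [h3, map_zero] at hd
    exact zero_ne_one hd
  have hR : HR2 K L A B θ := hr2 h hD0
  have hw1 : OddP w₁ := (oddP_dn (K := K)).2 (by rw [h2.dn1]; exact hv)
  have hnb : nb K L v = 2 := by
    unfold H30ZO.nb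
    have h1 : {w : HeightOneSpectrum (𝓞 L) | dn K w = v} = {w₁, w₂} := by
      ext w
      constructor
      · intro hw
        exact h2.only w hw
      · rintro (rfl | hw)
        · exact h2.dn1
        · rw [Set.mem_singleton_iff] at hw
          rw [hw]
          exact h2.dn2
    rw [h1, Set.ncard_pair h2.ne]
  have hdsc : dsc A B ∉ v.asIdeal ^ 2 := by
    intro hm
    have h2 : dsc A B ∈ v.asIdeal := Ideal.pow_le_self two_ne_zero hm
    have h3 := (v.valuation_lt_one_iff_mem (K := K) _).2 h2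
    have h4 : ((dsc A B : 𝓞 K) : K) = 4 * (A : K) ^ 3 + 27 * (B : K) ^ 2 := by
      change algebraMap (𝓞 K) K (dsc A B) = _
      unfold dsc
      simp only [map_add, map_mul, map_pow, map_ofNat]
    have h5 : v.valuation K (4 * (A : K) ^ 3 + 27 * (B : K) ^ 2) < 1 :=
      lt_of_eq_of_lt (congrArg (v.valuation K) h4.symm) h3
    rw [hd] at h5
    exact lt_irrefl _ h5
  have hz : ∀ x : ZMod 2, x = 0 ∨ x = 1 := by decide
  have heo1 : ∀ c ∈ HH K L, eo w₁ c = 0 := by
    intro c hc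
    obtain ⟨y, hy, rfl⟩ := sc_surj c
    rw [H30ZO.mem_HH hy] at hc
    exact gg_eo1 hR hv h2.toTwG h.finrank hy hc
  obtain ⟨R, hRc⟩ : ∃ R : SC L →+ ZMod 2, ∀ c, R c = eo w₂ c :=
    ⟨AddMonoidHom.mk' (fun c => eo w₂ c) (fun c c' => H38T1.eo_add _ _ _), fun _ => rfl⟩
  obtain ⟨U, hUc⟩ : ∃ U : SC L →+ ZMod 2, ∀ c, U c = uu K (A : K) θ w₁ w₂ c :=
    ⟨AddMonoidHom.mk' (fun c => uu K (A : K) θ w₁ w₂ c) (fun c c' => by
      unfold uu
      rw [H38T1.la_add hw1, H38T1.eo_add]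
      ring), fun _ => rfl⟩
  refine ⟨hnb, fun _ => R, fun _ => U, ?_, ?_, ?_⟩
  · intro c hc
    rw [Wc_even h hA hB hv hd hD hDe hc]
    constructor
    · intro h3 _
      rw [hRc]
      exact h3 w₂ h2.dn2
    · intro h3 w hw
      rcases h2.only w hw with hww | hww
      · rw [hww]
        exact heo1 c hc
      · rw [hww, ← hRc]
        exact h3 0
  · obtain ⟨W, hWH, hW, hW0, hW1⟩ := idx_W h hv hA hB hD0 hE
    intro c hc
    have key : c ∈ W ↔ ∀ i, (fun _ => U : Fin 1 → (SC L →+ ZMod 2)) i c = 0 := by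
      refine idx_eq hWH _ ?_ ?_ hW0 ?_ hc
      · intro c hcW _
        rw [hUc]
        exact Wc_spec h (fun v => v.valuation_le_one A) (fun v => v.valuation_le_one B) hv hd h2 hE
          hEo ((hW c).1 hcW).1 ((hW c).1 hcW).2
      · intro z
        rcases hz (z 0) with h3 | h3
        · refine ⟨0, (HH K L).zero_mem, fun i => ?_⟩
          rw [map_zero, Subsingleton.elim i 0, h3]
        · obtain ⟨c, hc, hc1⟩ := exists_uu h hD0 hv h2
          refine ⟨c, hc, fun i => ?_⟩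
          rw [hUc, hc1, Subsingleton.elim i 0, h3]
      · rw [Fintype.card_fin]
        rw [hnb] at hW1
        omega
    rw [← key, hW c]
    exact ⟨fun h3 => ⟨hc, h3⟩, fun h3 => h3.2⟩
  · intro c hc y hy hyc hal hbe
    have hN : IsSquare (Algebra.norm K y) := by
      rw [← H30ZO.mem_HH hy, hyc]
      exact hc
    rw [Fin.sum_univ_one, hRc, hUc, (hilb K).odd v hv _ _ hal hbe]
    rcases hz (eo w₂ c) with h0 | h0
    · rw [h0, zero_mul]
      refine conic_CL h hR hv hdsc hy hN hal hbe ?_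
      intro w hw
      rcases h2.only w hw with hww | hww
      · rw [hww, hyc]
        exact heo1 c hc
      · rw [hww, hyc]
        exact h0
    · have h1 := conic_CT h hR hv h2 hy hN hal hbe (by rw [hyc]; exact h0)
      rw [h1, hyc, h0, one_mul]
      unfold uu nuw
      rw [h0, mul_one]

end H30OR
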