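import Pool.Agent.H30.OR.Th
import Pool.Agent.H88.OD.Ch
import Pool.Agent.H88.OD.Ha
import Pool.Agent.H88.OD.Gb

/-!
# MP_78d38b_OD: the parity of the Selmer rank is invariant under twists which are squares at the bad places
-/

set_option autoImplicit false
set_option linter.unusedSectionVars false
open scoped Classical

open WithZero NumberField IsDedekindDomain H38RT
open H38T1 (SC sc scu rep rep_ne sc_rep sc_mul sc_eq_zero sc_surj eo la si Pri OddP tp unif ka)
open H76PP H36MX H76MQ H76MX H30ZO H76OD H88OD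

namespace H30OR

variable {K L : Type} [Field K] [NumberField K] [Field L] [NumberField L] [Algebra K L]
  {a b : K} {θ : L}

private theorem Ti_card {X : Type} [AddCommGroup X] {Y : AddSubgroup X} {P : Set Y} {Q : X → Prop}
    (h1 : ∀ x : Y, x ∈ P ↔ Q x) (h2 : ∀ c, Q c → c ∈ Y) : Nat.card P = Nat.card {c // Q c} :=
  Nat.card_congr
    { toFun := fun x => ⟨x.1.1, (h1 x.1).1 x.2⟩
      invFun := fun c => ⟨⟨c.1, h2 _ c.2⟩, (h1 _).2 c.2⟩
      left_inv := fun _ => rfl
      right_inv := fun _ => rfl }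

theorem parity_tw (S : Ext K K L a b θ) {D : K} {Sg : Finset (HeightOneSpectrum (𝓞 K))}
    (hok : S.Ok D Sg) (h3 : ∀ v : HeightOneSpectrum (𝓞 K), v ∉ Sg → v.valuation K 3 = 1) {δ : K}
    (hδ0 : δ ≠ 0) (hsq : ∀ u ∈ Sg, IsSquare (algebraMap K (u.adicCompletion K) δ))
    (hpos : ∀ s : K →+* ℝ, 0 < s δ) :
    ∃ m n, Nat.card {c : SC L // S.V D c} = 2 ^ m ∧
      Nat.card {c : SC L // S.V (D * δ) c} = 2 ^ n ∧ Even (m + n) := by
  obtain ⟨A, rfl⟩ := Lt_int S.ha
  obtain ⟨B, rfl⟩ := Lt_int S.hb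
  have h : Cub K L (A : K) (B : K) θ := S.cub
  have hD := hok.ne
  have hDδ : D * δ ≠ 0 := mul_ne_zero hD hδ0
  have hLv : ∀ (E : K) (v : HeightOneSpectrum (𝓞 K)) (c : SC L), S.Lv E v c ↔
      Wc (algebraMap K (v.adicCompletion K)) (E ^ 2 * (A : K)) (E ^ 3 * (B : K))
        (algebraMap K L E * θ) c := fun _ _ _ => Iff.rfl
  have hLr : ∀ (E : K) (s : K →+* ℝ) (c : SC L), S.Lr E s c ↔
      Wc s (E ^ 2 * (A : K)) (E ^ 3 * (B : K)) (algebraMap K L E * θ) c := fun _ _ _ => Iff.rfl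
  have hA : ∀ v : HeightOneSpectrum (𝓞 K), v.valuation K (A : K) ≤ 1 := S.ha
  have hB : ∀ v : HeightOneSpectrum (𝓞 K), v.valuation K (B : K) ≤ 1 := S.hb
  have hodd : ∀ v : HeightOneSpectrum (𝓞 K), v ∉ Sg → OddP v := hok.two
  have hdis := hok.dis
  have hdiv : D * δ / D = δ := by
    field_simp
  obtain ⟨Δ, hΔ⟩ : ∃ Δ : K, Δ = -(4 * (A : K) ^ 3 + 27 * (B : K) ^ 2) := ⟨_, rfl⟩
  have hΔ0 : Δ ≠ 0 := by
    rw [hΔ]
    exact neg_ne_zero.2 S.dne
  have hΔv : ∀ v : HeightOneSpectrum (𝓞 K), v ∉ Sg → v.valuation K Δ = 1 := by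
    intro v hv
    rw [hΔ, Valuation.map_neg]
    exact hdis v hv
  have hord0 : ∀ v : HeightOneSpectrum (𝓞 K), v ∉ Sg → ord (v.valuation K) D = 0 := by
    intro v hv
    unfold ord
    rw [hok.val v hv, log_one, neg_zero]
  have hordD : ∀ v : HeightOneSpectrum (𝓞 K), v ∉ Sg →
      ord (v.valuation K) (D * δ) = ord (v.valuation K) δ := by
    intro v hv
    rw [ord_mul hD hδ0, hord0 v hv, zero_add]
  -- the primes of odd order of `δ`
  obtain ⟨Td, hTd⟩ : ∃ T : Finset (HeightOneSpectrum (𝓞 K)), ∀ v, v ∈ T ↔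
      v ∉ Sg ∧ Odd (ord (v.valuation K) δ) := by
    have hfin : {v : HeightOneSpectrum (𝓞 K) | v ∉ Sg ∧ Odd (ord (v.valuation K) δ)}.Finite := by
      refine (H88OD.fin_supp (sc δ)).subset ?_
      rintro v ⟨-, m, hm⟩
      change eo v (sc δ) ≠ 0
      rw [H38T1.eo_sc hδ0, hm]
      push_cast
      have h4 : (2 : ZMod 2) = 0 := by decide
      rw [h4, zero_mul, zero_add]
      exact one_ne_zero
    exact ⟨hfin.toFinset, fun v => by rw [Set.Finite.mem_toFinset]; rfl⟩
  -- the Selmer group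
  obtain ⟨Y0, hY0f, hY0⟩ := exists_YG S hD Sg ∅
  have hY0V : ∀ c, c ∈ Y0 ↔ S.V D c := fun c => by rw [hY0, V_iff_Y S hok]
  have hsp : ∀ c : Y0, c ≠ 0 → ∃ P : Sp S Sg, P.q ∉ Td ∧ P.fl (c : SC L) ≠ 0 := by
    intro c hc
    have hc' : (c : SC L) ≠ 0 := fun h4 => hc (Subtype.ext h4)
    obtain ⟨φ, hφ⟩ := Ib_sep (M := SC L) add_self_SC hc'
    obtain ⟨P, hP1, hP2⟩ := H88OD.exists_sp S Sg Td Y0 hY0f (fun c hc => ((hY0 c).1 hc).hh)
      (fun g c hc => by
        rw [Subsingleton.elim g 1, map_one, one_smul]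
        exact hc) φ
    refine ⟨P, hP1, fun h4 => ?_⟩
    have h5 := (hP2 c c.2).2
    rw [h4] at h5
    have h6 : (S.el φ (c : SC L)).coeff 1 = φ c := by
      unfold Ext.el
      rw [coeff_mk, inv_one, map_one, one_smul]
    rw [← h5, hφ] at h6
    exact zero_ne_one h6
  obtain ⟨T', hT'⟩ : ∃ T' : Finset (HeightOneSpectrum (𝓞 K)), ∀ v, v ∈ T' ↔
      ∃ (c : Y0) (hc : c ≠ 0), v = (hsp c hc).choose.q := by
    have _ : Fintype Y0 := Fintype.ofFinite _
    refine ⟨Finset.univ.biUnion (fun c : Y0 => if hc : c ≠ 0 then {(hsp c hc).choose.q} else ∅),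
      fun v => ?_⟩
    rw [Finset.mem_biUnion]
    constructor
    · rintro ⟨c, -, hv⟩
      by_cases hc : c ≠ 0
      · rw [dif_pos hc, Finset.mem_singleton] at hv
        exact ⟨c, hc, hv⟩
      · rw [dif_neg hc] at hv
        exact absurd hv (Finset.notMem_empty _)
    · rintro ⟨c, hc, hv⟩
      refine ⟨c, Finset.mem_univ _, ?_⟩
      rw [dif_pos hc, Finset.mem_singleton]
      exact hv
  have hT'Sg : ∀ v ∈ T', v ∉ Sg := by
    intro v hv
    obtain ⟨c, hc, rfl⟩ := (hT' v).1 hv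
    exact (hsp c hc).choose.out
  have hT'd : ∀ v ∈ T', v ∉ Td := by
    intro v hv
    obtain ⟨c, hc, rfl⟩ := (hT' v).1 hv
    exact (hsp c hc).choose_spec.1
  obtain ⟨T, hT⟩ : ∃ T, T = Td ∪ T' := ⟨_, rfl⟩
  have hTSg : ∀ v ∈ T, v ∉ Sg := by
    intro v hv
    rw [hT, Finset.mem_union] at hv
    rcases hv with hv | hv
    · exact ((hTd v).1 hv).1
    · exact hT'Sg v hv
  obtain ⟨E, hE⟩ : ∃ E : HeightOneSpectrum (𝓞 K) → K, ∀ v, E v = if v ∈ Td then D * δ else unif v :=
    ⟨_, fun _ => rfl⟩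
  have hE0 : ∀ v, E v ≠ 0 := by
    intro v
    rw [hE]
    split_ifs
    · exact hDδ
    · exact Cl_unif_ne v
  have hEo : ∀ v, Odd (ord (v.valuation K) (E v)) := by
    intro v
    rw [hE]
    split_ifs with hv
    · obtain ⟨h4, h5⟩ := (hTd v).1 hv
      rw [hordD v h4]
      exact h5
    · rw [Cl_unif_ord]
      exact odd_one
  have hDe : ∀ v, v ∉ Sg → Even (ord (v.valuation K) D) := by
    intro v hv
    rw [hord0 v hv]
    exact Even.zero
  have hDδe : ∀ v, v ∉ Sg → v ∉ Td → Even (ord (v.valuation K) (D * δ)) := by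
    intro v hv hv'
    rw [hordD v hv, ← Int.not_odd_iff_even]
    exact fun h4 => hv' ((hTd v).2 ⟨hv, h4⟩)
  -- the local data
  have hex : ∀ v : {v // v ∈ T}, ∃ (m : ℕ) (r u : Fin m → (SC L →+ ZMod 2)),
      nb K L v.1 = m + 1 ∧ LocD h v.1 D (E v.1) r u ∧ (m : ZMod 2) = la v.1 (sc Δ) := by
    intro v
    have hv := hTSg v.1 v.2
    rw [hΔ]
    exact loc_all h (hodd _ hv) (h3 _ hv) (hdis _ hv) hD (hDe _ hv) (hE0 _) (hEo _)
  choose m r u hnb hloc hla using hex
  -- good places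
  have hgood : ∀ (v : HeightOneSpectrum (𝓞 K)), v ∉ Sg → ∀ F : K, F ≠ 0 →
      Even (ord (v.valuation K) F) → ∀ c ∈ HH K L,
      (S.Lv F v c ↔ ∀ w : HeightOneSpectrum (𝓞 L), dn K w = v → eo w c = 0) := by
    intro v hv F hF hFe c hc
    rw [hLv]
    exact Wc_even h (hA v) (hB v) (hodd v hv) (hdis v hv) hF hFe hc
  have hbad : ∀ v ∈ Sg, ∀ c, (S.Lv D v c ↔ S.Lv (D * δ) v c) := by
    intro v hv c
    rw [hLv, hLv]
    refine Wc_tw_iff _ hD hDδ ?_
    rw [hdiv]
    exact hsq v hv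
  have hreal : ∀ (s : K →+* ℝ) (c : SC L), (S.Lr D s c ↔ S.Lr (D * δ) s c) := by
    intro s c
    rw [hLr, hLr]
    refine Wc_tw_real _ hD hDδ ?_
    rw [hdiv]
    exact hpos s
  -- the relaxed group
  obtain ⟨Y, hYf, hY⟩ := exists_YG S hD Sg T
  have hdisj : Disjoint Sg T := by
    rw [Finset.disjoint_left]
    exact fun v h4 h5 => hTSg v h5 h4
  have hYfin : ∀ x ∈ Y, ∀ v ∈ Sg, S.Lv D v x := by
    intro x hx v hv
    exact ((hY x).1 hx).fin v (by rw [dn_self]; exact hv)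
  have hYev : ∀ x ∈ Y, ∀ w : HeightOneSpectrum (𝓞 L), dn K w ∉ Sg → dn K w ∉ T → eo w x = 0 := by
    intro x hx w h4 h5
    exact ((hY x).1 hx).ev w (by rw [dn_self]; exact h4) (by rw [dn_self]; exact h5)
  have hcard : 2 ^ Fintype.card (Σ v : {v // v ∈ T}, Fin (m v)) ≤ Nat.card Y := by
    have h4 := (card_Y3 hok hdisj (m := fun v => nb K L v - 1) (fun v _ => by
      have := nb_ge1 K L v
      omega) hY).2
    refine le_of_eq_of_le ?_ h4
    congr 1
    rw [Fintype.card_sigma, ← Finset.sum_coe_sort T (fun v => nb K L v - 1)]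
    refine Finset.sum_congr rfl fun v _ => ?_
    rw [Fintype.card_fin]
    have := hnb v
    omega
  obtain ⟨R, hR⟩ : ∃ R : (Σ v : {v // v ∈ T}, Fin (m v)) → (Y →+ ZMod 2),
      ∀ j x, R j x = r j.1 j.2 (x : SC L) :=
    ⟨fun j => (r j.1 j.2).comp Y.subtype, fun _ _ => rfl⟩
  obtain ⟨U, hU⟩ : ∃ U : (Σ v : {v // v ∈ T}, Fin (m v)) → (Y →+ ZMod 2),
      ∀ j x, U j x = u j.1 j.2 (x : SC L) :=
    ⟨fun j => (u j.1 j.2).comp Y.subtype, fun _ _ => rfl⟩
  -- membership in the Selmer group of `E_D`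
  have hmemD : ∀ x : Y, (∀ j, R j x = 0) → S.V D (x : SC L) := by
    intro x hx
    have hxY := (hY x).1 x.2
    refine ⟨hxY.hh, fun v => ?_, hxY.inf⟩
    by_cases hv : v ∈ Sg
    · exact hYfin x x.2 v hv
    by_cases hvT : v ∈ T
    · rw [hLv, (hloc ⟨v, hvT⟩).hr _ hxY.hh]
      intro i
      have h4 := hx ⟨⟨v, hvT⟩, i⟩
      rw [hR] at h4
      exact h4
    · rw [hgood v hv D hD (hDe v hv) _ hxY.hh]
      intro w hw
      exact hYev x x.2 w (by rw [hw]; exact hv) (by rw [hw]; exact hvT)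
  have hVY : ∀ c, S.V D c → c ∈ Y := by
    intro c hc
    rw [hY]
    refine ⟨hc.hh, fun v _ => hc.fin v, hc.inf, fun w h4 h5 => ?_⟩
    rw [dn_self] at h4 h5
    exact (hgood _ h4 D hD (hDe _ h4) c hc.hh).1 (hc.fin _) w rfl
  have hVR : ∀ x : Y, S.V D (x : SC L) → ∀ j, R j x = 0 := by
    intro x hx j
    rw [hR]
    exact ((hloc j.1).hr _ hx.hh).1 ((hLv _ _ _).1 (hx.fin _)) j.2
  obtain ⟨J, hJ⟩ : ∃ J : Finset (Σ v : {v // v ∈ T}, Fin (m v)), ∀ j, j ∈ J ↔ j.1.1 ∈ Td :=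
    ⟨Finset.univ.filter fun j => j.1.1 ∈ Td, fun j => by simp⟩
  have hEd : ∀ v ∈ Td, E v = D * δ := fun v hv => by rw [hE, if_pos hv]
  obtain ⟨p, n, hp, hn, hev⟩ := H88OD.parity (Y := Y) (fun x => Subtype.ext (add_self_SC _)) R U
    (by
      intro x
      have hxY := (hY x).1 x.2
      have h4 := rec_all (T := T) (q := fun v => if hv : v ∈ T then
          ∑ i, r ⟨v, hv⟩ i (x : SC L) * u ⟨v, hv⟩ i (x : SC L) else 0) h (c := (x : SC L)) hxY.hh
        (by
          intro v hv y hy hyc hal hbe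
          rw [dif_pos hv]
          exact (hloc ⟨v, hv⟩).hq _ hxY.hh y hy hyc hal hbe)
        (by
          intro v hvT
          refine H30OD.conAt_of_Wc h hD v ((hLv _ _ _).1 ?_)
          by_cases hv : v ∈ Sg
          · exact hYfin x x.2 v hv
          · rw [hgood v hv D hD (hDe v hv) _ hxY.hh]
            intro w hw
            exact hYev x x.2 w (by rw [hw]; exact hv) (by rw [hw]; exact hvT))
        (fun s => H30OD.conR_of_Wc h hD s ((hLr _ _ _).1 (hxY.inf s)))
      rw [Fintype.sum_sigma, ← h4, ← Finset.sum_coe_sort T]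
      refine Finset.sum_congr rfl fun v _ => ?_
      rw [dif_pos v.2]
      refine Finset.sum_congr rfl fun i _ => ?_
      rw [hR, hU])
    (by
      intro x hx1 hx2
      have hV := hmemD x hx1
      by_contra hne
      have hx0 : (⟨(x : SC L), (hY0V _).2 hV⟩ : Y0) ≠ 0 := by
        intro h4
        have h5 : (x : SC L) = 0 := congrArg Subtype.val h4
        exact hne (Subtype.ext h5)
      obtain ⟨P, hP⟩ : ∃ P, P = (hsp _ hx0).choose := ⟨_, rfl⟩
      have hPs := (hsp _ hx0).choose_spec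
      rw [← hP] at hPs
      have hPT' : P.q ∈ T' := (hT' _).2 ⟨_, hx0, by rw [hP]⟩
      have hPT : P.q ∈ T := by
        rw [hT]
        exact Finset.mem_union_right _ hPT'
      have hPv : P.q = P.v := dn_self P.v
      have hout : P.q ∉ Sg := P.out
      have hW : ∃ E' : K, E' ≠ 0 ∧ Odd (ord (P.v.valuation K) E') ∧
          Wc (algebraMap K (P.v.adicCompletion K)) (E' ^ 2 * (A : K)) (E' ^ 3 * (B : K))
            (algebraMap K L E' * θ) (x : SC L) := by
        rw [← hPv]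
        refine ⟨E P.q, hE0 _, hEo _, ((hloc ⟨P.q, hPT⟩).hu _ hV.hh).2 (fun i => ?_)⟩
        have h4 := hx2 ⟨⟨P.q, hPT⟩, i⟩
        rw [hU] at h4
        exact h4
      obtain ⟨E', hE'0, hE'o, hE'W⟩ := hW
      apply hPs.2
      refine rg_ext fun g => ?_
      have h5 : (P.fl (x : SC L)).coeff g = uu K (A : K) θ P.t1 P.t2 (x : SC L) := by
        unfold Sp.fl
        rw [coeff_mk, Subsingleton.elim g⁻¹ 1, map_one, one_smul]
        rfl
      have h6 : uu K (A : K) θ P.t1 P.t2 (x : SC L) = 0 := by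
        refine Wc_spec h hA hB (v := P.v) (E := E') ?_ ?_ P.tw hE'0 hE'o hV.hh hE'W
        · exact (P.odd hok.two).1
        · rw [← hPv]
          exact hdis _ hout
      rw [h5, h6]
      rfl) hcard J
  refine ⟨p, n, ?_, ?_, ?_⟩
  · rw [← hp]
    refine (Ti_card (fun x => ?_) hVY).symm
    constructor
    · rintro ⟨h4, -⟩
      exact hmemD x fun j => h4 j (Finset.notMem_empty _)
    · intro h4
      exact ⟨fun j _ => hVR x h4 j, fun j hj => absurd hj (Finset.notMem_empty _)⟩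
  · rw [← hn]
    refine (Ti_card (fun x => ?_) fun c hc => ?_).symm
    · have hxY := (hY x).1 x.2
      constructor
      · rintro ⟨h4, h5⟩
        refine ⟨hxY.hh, fun v => ?_, fun s => (hreal s _).1 (hxY.inf s)⟩
        by_cases hv : v ∈ Sg
        · exact (hbad v hv _).1 (hYfin x x.2 v hv)
        by_cases hvd : v ∈ Td
        · have hvT : v ∈ T := by
            rw [hT]
            exact Finset.mem_union_left _ hvd
          rw [← hEd v hvd, hLv, (hloc ⟨v, hvT⟩).hu _ hxY.hh]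
          intro i
          have h6 := h5 ⟨⟨v, hvT⟩, i⟩ ((hJ _).2 hvd)
          rw [hU] at h6
          exact h6
        · rw [hgood v hv _ hDδ (hDδe v hv hvd) _ hxY.hh]
          by_cases hvT : v ∈ T
          · rw [← hgood v hv D hD (hDe v hv) _ hxY.hh, hLv, (hloc ⟨v, hvT⟩).hr _ hxY.hh]
            intro i
            have h6 := h4 ⟨⟨v, hvT⟩, i⟩ (fun h7 => hvd ((hJ _).1 h7))
            rw [hR] at h6
            exact h6
          · intro w hw
            exact hYev x x.2 w (by rw [hw]; exact hv) (by rw [hw]; exact hvT)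
      · intro h4
        refine ⟨fun j hj => ?_, fun j hj => ?_⟩
        · have hv := hTSg j.1.1 j.1.2
          have hvd : j.1.1 ∉ Td := fun h5 => hj ((hJ _).2 h5)
          rw [hR]
          refine ((hloc j.1).hr _ h4.hh).1 ((hLv _ _ _).1 ?_) j.2
          rw [hgood _ hv D hD (hDe _ hv) _ h4.hh, ← hgood _ hv _ hDδ (hDδe _ hv hvd) _ h4.hh]
          exact h4.fin _
        · rw [hU]
          refine ((hloc j.1).hu _ h4.hh).1 ?_ j.2
          rw [hEd _ ((hJ _).1 hj)]
          exact (hLv _ _ _).1 (h4.fin _)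
    · rw [hY]
      refine ⟨hc.hh, fun v hv => ?_, fun s => (hreal s _).2 (hc.inf s), fun w h4 h5 => ?_⟩
      · rw [dn_self] at hv
        exact (hbad v hv _).2 (hc.fin v)
      · rw [dn_self] at h4 h5
        have hvd : dn K w ∉ Td := fun h6 => h5 (by
          rw [hT]
          exact Finset.mem_union_left _ h6)
        exact (hgood _ h4 _ hDδ (hDδe _ h4 hvd) c hc.hh).1 (hc.fin _) w rfl
  · -- the number of indices over `Td` is even
    have hJc : ((J.card : ℕ) : ZMod 2) = 0 := by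
      have h4 := sum_la hΔ0 hδ0 hodd hΔv hsq hpos hTd
      have h5 : ((J.card : ℕ) : ZMod 2) = ∑ j : (Σ v : {v // v ∈ T}, Fin (m v)),
          (if j.1.1 ∈ Td then (1 : ZMod 2) else 0) := by
        rw [Finset.sum_ite, Finset.sum_const_zero, add_zero, Finset.sum_const, nsmul_eq_mul, mul_one]
        congr 2
        ext j
        rw [hJ, Finset.mem_filter]
        simp
      rw [h5, Fintype.sum_sigma]
      have h6 : ∀ v : {v // v ∈ T}, (∑ _i : Fin (m v), (if v.1 ∈ Td then (1 : ZMod 2) else 0)) =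
          if v.1 ∈ Td then la v.1 (sc Δ) else 0 := by
        intro v
        rw [Finset.sum_const, Finset.card_univ, Fintype.card_fin, nsmul_eq_mul, hla v]
        split_ifs
        · rw [mul_one]
        · rw [mul_zero]
      rw [Finset.sum_congr rfl fun v _ => h6 v,
        Finset.sum_coe_sort T (fun v => if v ∈ Td then la v (sc Δ) else 0)]
      refine Eq.trans ?_ h4
      rw [← Finset.sum_filter]
      refine Finset.sum_congr ?_ fun _ _ => rfl
      ext v
      rw [Finset.mem_filter, hT, Finset.mem_union]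
      exact ⟨fun h7 => h7.2, fun h7 => ⟨Or.inl h7, h7⟩⟩
    have hJe : Even J.card := by
      rw [ZMod.natCast_eq_zero_iff] at hJc
      exact even_iff_two_dvd.2 hJc
    exact (Nat.even_add.1 hev).2 hJe

end H30OR
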