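import Pool.Agent.H30.OR.Th
import Pool.Agent.H88.OD.Ch
import Pool.Agent.H88.OD.Ha
import Pool.Agent.H88.OD.Gb
import Pool.Agent.H88.RE.Ij
import Pool.Agent.H88.RE.Ik

/-!
# MP_78d38b_OD: reciprocity with finite and real places, local data at a real place
-/

set_option autoImplicit false
set_option linter.unusedSectionVars false
open scoped Classical

open WithZero NumberField IsDedekindDomain H38RT
open H38T1 (SC sc scu rep rep_ne sc_rep sc_mul sc_eq_zero sc_surj eo la si Pri OddP tp unif ka)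
open H76PP H36MX H76MQ H76MX H30ZO H76OD H88OD

namespace H30OR

variable {K L : Type} [Field K] [NumberField K] [Field L] [NumberField L] [Algebra K L]
  {a b : K} {θ : L}

/-- Reciprocity with arbitrary values at the places of `T` and the real places of `Q`. -/
theorem rec_allQ (h : Cub K L a b θ) {T : Finset (HeightOneSpectrum (𝓞 K))}
    {Q : Finset (K →+* ℝ)}
    {q : HeightOneSpectrum (𝓞 K) → ZMod 2} {qs : (K →+* ℝ) → ZMod 2} {c : SC L} (hc : c ∈ HH K L)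
    (hT : ∀ v ∈ T, ∀ y : L, y ≠ 0 → sc y = c → al h y ≠ 0 → be h y ≠ 0 →
      hsv v (al h y) (be h y) = q v)
    (hQ : ∀ s ∈ Q, ∀ y : L, y ≠ 0 → sc y = c → al h y ≠ 0 → be h y ≠ 0 →
      si s (sc (al h y)) * si s (sc (be h y)) = qs s)
    (hv : ∀ v, v ∉ T → ConAt h v c) (hr : ∀ s : K →+* ℝ, s ∉ Q → ConR h s c) :
    ∑ v ∈ T, q v + ∑ s ∈ Q, qs s = 0 := by
  obtain ⟨y, hy, hyc⟩ := sc_surj c
  obtain ⟨Y, hY, ha, hb⟩ := exists_YX h hy
  obtain ⟨y', hy'⟩ : ∃ y', y' = y * Y ^ 2 := ⟨_, rfl⟩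
  have hy0 : y' ≠ 0 := by
    rw [hy']
    exact mul_ne_zero hy (pow_ne_zero 2 hY)
  have hsc : sc y' = c := by
    rw [hy', sc_mul hy (pow_ne_zero 2 hY), H54MT.sc_sq hY, add_zero, hyc]
  rw [← hy'] at ha hb
  have hrec := (hilb K).prod (al h y') (be h y') ha hb
  unfold BB at hrec
  have hreal : ∑ w : K →+* ℝ, si w (sc (al h y')) * si w (sc (be h y')) = ∑ s ∈ Q, qs s := by
    rw [← Finset.sum_subset (Finset.subset_univ Q)]
    · exact Finset.sum_congr rfl fun s hs => hQ s hs y' hy0 hsc ha hb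
    · intro s _ hs
      have h1 := hr s hs y' hy0 hsc ha hb
      rw [H38T1.si_sc s hb, H38T1.si_sc s ha]
      unfold sw
      by_cases h2 : s (al h y') < 0
      · have h3 : ¬ s (be h y') < 0 := fun h3 => h1 ⟨h2, h3⟩
        rw [if_neg h3, mul_zero]
      · rw [if_neg h2, zero_mul]
  have hsupp : (Function.support fun v => hsv v (al h y') (be h y')) ⊆ ↑T := by
    intro v hv'
    by_contra h1
    exact hv' (hv v (fun h2 => h1 (Finset.mem_coe.2 h2)) y' hy0 hsc ha hb)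
  rw [hreal, finsum_eq_sum_of_support_subset _ hsupp] at hrec
  rw [← hrec]
  congr 1
  exact (Finset.sum_congr rfl fun v hvT => hT v hvT y' hy0 hsc ha hb).symm

/-- The local data at a real place `s` for the twists by `D` and `E`. -/
structure LocR {a b : K} {θ : L} (h : Cub K L a b θ) (s : K →+* ℝ) (D E : K)
    (r u : SC L →+ ZMod 2) : Prop where
  hr : ∀ c ∈ HH K L, (Wc s (D ^ 2 * a) (D ^ 3 * b) (algebraMap K L D * θ) c ↔ r c = 0)
  hu : ∀ c ∈ HH K L, (Wc s (E ^ 2 * a) (E ^ 3 * b) (algebraMap K L E * θ) c ↔ u c = 0)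
  hq : ∀ c ∈ HH K L, ∀ y : L, y ≠ 0 → sc y = c → al h y ≠ 0 → be h y ≠ 0 →
    si s (sc (al h y)) * si s (sc (be h y)) = r c * u c

/-- The sign as a homomorphism. -/
noncomputable def siH (t : L →+* ℝ) : SC L →+ ZMod 2 where
  toFun := si t
  map_zero' := H38T1.si_zero t
  map_add' := H38T1.si_add t

theorem siH_apply (t : L →+* ℝ) (c : SC L) : siH t c = si t c := rfl

theorem exists_locR (S : Ext K K L a b θ) {s : K →+* ℝ}
    (hs : 0 < s (-(4 * a ^ 3 + 27 * b ^ 2))) {D E : K} (hDE : s D * s E < 0) :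
    ∃ r u : SC L →+ ZMod 2, LocR (θ := θ) (show Cub K L a b θ from S.cub) s D E r u := by
  have h : Cub K L a b θ := S.cub
  obtain ⟨t1, t2, t3, R⟩ := exists_real3 h hs
  have hq : ∀ c ∈ HH K L, ∀ y : L, y ≠ 0 → sc y = c → al h y ≠ 0 → be h y ≠ 0 →
      si s (sc (al h y)) * si s (sc (be h y)) = si t1 c * si t3 c := by
    intro c hc y hy hyc hal hbe
    rw [con_real h R hy ?_ hal hbe, hyc]
    rw [← hyc, H30ZO.mem_HH hy] at hc
    exact hc
  rcases mul_neg_iff.1 hDE with ⟨h1, h2⟩ | ⟨h1, h2⟩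
  · refine ⟨siH t1, siH t3, fun c hc => ?_, fun c hc => ?_, fun c hc y hy hyc hal hbe => ?_⟩
    · exact Lr_pos S R h1 hc
    · exact Lr_neg S R h2 hc
    · exact hq c hc y hy hyc hal hbe
  · refine ⟨siH t3, siH t1, fun c hc => ?_, fun c hc => ?_, fun c hc y hy hyc hal hbe => ?_⟩
    · exact Lr_neg S R h1 hc
    · exact Lr_pos S R h2 hc
    · rw [mul_comm (siH t3 c)]
      exact hq c hc y hy hyc hal hbe

/-- **Reciprocity.** -/
theorem rec_gen (h : Cub K L a b θ) {D E : K} (hD : D ≠ 0)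
    {T : Finset (HeightOneSpectrum (𝓞 K))} {Q : Finset (K →+* ℝ)} {ι : {v // v ∈ T} → Type}
    [∀ v, Fintype (ι v)] {r u : ∀ v : {v // v ∈ T}, ι v → (SC L →+ ZMod 2)}
    {E' : {v // v ∈ T} → K}
    (hloc : ∀ v : {v // v ∈ T}, LocD h v.1 D (E' v) (r v) (u v))
    {rs us : {s // s ∈ Q} → (SC L →+ ZMod 2)}
    (hlocR : ∀ s : {s // s ∈ Q}, LocR h s.1 D E (rs s) (us s)) {c : SC L} (hc : c ∈ HH K L)
    (hv : ∀ v : HeightOneSpectrum (𝓞 K), v ∉ T → Wc (algebraMap K (v.adicCompletion K))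
      (D ^ 2 * a) (D ^ 3 * b) (algebraMap K L D * θ) c)
    (hr : ∀ s : K →+* ℝ, s ∉ Q → Wc s (D ^ 2 * a) (D ^ 3 * b) (algebraMap K L D * θ) c) :
    ∑ v : {v // v ∈ T}, ∑ i, r v i c * u v i c + ∑ s : {s // s ∈ Q}, rs s c * us s c = 0 := by
  have h4 := rec_allQ (T := T) (Q := Q) (q := fun v => if hv : v ∈ T then
      ∑ i, r ⟨v, hv⟩ i c * u ⟨v, hv⟩ i c else 0)
      (qs := fun s => if hs : s ∈ Q then rs ⟨s, hs⟩ c * us ⟨s, hs⟩ c else 0) h (c := c) hc
    (by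
      intro v hv y hy hyc hal hbe
      rw [dif_pos hv]
      exact (hloc ⟨v, hv⟩).hq _ hc y hy hyc hal hbe)
    (by
      intro s hs y hy hyc hal hbe
      rw [dif_pos hs]
      exact (hlocR ⟨s, hs⟩).hq _ hc y hy hyc hal hbe)
    (fun v hvT => H30OD.conAt_of_Wc h hD v (hv v hvT))
    (fun s hs => H30OD.conR_of_Wc h hD s (hr s hs))
  rw [← h4, ← Finset.sum_coe_sort T, ← Finset.sum_coe_sort Q]
  congr 1
  · refine Finset.sum_congr rfl fun v _ => ?_
    rw [dif_pos v.2]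
  · refine Finset.sum_congr rfl fun s _ => ?_
    rw [dif_pos s.2]

/-- The relaxed group. -/
theorem exists_YQ (S : Ext K K L a b θ) {D : K} (hD : D ≠ 0)
    (Sg T : Finset (HeightOneSpectrum (𝓞 K))) (Q : Finset (K →+* ℝ)) :
    ∃ W : AddSubgroup (SC L), Finite W ∧ ∀ c, c ∈ W ↔ c ∈ HH K L ∧ (∀ v ∈ Sg, S.Lv D v c) ∧
      (∀ s, s ∉ Q → S.Lr D s c) ∧
      ∀ w : HeightOneSpectrum (𝓞 L), dn K w ∉ Sg → dn K w ∉ T → eo w c = 0 := by
  have hDE := H76OD.Lt_dne hD S.dne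
  have hE2 := Tf_twist (show Cub K L a b θ from S.cub) hD
  have hWv : ∀ v : HeightOneSpectrum (𝓞 K), ∃ W : AddSubgroup (SC L), ∀ c, c ∈ W ↔
      c ∈ HH K L ∧ S.Lv D v c := by
    intro v
    have _ := H36CY.char_zero v
    refine exists_WW hE2 _ ?_ (H24PD.inf_fin v _ _)
    intro e
    apply hDE
    apply (algebraMap K (v.adicCompletion K)).injective
    rw [map_zero, map_add, map_mul, map_mul, map_pow, map_pow, map_ofNat, map_ofNat]
    exact e
  choose Wf hWf using hWv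
  have hWs : ∀ s : K →+* ℝ, ∃ W : AddSubgroup (SC L), ∀ c, c ∈ W ↔
      c ∈ HH K L ∧ S.Lr D s c := by
    intro s
    refine exists_WW hE2 s ?_ (H24PD.inf_real _ _)
    intro e
    apply hDE
    apply s.injective
    rw [map_zero, map_add, map_mul, map_mul, map_pow, map_pow, map_ofNat, map_ofNat]
    exact e
  choose Wr hWr using hWs
  obtain ⟨W, hW⟩ : ∃ W : AddSubgroup (SC L), W = HH K L ⊓
      ((⨅ v : {v : HeightOneSpectrum (𝓞 K) // v ∈ Sg}, Wf v) ⊓ ((⨅ s : {s // s ∉ Q}, Wr s) ⊓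
        Gb_ev fun w => dn K w ∉ Sg ∧ dn K w ∉ T)) := ⟨_, rfl⟩
  have hm : ∀ c, c ∈ W ↔ c ∈ HH K L ∧ (∀ v ∈ Sg, S.Lv D v c) ∧
      (∀ s, s ∉ Q → S.Lr D s c) ∧
      ∀ w : HeightOneSpectrum (𝓞 L), dn K w ∉ Sg → dn K w ∉ T → eo w c = 0 := by
    intro c
    rw [hW, AddSubgroup.mem_inf, AddSubgroup.mem_inf, AddSubgroup.mem_inf, AddSubgroup.mem_iInf,
      AddSubgroup.mem_iInf, Gb_mem_ev]
    constructor
    · rintro ⟨h1, h2, h3, h4⟩
      exact ⟨h1, fun v hv => ((hWf v c).1 (h2 ⟨v, hv⟩)).2,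
        fun s hs => ((hWr s c).1 (h3 ⟨s, hs⟩)).2, fun w h h' => h4 w ⟨h, h'⟩⟩
    · rintro ⟨h1, h2, h3, h4⟩
      exact ⟨h1, fun v => (hWf v c).2 ⟨h1, h2 v v.2⟩, fun s => (hWr s c).2 ⟨h1, h3 s s.2⟩,
        fun w h => h4 w h.1 h.2⟩
  refine ⟨W, ?_, hm⟩
  have h1 : {v : HeightOneSpectrum (𝓞 K) | v ∈ ((Sg ∪ T : Finset _) : Set _)}.Finite :=
    Finset.finite_toSet _
  have h2 := Gb_fin (M' := L) h1
  have h3 := (H24TD.fin_US h2).subset (fun c (hc : c ∈ (W : Set (SC L))) w hw => by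
    have h4 := ((hm c).1 hc).2.2.2 w
    have h5 : ¬ (dn K w ∈ Sg ∨ dn K w ∈ T) := by
      intro h
      exact hw (by
        change dn K w ∈ ((Sg ∪ T : Finset _) : Set _)
        rw [Finset.mem_coe, Finset.mem_union]
        exact h)
    exact h4 (fun h => h5 (Or.inl h)) (fun h => h5 (Or.inr h)))
  exact h3.to_subtype

end H30OR
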