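import Pool.Agent.H30.OR.Tl
import Pool.Agent.H76.GM.Aa

/-!
# MP_78d38b: the parity over an extension `M / K` for the twists by elements of `K`
-/

set_option autoImplicit false
set_option linter.unusedSectionVars false
open scoped Classical

open WithZero NumberField IsDedekindDomain H38RT
open H38T1 (SC sc scu rep eo la si OddP)
open H76PP (Cub LC ev scm dn val_le val_one)
open H88OD H26OD H30OD H30ZO H36CY H76GM

namespace H30OR

variable {K M LM : Type} [Field K] [NumberField K] [Field M] [NumberField M] [Field LM]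
  [NumberField LM] [Algebra K M] [Algebra M LM] {a b : 𝓞 K} {θ : LM}

/-- The change of the parity over `M`. -/
theorem parity_M (S : Ext M M LM (algebraMap K M (a : K)) (algebraMap K M (b : K)) θ) {D0 D : K}
    {Sg : Finset (HeightOneSpectrum (𝓞 K))} (ok : OkK a b D0 Sg) (hD : D ≠ 0)
    (hsq : ∀ v ∈ Sg, IsSquare (algebraMap K (v.adicCompletion K) (D / D0))) :
    ∃ p n, Nat.card {c : SC LM // S.V (algebraMap K M D0) c} = 2 ^ p ∧
      Nat.card {c : SC LM // S.V (algebraMap K M D) c} = 2 ^ n ∧
      Even (p + n + Nat.card {s : M →+* ℝ // s (algebraMap K M (D / D0)) < 0}) := by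
  have hfin : {w : HeightOneSpectrum (𝓞 M) | dn K w ∈ (Sg : Set (HeightOneSpectrum (𝓞 K)))}.Finite :=
    Gb_fin Sg.finite_toSet
  obtain ⟨SgM, hSgM⟩ : ∃ SgM : Finset (HeightOneSpectrum (𝓞 M)), ∀ w, w ∈ SgM ↔ dn K w ∈ Sg :=
    ⟨hfin.toFinset, fun w => by
      rw [Set.Finite.mem_toFinset, Set.mem_ofPred_eq, Finset.mem_coe]⟩
  have hok : S.Ok (algebraMap K M D0) SgM := by
    refine ⟨(map_ne_zero _).2 ok.ne, fun w hw => ?_, fun w hw => ?_, fun w hw => ?_⟩
    all_goals rw [hSgM] at hw
    · have := val_one (w := w) (ok.two _ hw)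
      rwa [map_ofNat] at this
    · have := val_one (w := w) (ok.dis _ hw)
      rwa [map_add, map_mul, map_mul, map_pow, map_pow, map_ofNat, map_ofNat] at this
    · exact val_one (ok.val _ hw)
  have h3 : ∀ w : HeightOneSpectrum (𝓞 M), w ∉ SgM → w.valuation M 3 = 1 := by
    intro w hw
    rw [hSgM] at hw
    have := val_one (w := w) (ok.three _ hw)
    rwa [map_ofNat] at this
  have hdiv : algebraMap K M D / algebraMap K M D0 = algebraMap K M (D / D0) := (map_div₀ _ _ _).symm
  have key := parity_sgn S (D0 := algebraMap K M D0) (D := algebraMap K M D) hok h3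
    ((map_ne_zero _).2 hD) (by
      intro w hw
      rw [hSgM] at hw
      obtain ⟨r, hr⟩ := hsq _ hw
      have h2 : algebraMap M (w.adicCompletion M) (algebraMap K M (D / D0)) =
          (over_dn (K := K) w).map (algebraMap K ((dn K w).adicCompletion K) (D / D0)) :=
        (Pool.Agent.H10.Over.map_algebraMap _ _).symm
      rw [hdiv, h2, hr, map_mul]
      exact ⟨_, rfl⟩)
  rw [hdiv] at key
  exact key

theorem even_pow_four {x p : ℕ} (h : x = 2 ^ p) : (∃ k : ℕ, x = 4 ^ k) ↔ Even p := by
  subst h
  constructor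
  · rintro ⟨k, hk⟩
    have h4 : (4 : ℕ) = 2 ^ 2 := by norm_num
    rw [h4, ← pow_mul] at hk
    have h5 := Nat.pow_right_injective le_rfl hk
    exact ⟨k, by omega⟩
  · rintro ⟨k, hk⟩
    refine ⟨k, ?_⟩
    have h4 : (4 : ℕ) = 2 ^ 2 := by norm_num
    rw [h4, ← pow_mul, hk]
    congr 1
    ring

/-- The number of real embeddings above a real embedding. -/
theorem card_real_above (s : K →+* ℝ) :
    (Nat.card {t : M →+* ℝ // t.comp (algebraMap K M) = s} : ZMod 2) =
      (Module.finrank K M : ZMod 2) := by
  have _ : FiniteDimensional K M := Module.Finite.of_restrictScalars_finite ℚ K M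
  let i : K →+* ℂ := Complex.ofRealHom.comp s
  let _ : Algebra K ℂ := i.toAlgebra
  have hi : ∀ x : K, algebraMap K ℂ x = ((s x : ℝ) : ℂ) := fun _ => rfl
  have hcard : Fintype.card (M →ₐ[K] ℂ) = Module.finrank K M := AlgHom.card K M ℂ
  -- the involution
  let conj : (M →ₐ[K] ℂ) → (M →ₐ[K] ℂ) := fun σ =>
    { (starRingEnd ℂ).comp σ.toRingHom with
      commutes' := fun x => by
        change (starRingEnd ℂ) (σ (algebraMap K M x)) = algebraMap K ℂ x
        rw [σ.commutes, hi, Complex.conj_ofReal] }
  have hconj : ∀ σ x, conj σ x = (starRingEnd ℂ) (σ x) := fun _ _ => rfl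
  have hinv : Function.Involutive conj := by
    intro σ
    ext x
    rw [hconj, hconj, Complex.conj_conj]
  have h1 : Fintype.card (M →ₐ[K] ℂ) ≡
      Fintype.card (Function.fixedPoints conj) [MOD 2] := by
    exact Equiv.Perm.card_fixedPoints_modEq (f := (conj : Function.End (M →ₐ[K] ℂ))) (p := 2)
      (n := 1) (by
      rw [pow_one, sq]
      exact funext fun σ => hinv σ)
  have h2 : Nat.card {t : M →+* ℝ // t.comp (algebraMap K M) = s} =
      Fintype.card (Function.fixedPoints conj) := by
    rw [← Nat.card_eq_fintype_card]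
    refine Nat.card_congr ?_
    refine
      { toFun := fun t => ⟨{ Complex.ofRealHom.comp t.1 with
          commutes' := fun x => by
            have e : t.1 (algebraMap K M x) = s x := congrArg (fun r : K →+* ℝ => r x) t.2
            change ((t.1 (algebraMap K M x) : ℝ) : ℂ) = algebraMap K ℂ x
            rw [hi, e] }, by
          change conj _ = _
          ext x
          rw [hconj]
          exact Complex.conj_ofReal _⟩
        invFun := fun σ => ⟨
          { toFun := fun x => (σ.1 x).re
            map_one' := by rw [map_one]; rfl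
            map_zero' := by rw [map_zero]; rfl
            map_add' := fun x y => by rw [map_add]; rfl
            map_mul' := fun x y => by
              have h3 : ∀ z, (σ.1 z).im = 0 := fun z => by
                have h4 := congrArg (fun τ : M →ₐ[K] ℂ => τ z) σ.2
                rw [hconj] at h4
                exact Complex.conj_eq_iff_im.1 h4
              rw [map_mul, Complex.mul_re, h3, zero_mul, sub_zero] }, by
          ext x
          change (σ.1 (algebraMap K M x)).re = s x
          rw [σ.1.commutes, hi]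
          exact Complex.ofReal_re _⟩
        left_inv := fun t => by
          apply Subtype.ext
          ext x
          exact Complex.ofReal_re _
        right_inv := fun σ => by
          apply Subtype.ext
          ext x
          change ((σ.1 x).re : ℂ) = σ.1 x
          have h4 := congrArg (fun τ : M →ₐ[K] ℂ => τ x) σ.2
          rw [hconj] at h4
          exact Complex.conj_eq_iff_re.1 h4 }
  rw [h2, ← hcard]
  exact ((ZMod.natCast_eq_natCast_iff _ _ _).2 h1).symm

/-- The number of real places with a negative value. -/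
theorem card_neg (hodd : Odd (Module.finrank K M)) (x : K) :
    (Nat.card {t : M →+* ℝ // t (algebraMap K M x) < 0} : ZMod 2) =
      (Nat.card {s : K →+* ℝ // s x < 0} : ZMod 2) := by
  have h1 : Nat.card {t : M →+* ℝ // t (algebraMap K M x) < 0} =
      ∑ s : {s : K →+* ℝ // s x < 0}, Nat.card {t : M →+* ℝ // t.comp (algebraMap K M) = s.1} := by
    rw [← Nat.card_sigma]
    refine Nat.card_congr ?_
    exact
      { toFun := fun t => ⟨⟨t.1.comp (algebraMap K M), t.2⟩, ⟨t.1, rfl⟩⟩
        invFun := fun u => ⟨u.2.1, by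
          have h2 := u.1.2
          rw [← u.2.2] at h2
          exact h2⟩
        left_inv := fun _ => rfl
        right_inv := by
          rintro ⟨⟨s, hs⟩, ⟨t, ht⟩⟩
          have ht' : t.comp (algebraMap K M) = s := ht
          subst ht'
          rfl }
  have h2 : (Module.finrank K M : ZMod 2) = 1 := by
    obtain ⟨m, hm⟩ := hodd
    rw [hm]
    push_cast
    have h3 : (2 : ZMod 2) = 0 := by decide
    rw [h3, zero_mul, zero_add]
  rw [h1, Nat.cast_sum, Finset.sum_congr rfl fun s _ => (card_real_above s.1).trans h2,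
    Finset.sum_const, nsmul_eq_mul, mul_one, Finset.card_univ, Nat.card_eq_fintype_card]

/-- **The change of the parity over `M`, `[M : K]` odd.** -/
theorem par_M (hodd : Odd (Module.finrank K M))
    (S : Ext M M LM (algebraMap K M (a : K)) (algebraMap K M (b : K)) θ) {D0 D : K}
    {Sg : Finset (HeightOneSpectrum (𝓞 K))} (ok : OkK a b D0 Sg) (hD : D ≠ 0)
    (hsq : ∀ v ∈ Sg, IsSquare (algebraMap K (v.adicCompletion K) (D / D0))) :
    ((∃ k : ℕ, Nat.card {c : SC LM // S.V (algebraMap K M D0) c} = 4 ^ k) ↔
      (∃ k : ℕ, Nat.card {c : SC LM // S.V (algebraMap K M D) c} = 4 ^ k)) ↔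
      Even (Nat.card {s : K →+* ℝ // s (D / D0) < 0}) := by
  obtain ⟨p, n, hp, hn, hev⟩ := parity_M S ok hD hsq
  have h1 : Even (Nat.card {s : M →+* ℝ // s (algebraMap K M (D / D0)) < 0}) ↔
      Even (Nat.card {s : K →+* ℝ // s (D / D0) < 0}) := by
    rw [even_iff_two_dvd, even_iff_two_dvd, ← ZMod.natCast_eq_zero_iff,
      ← ZMod.natCast_eq_zero_iff, card_neg hodd]
  rw [even_pow_four hp, even_pow_four hn, ← h1]
  rw [Nat.even_add, Nat.even_add] at hev
  exact hev

/-- **The parity over `M` does not change for positive twists.** -/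
theorem par_M_pos (S : Ext M M LM (algebraMap K M (a : K)) (algebraMap K M (b : K)) θ) {D0 D : K}
    {Sg : Finset (HeightOneSpectrum (𝓞 K))} (ok : OkK a b D0 Sg) (hD : D ≠ 0)
    (hsq : ∀ v ∈ Sg, IsSquare (algebraMap K (v.adicCompletion K) (D / D0)))
    (hpos : ∀ s : K →+* ℝ, 0 < s (D / D0)) :
    (∃ k : ℕ, Nat.card {c : SC LM // S.V (algebraMap K M D0) c} = 4 ^ k) ↔
      (∃ k : ℕ, Nat.card {c : SC LM // S.V (algebraMap K M D) c} = 4 ^ k) := by
  obtain ⟨p, n, hp, hn, hev⟩ := parity_M S ok hD hsq
  have h1 : Nat.card {s : M →+* ℝ // s (algebraMap K M (D / D0)) < 0} = 0 := by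
    have : IsEmpty {s : M →+* ℝ // s (algebraMap K M (D / D0)) < 0} :=
      ⟨fun s => lt_asymm s.2 (hpos (s.1.comp (algebraMap K M)))⟩
    exact Nat.card_of_isEmpty
  rw [h1, add_zero, Nat.even_add] at hev
  rw [even_pow_four hp, even_pow_four hn]
  exact hev

end H30OR
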