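import Pool.Agent.H2.T4.FA3
import Pool.Agent.H2.T4.FQ

/-!
# MP_78d38b_GM (density): the sum of the inverse norms of the inert primes of a cyclic extension of prime degree diverges
-/

set_option autoImplicit false
open scoped Classical nonZeroDivisors

open IsDedekindDomain NumberField

namespace H30OR

open H2T4

theorem inv_le_exp {x : ℝ} (hx0 : 0 < x) (hx : x ≤ 1 / 2) : (1 - x)⁻¹ ≤ Real.exp (2 * x) := by
  have h1 : 0 < 1 - x := by linarith
  have h2 := Real.one_sub_inv_le_log_of_pos h1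
  have h3 : (1 - x)⁻¹ ≤ 1 + 2 * x := by
    rw [inv_le_comm₀ h1 (by linarith), inv_le_iff_one_le_mul₀ (by linarith)]
    nlinarith
  refine h3.trans ?_
  have h4 := Real.add_one_le_exp (2 * x)
  linarith

theorem rpow_le_inv {K : Type} [Field K] [NumberField K] (v : HeightOneSpectrum (𝓞 K)) {s : ℝ}
    (hs : 1 < s) : Nv v ^ (-s) ≤ (Nv v)⁻¹ := by
  have h2 := Nv_ge v
  rw [← Real.rpow_neg_one]
  exact Real.rpow_le_rpow_of_exponent_le (by linarith) (by linarith)

/-- **Divergence**: the inert primes of a Galois extension of prime degree. -/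
theorem inert_div (F₀ F : Type) [Field F₀] [NumberField F₀] [Field F] [NumberField F]
    [Algebra F₀ F] [IsGalois F₀ F] (q : ℕ) (hq : q.Prime) (hdeg : Module.finrank F₀ F = q)
    (S₂ : Set (HeightOneSpectrum (𝓞 F₀))) (hS₂ : S₂.Finite) (B : ℝ) :
    ∃ T : Finset (HeightOneSpectrum (𝓞 F₀)), (∀ v ∈ T, v ∉ S₂ ∧ Inert F₀ F v) ∧
      B ≤ ∑ v ∈ T, (Nv v)⁻¹ := by
  by_contra hcon
  push Not at hcon
  obtain ⟨C, hC⟩ := zeta_pow_le F₀ F q hq hdeg S₂ hS₂
  obtain ⟨c, C0, hc, h0⟩ := zs_one F₀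
  obtain ⟨c1, C1, hc1, h1⟩ := zs_one F
  obtain ⟨A, hA⟩ : ∃ A, A = Real.exp (2 * B) := ⟨_, rfl⟩
  have hApos : 0 < A := by
    rw [hA]
    exact Real.exp_pos _
  have hbd : ∀ s : ℝ, 1 < s → ∀ T : Finset (HeightOneSpectrum (𝓞 F₀)),
      (∀ v ∈ T, v ∉ S₂ ∧ Inert F₀ F v) → ∏ v ∈ T, (1 - Nv v ^ (-s))⁻¹ ≤ A := by
    intro s hs T hT
    have h2 : ∏ v ∈ T, (1 - Nv v ^ (-s))⁻¹ ≤ ∏ v ∈ T, Real.exp (2 * (Nv v)⁻¹) := by
      refine Finset.prod_le_prod (fun v _ => ?_) (fun v _ => ?_)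
      · exact zero_le_one.trans (FQ_u v hs).1
      · obtain ⟨h3, h4⟩ := FQ_x v hs
        refine (inv_le_exp h3 h4).trans (Real.exp_le_exp.2 ?_)
        have h5 := rpow_le_inv v hs
        linarith
    refine h2.trans ?_
    rw [← Real.exp_sum, ← Finset.mul_sum, hA]
    have h6 := hcon T hT
    exact Real.exp_le_exp.2 (by linarith)
  have hq2 : 2 ≤ q := hq.two_le
  obtain ⟨M, hM⟩ : ∃ M, M = |C| * |C1| * A ^ q := ⟨_, rfl⟩
  have hM0 : 0 ≤ M := by
    rw [hM]
    positivity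
  have hkey : ∀ t : ℝ, 0 < t → t ≤ 1 → c ^ q ≤ M * t := by
    intro t ht ht1
    have hs : 1 < 1 + t := by linarith
    have h3 := hC (1 + t) hs A (hbd _ hs)
    have h4 := (h0 (1 + t) hs (by linarith)).1
    have h5 := (h1 (1 + t) hs (by linarith)).2
    have e1 : (1 + t) - 1 = t := by ring
    rw [e1] at h4 h5
    have h6 : (c / t) ^ q ≤ |C| * (|C1| / t) * A ^ q := by
      calc (c / t) ^ q ≤ ‖Zs F₀ 1 (1 + t)‖ ^ q := pow_le_pow_left₀ (by positivity) h4 _
        _ ≤ C * ‖Zs F 1 (1 + t)‖ * A ^ q := h3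
        _ ≤ |C| * ‖Zs F 1 (1 + t)‖ * A ^ q := by
            gcongr
            exact le_abs_self C
        _ ≤ |C| * (|C1| / t) * A ^ q := by
            gcongr
            refine h5.trans ?_
            gcongr
            exact le_abs_self C1
    have h7 : c ^ q = (c / t) ^ q * t ^ q := by
      rw [← mul_pow, div_mul_cancel₀ _ ht.ne']
    have h8 : t ^ q ≤ t * t := by
      calc t ^ q ≤ t ^ 2 := pow_le_pow_of_le_one ht.le ht1 hq2
        _ = t * t := by ring
    have h9 : 0 ≤ |C| * (|C1| / t) * A ^ q := by positivity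
    calc c ^ q = (c / t) ^ q * t ^ q := h7
      _ ≤ |C| * (|C1| / t) * A ^ q * (t * t) := by
          gcongr
      _ = M * t := by
          rw [hM]
          field_simp
  have hcq : 0 < c ^ q := pow_pos hc q
  obtain ⟨t, ht⟩ : ∃ t, t = min 1 (c ^ q / (2 * (M + 1))) := ⟨_, rfl⟩
  have ht0 : 0 < t := by
    rw [ht]
    exact lt_min one_pos (by positivity)
  have ht1 : t ≤ 1 := by
    rw [ht]
    exact min_le_left _ _
  have ht2 : t ≤ c ^ q / (2 * (M + 1)) := by
    rw [ht]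
    exact min_le_right _ _
  have h10 := hkey t ht0 ht1
  have h11 : (M + 1) * t ≤ c ^ q / 2 := by
    calc (M + 1) * t ≤ (M + 1) * (c ^ q / (2 * (M + 1))) := by gcongr
      _ = c ^ q / 2 := by field_simp
  nlinarith

end H30OR
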