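import Pool.Agent.H30.OR.Tr
import Pool.Agent.H76.PP.Df0

/-!
# MP_78d38b_GM (density): `inert_div` in the form of helper76
-/

set_option autoImplicit false
open scoped Classical nonZeroDivisors

open IsDedekindDomain NumberField

namespace H30OR

/-- **Divergence**: the inert primes of a quadratic extension. -/
theorem inert_div2 {K K' : Type} [Field K] [NumberField K] [Field K'] [NumberField K']
    [Algebra K K'] [IsGalois K K'] (hdeg : Module.finrank K K' = 2)
    {S : Set (HeightOneSpectrum (𝓞 K))} (hS : S.Finite) (C : ℝ) :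
    ∃ F : Finset (HeightOneSpectrum (𝓞 K)), (∀ v ∈ F, v ∉ S ∧ H2T4.Inert K K' v) ∧
      C ≤ ∑ v ∈ F, 1 / (H76PP.Nv v : ℝ) := by
  obtain ⟨T, h1, h2⟩ := inert_div K K' 2 Nat.prime_two hdeg S hS C
  refine ⟨T, h1, h2.trans (le_of_eq (Finset.sum_congr rfl fun v _ => ?_))⟩
  rw [one_div]
  rfl

end H30OR
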