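import Pool.Agent.H30.OR.Ts

/-!
# MP_78d38b_GM (density): the sum of the inverse norms of all primes diverges
-/

set_option autoImplicit false
open scoped Classical nonZeroDivisors

open IsDedekindDomain NumberField

namespace H30OR

open H2T4

/-- **Divergence**: all primes. -/
theorem all_div {K : Type} [Field K] [NumberField K] {S : Set (HeightOneSpectrum (𝓞 K))}
    (hS : S.Finite) (C : ℝ) :
    ∃ F : Finset (HeightOneSpectrum (𝓞 K)), (∀ v ∈ F, v ∉ S) ∧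
      C ≤ ∑ v ∈ F, 1 / (H76PP.Nv v : ℝ) := by
  by_contra hcon
  push Not at hcon
  obtain ⟨c, C0, hc, h0⟩ := zs_one K
  obtain ⟨S', hS'⟩ : ∃ S' : Finset (HeightOneSpectrum (𝓞 K)), S' = hS.toFinset := ⟨_, rfl⟩
  have hm : ∀ v, v ∈ S' ↔ v ∈ S := fun v => by
    rw [hS', Set.Finite.mem_toFinset]
  obtain ⟨M, hM⟩ : ∃ M, M = 2 ^ S'.card * Real.exp (2 * C) := ⟨_, rfl⟩
  have hM0 : 0 < M := by
    rw [hM]
    positivity
  have hbd : ∀ s : ℝ, 1 < s → ∀ T : Finset (HeightOneSpectrum (𝓞 K)),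
      ∏ v ∈ T, (1 - Nv v ^ (-s))⁻¹ ≤ M := by
    intro s hs T
    have e1 : ∏ v ∈ T, (1 - Nv v ^ (-s))⁻¹ =
        (∏ v ∈ T.filter (fun v => v ∈ S'), (1 - Nv v ^ (-s))⁻¹) *
        ∏ v ∈ T.filter (fun v => v ∉ S'), (1 - Nv v ^ (-s))⁻¹ :=
      (Finset.prod_filter_mul_prod_filter_not T (fun v => v ∈ S') _).symm
    have e2 : ∏ v ∈ T.filter (fun v => v ∈ S'), (1 - Nv v ^ (-s))⁻¹ ≤ 2 ^ S'.card := by
      have h1 : ∏ v ∈ T.filter (fun v => v ∈ S'), (1 - Nv v ^ (-s))⁻¹ ≤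
          ∏ v ∈ T.filter (fun v => v ∈ S'), (2 : ℝ) :=
        Finset.prod_le_prod (fun v _ => zero_le_one.trans (FQ_u v hs).1) (fun v _ => (FQ_u v hs).2)
      refine h1.trans ?_
      rw [Finset.prod_const]
      refine pow_le_pow_right₀ one_le_two (Finset.card_le_card ?_)
      intro v hv
      exact (Finset.mem_filter.1 hv).2
    have e3 : ∏ v ∈ T.filter (fun v => v ∉ S'), (1 - Nv v ^ (-s))⁻¹ ≤ Real.exp (2 * C) := by
      have h2 : ∏ v ∈ T.filter (fun v => v ∉ S'), (1 - Nv v ^ (-s))⁻¹ ≤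
          ∏ v ∈ T.filter (fun v => v ∉ S'), Real.exp (2 * (Nv v)⁻¹) := by
        refine Finset.prod_le_prod (fun v _ => ?_) (fun v _ => ?_)
        · exact zero_le_one.trans (FQ_u v hs).1
        · obtain ⟨h3, h4⟩ := FQ_x v hs
          refine (inv_le_exp h3 h4).trans (Real.exp_le_exp.2 ?_)
          have h5 := rpow_le_inv v hs
          linarith
      refine h2.trans ?_
      rw [← Real.exp_sum, ← Finset.mul_sum]
      have h6 := hcon (T.filter (fun v => v ∉ S')) (fun v hv hvS =>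
        (Finset.mem_filter.1 hv).2 ((hm v).2 hvS))
      have h7 : ∑ v ∈ T.filter (fun v => v ∉ S'), (Nv v)⁻¹ =
          ∑ v ∈ T.filter (fun v => v ∉ S'), 1 / (H76PP.Nv v : ℝ) :=
        Finset.sum_congr rfl fun v _ => by
          rw [one_div]
          rfl
      rw [h7]
      exact Real.exp_le_exp.2 (by linarith)
    rw [e1, hM]
    exact mul_le_mul e2 e3 (Finset.prod_nonneg fun v _ => zero_le_one.trans (FQ_u v hs).1)
      (by positivity)
  have hz : ∀ s : ℝ, 1 < s → ‖Zs K 1 s‖ ≤ M := by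
    intro s hs
    have h1 : HasProd (fun v : HeightOneSpectrum (𝓞 K) =>
        ‖(((1 - Nv v ^ (-s))⁻¹ : ℝ) : ℂ)‖) ‖Zs K 1 s‖ := (FQ_hasProd K s hs).norm
    have h2 : (fun v : HeightOneSpectrum (𝓞 K) => ‖(((1 - Nv v ^ (-s))⁻¹ : ℝ) : ℂ)‖) =
        fun v : HeightOneSpectrum (𝓞 K) => (1 - Nv v ^ (-s))⁻¹ := by
      funext v
      rw [Complex.norm_real, Real.norm_eq_abs, abs_of_nonneg (zero_le_one.trans (FQ_u v hs).1)]
    rw [h2] at h1
    have h3 : Filter.Tendsto (fun T : Finset (HeightOneSpectrum (𝓞 K)) =>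
      ∏ v ∈ T, (1 - Nv v ^ (-s))⁻¹) Filter.atTop (nhds ‖Zs K 1 s‖) := h1
    exact le_of_tendsto h3 (Filter.Eventually.of_forall fun T => hbd s hs T)
  obtain ⟨t, ht⟩ : ∃ t, t = min 1 (c / (2 * M)) := ⟨_, rfl⟩
  have ht0 : 0 < t := by
    rw [ht]
    exact lt_min one_pos (by positivity)
  have ht1 : t ≤ 1 := by
    rw [ht]
    exact min_le_left _ _
  have ht2 : t ≤ c / (2 * M) := by
    rw [ht]
    exact min_le_right _ _
  have h4 := (h0 (1 + t) (by linarith) (by linarith)).1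
  have h5 := hz (1 + t) (by linarith)
  have e1 : (1 + t) - 1 = t := by ring
  rw [e1] at h4
  have h6 : c / t ≤ M := h4.trans h5
  rw [div_le_iff₀ ht0] at h6
  have h7 : M * t ≤ c / 2 := by
    calc M * t ≤ M * (c / (2 * M)) := by gcongr
      _ = c / 2 := by field_simp
  linarith

end H30OR
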